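import Pool.Agent.TBirS.DBd

/-!
# The range of `T - q` is dense at a double point

`DR A` means: the only `y` with `inner y (A f) = 0` for all `f` is `0`. It holds for products, for
operators with a right inverse, for `S - z` with `|z| = 1`, for `1 - z Sa`, and so, by the
Wiener-Hopf factorisation at the point `q`, for `T Phi - q`.
-/

set_option autoImplicit false

open MeasureTheory Complex Set Filter Topology Metric AddCircle
open scoped ComplexConjugate InnerProductSpace ENNReal

namespace Pool.Agent.TBirS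

open Pool.Agent.TBir

/-- Only the zero vector is orthogonal to the range. -/
def DR (A : Hardy →L[ℂ] Hardy) : Prop := ∀ y : Hardy, (∀ f, inner ℂ y (A f) = 0) → y = 0

theorem DR.mul {A B : Hardy →L[ℂ] Hardy} (hA : DR A) (hB : DR B) : DR (A * B) := by
  intro y hy
  apply hA
  have h1 : ContinuousLinearMap.adjoint A y = 0 := by
    apply hB
    intro f
    rw [ContinuousLinearMap.adjoint_inner_left]
    exact hy f
  intro f
  rw [← ContinuousLinearMap.adjoint_inner_left, h1, inner_zero_left]

/-- An operator with a right inverse has dense range. -/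
theorem DR.of_inv {A B : Hardy →L[ℂ] Hardy} (h : A * B = 1) : DR A := by
  intro y hy
  have h1 := hy (B y)
  have h2 : A (B y) = y := by
    have h3 := congrArg (fun X : Hardy →L[ℂ] Hardy => X y) h
    exact h3
  rw [h2] at h1
  exact inner_self_eq_zero.1 h1

theorem DR.one : DR 1 := DR.of_inv (mul_one 1)

private theorem inner_mono (y : Hardy) (n : ℕ) : inner ℂ y (mono n) = conj (co y n) := by
  rw [← coL_apply, ← inner_conj_symm]
  rfl

private theorem co_zero' (n : ℕ) : co (0 : Hardy) n = 0 := by
  rw [← coL_apply, map_zero]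

private theorem eq_zero_of_co {y : Hardy} (h : ∀ n, co y n = 0) : y = 0 :=
  ext_co fun n => by rw [h n, co_zero']

private theorem S_mono (n : ℕ) : S (mono n) = mono (n + 1) := by
  refine ext_co fun k => ?_
  rcases k with _ | k
  · rw [co_S_zero, co_mono, if_neg (by omega)]
  · rw [co_S_succ, co_mono, co_mono]
    by_cases hk : k = n
    · rw [if_pos hk, if_pos (by omega)]
    · rw [if_neg hk, if_neg (by omega)]

private theorem Sa_mono_succ (n : ℕ) : Sa (mono (n + 1)) = mono n := by
  refine ext_co fun k => ?_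
  rw [co_Sa, co_mono, co_mono]
  by_cases hk : k = n
  · rw [if_pos hk, if_pos (by omega)]
  · rw [if_neg hk, if_neg (by omega)]

private theorem Sa_mono_zero : Sa (mono 0) = 0 := by
  refine ext_co fun k => ?_
  rw [co_Sa, co_mono, co_zero', if_neg (by omega)]

/-- The range of `S - z` is dense for `|z| = 1`. -/
theorem dr_S_sub {z : ℂ} (hz : ‖z‖ = 1) : DR (S - z • (1 : Hardy →L[ℂ] Hardy)) := by
  intro y hy
  have h1 : ∀ n, ‖co y (n + 1)‖ = ‖co y n‖ := by
    intro n
    have h2 := hy (mono n)
    rw [sub_apply, smul_apply, one_apply_eq_self, S_mono, inner_sub_right, inner_smul_right,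
      inner_mono, inner_mono, sub_eq_zero] at h2
    have h3 := congrArg (fun x : ℂ => ‖x‖) h2
    simp only [norm_mul, RCLike.norm_conj, hz, one_mul] at h3
    exact h3
  have h4 : ∀ n, ‖co y n‖ = ‖co y 0‖ := by
    intro n
    induction n with
    | zero => rfl
    | succ n ih => rw [h1, ih]
  have h5 := (hasSum_sq_co y).summable.tendsto_atTop_zero
  simp only [h4] at h5
  have h6 : ‖co y 0‖ ^ 2 = 0 := tendsto_nhds_unique tendsto_const_nhds h5
  have h7 : ‖co y 0‖ = 0 := by
    rcases pow_eq_zero_iff (two_ne_zero) |>.1 h6 with h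
    exact h
  exact eq_zero_of_co fun n => norm_eq_zero.1 (by rw [h4, h7])

/-- The range of `1 - z Sa` is dense. -/
theorem dr_one_sub_Sa (z : ℂ) : DR ((1 : Hardy →L[ℂ] Hardy) - z • Sa) := by
  intro y hy
  refine eq_zero_of_co fun n => ?_
  have key : ∀ n, conj (co y n) = 0 := by
    intro n
    induction n with
    | zero =>
      have h2 := hy (mono 0)
      rw [sub_apply, smul_apply, one_apply_eq_self, Sa_mono_zero, smul_zero, sub_zero,
        inner_mono] at h2
      exact h2
    | succ n ih =>
      have h2 := hy (mono (n + 1))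
      rw [sub_apply, smul_apply, one_apply_eq_self, Sa_mono_succ, inner_sub_right,
        inner_smul_right, inner_mono, inner_mono, ih, mul_zero, sub_zero] at h2
      exact h2
  have h := key n
  rwa [map_eq_zero] at h

private theorem fourier_neg_mul' : (fourier (-1) : CT) * fourier 1 = 1 := by
  ext x
  rw [ContinuousMap.mul_apply, ← fourier_add, ContinuousMap.one_apply]
  simp

private theorem smul_ct' (z : ℂ) (x : CT) : (z • x : CT) = algebraMap ℂ CT z * x := by
  ext t
  rw [ContinuousMap.smul_apply, ContinuousMap.mul_apply, Algebra.algebraMap_eq_smul_one,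
    ContinuousMap.smul_apply, ContinuousMap.one_apply, smul_eq_mul, smul_eq_mul, mul_one]

private theorem ct_fac' {phi : ℂ → ℂ} {l0 : ℂ} (D : LS phi l0) {Phi : CT}
    (hPhi : ∀ x, Phi x = phi (e x)) {l : ℂ} (hl : l ∈ ball l0 D.r) :
    Phi - algebraMap ℂ CT l = D.Psi l *
      ((fourier 1 - algebraMap ℂ CT (D.z1 l)) * (fourier 1 - algebraMap ℂ CT (D.z2 l))) := by
  ext x
  have := D.fac l hl (e x) (e_mem_ann D.del_pos x)
  simp only [Algebra.algebraMap_eq_smul_one, ContinuousMap.sub_apply, ContinuousMap.mul_apply,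
    ContinuousMap.smul_apply, ContinuousMap.one_apply, smul_eq_mul, mul_one]
  rw [hPhi, D.Psi_eq l hl, fourier_one_apply]
  exact this

/-- The range of `T Phi - q` is dense at a double point `q`. -/
theorem dr_sub {phi : ℂ → ℂ} {Phi : CT} (hPhi : ∀ x, Phi x = phi (e x)) {q : ℂ} (D : LS phi q) :
    DR (T Phi - algebraMap ℂ (Hardy →L[ℂ] Hardy) q) := by
  obtain ⟨C1, eta, hC1, heta, hWH⟩ := D.hasWH
  have hq : q ∈ ball q D.r := mem_ball_self D.r_pos
  obtain ⟨bp, bm, cp, cm, hbp, hbm, hcp, hcm, hpp, hmm, hPsi⟩ := hWH q hq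
  have sbp := summable_of_dec heta hbp
  have sbm := summable_of_dec heta hbm
  have scp := summable_of_dec heta hcp
  have scm := summable_of_dec heta hcm
  have hfac := ct_fac' D hPhi hq
  have hfac' : Phi - algebraMap ℂ CT q =
      (minusS cm * (1 - D.z1 q • fourier (-1) : CT)) *
        (plusS cp * (fourier 1 - algebraMap ℂ CT (D.z2 q))) := by
    rw [hfac, hPsi]
    have h3 : (1 - D.z1 q • fourier (-1) : CT) =
        fourier (-1) * (fourier 1 - algebraMap ℂ CT (D.z1 q)) := by
      rw [mul_sub, fourier_neg_mul', smul_ct', mul_comm (algebraMap ℂ CT (D.z1 q))]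
    rw [h3]
    ring
  have hm1 : Minus (1 - D.z1 q • fourier (-1) : CT) := by
    have h1 : (1 : CT) = algebraMap ℂ CT 1 := by rw [map_one]
    rw [smul_ct', h1]
    exact (minus_algebraMap 1).sub ((minus_algebraMap _).mul (minus_fourier (by norm_num)))
  have hp1 : Plus (fourier 1 - algebraMap ℂ CT (D.z2 q) : CT) :=
    (plus_fourier (by norm_num)).sub (plus_algebraMap _)
  have hT : T Phi - algebraMap ℂ (Hardy →L[ℂ] Hardy) q =
      (T (minusS cm) * ((1 : Hardy →L[ℂ] Hardy) - D.z1 q • Sa)) *
        (T (plusS cp) * (S - D.z2 q • (1 : Hardy →L[ℂ] Hardy))) := by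
    have e1 : T (1 - D.z1 q • fourier (-1) : CT) = (1 : Hardy →L[ℂ] Hardy) - D.z1 q • Sa := by
      rw [T_sub, T_one, T_smul]
      rfl
    have e2 : T (fourier 1 - algebraMap ℂ CT (D.z2 q) : CT) =
        S - D.z2 q • (1 : Hardy →L[ℂ] Hardy) := by
      rw [T_sub, T_algebraMap]
      rfl
    rw [← e1, ← e2, ← T_mul_left (minus_minusS scm), ← T_mul_right _ hp1,
      ← T_mul_left ((minus_minusS scm).mul hm1), ← hfac', T_sub, T_algebraMap,
      Algebra.algebraMap_eq_smul_one]
  have hi1 : T (minusS cm) * T (minusS bm) = 1 := by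
    rw [← T_mul_left (minus_minusS scm), mul_comm, hmm, T_one]
  have hi2 : T (plusS cp) * T (plusS bp) = 1 := by
    rw [← T_mul_right _ (plus_plusS sbp), mul_comm, hpp, T_one]
  rw [hT]
  exact ((DR.of_inv hi1).mul (dr_one_sub_Sa _)).mul ((DR.of_inv hi2).mul (dr_S_sub D.z2_one))

theorem dense_N {phi : ℂ → ℂ} {Phi : CT} (hPhi : ∀ x, Phi x = phi (e x)) {Q : Finset ℂ}
    (D : ∀ q ∈ Q, LS phi q) :
    DR (Polynomial.aeval (T Phi) (∏ q ∈ Q, (Polynomial.X - Polynomial.C q) ^ 2)) := by
  classical
  have h : ∀ R : Finset ℂ, R ⊆ Q →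
      DR (Polynomial.aeval (T Phi) (∏ q ∈ R, (Polynomial.X - Polynomial.C q) ^ 2)) := by
    intro R
    induction R using Finset.induction_on with
    | empty =>
      intro _
      rw [Finset.prod_empty, map_one]
      exact DR.one
    | insert a R ha ih =>
      intro hR
      rw [Finset.prod_insert ha, map_mul, map_pow, map_sub, Polynomial.aeval_X,
        Polynomial.aeval_C, pow_two]
      have h1 := dr_sub hPhi (D a (hR (Finset.mem_insert_self a R)))
      exact (h1.mul h1).mul (ih ((Finset.subset_insert a R).trans hR))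
  exact h Q (Finset.Subset.refl Q)

end Pool.Agent.TBirS
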