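import Pool.Agent.TBirS.Conv
import Pool.Agent.TBirG.Kap

/-!
# The spectrum
-/

set_option autoImplicit false

open MeasureTheory Complex Set Filter Topology Metric AddCircle
open scoped ComplexConjugate InnerProductSpace ENNReal
open Pool.Lib (dbar)

namespace Pool.Agent.TBirS

open Pool.Agent.TBir

theorem S_sub_not_left {z : ℂ} (hz : ‖z‖ = 1) (L : Hardy →L[ℂ] Hardy) :
    L * (S - z • (1 : Hardy →L[ℂ] Hardy)) ≠ 1 := by
  intro hL
  have hz0 : z ≠ 0 := by
    rintro rfl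
    simp at hz
  obtain ⟨w, hw⟩ : ∃ w, w = z⁻¹ := ⟨_, rfl⟩
  have hwn : ‖w‖ = 1 := by rw [hw, norm_inv, hz, inv_one]
  have hzw : z * w = 1 := by rw [hw, mul_inv_cancel₀ hz0]
  obtain ⟨F, hF⟩ : ∃ F : ℕ → Hardy, F = fun n => ∑ k ∈ Finset.range n, w ^ k • mono k := ⟨_, rfl⟩
  have h1 : ∀ n, (S - z • (1 : Hardy →L[ℂ] Hardy)) (F n) = (z * w ^ n) • mono n - z • mono 0 := by
    intro n
    have h2 := Finset.sum_range_sub (fun k => (z * w ^ k) • mono k) n
    rw [pow_zero, mul_one] at h2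
    rw [← h2, hF]
    simp only [map_sum, map_smul]
    refine Finset.sum_congr rfl fun k _ => ?_
    change w ^ k • (S (mono k) - z • mono k) = _
    rw [Pool.Agent.TBirG.S_mono, smul_sub, smul_smul]
    congr 1
    · rw [pow_succ, ← mul_assoc, mul_right_comm, hzw, one_mul]
    · rw [mul_comm]
  have h2 : ∀ n, ‖F n‖ ≤ ‖L‖ * 2 := by
    intro n
    have h3 : L ((S - z • (1 : Hardy →L[ℂ] Hardy)) (F n)) = F n :=
      congrArg (fun A : Hardy →L[ℂ] Hardy => A (F n)) hL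
    rw [← h3, h1]
    refine (L.le_opNorm _).trans (mul_le_mul_of_nonneg_left ?_ (norm_nonneg _))
    refine (norm_sub_le _ _).trans ?_
    rw [norm_smul, norm_smul, norm_mono, norm_mono, norm_mul, norm_pow, hz, hwn]
    norm_num
  have h3 : ∀ n : ℕ, (n : ℝ) ≤ (‖L‖ * 2) ^ 2 := by
    intro n
    have h4 := sum_le_hasSum (Finset.range n) (fun k _ => sq_nonneg _) (hasSum_sq_co (F n))
    have h5 : ∀ k ∈ Finset.range n, ‖co (F n) k‖ ^ 2 = 1 := by
      intro k hk
      have h6 : co (F n) k = w ^ k := by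
        rw [hF, ← coL_apply]
        simp only [map_sum, map_smul, coL_apply, co_mono, smul_eq_mul, mul_ite, mul_one, mul_zero]
        rw [Finset.sum_ite_eq]
        rw [if_pos hk]
      rw [h6, norm_pow, hwn, one_pow, one_pow]
    rw [Finset.sum_congr rfl h5, Finset.sum_const, Finset.card_range, nsmul_eq_mul, mul_one] at h4
    exact h4.trans (pow_le_pow_left₀ (norm_nonneg _) (h2 n) 2)
  obtain ⟨n, hn⟩ := exists_nat_gt ((‖L‖ * 2) ^ 2)
  exact absurd (h3 n) (not_le.2 hn)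

theorem Sg_not_unit {phi : ℂ → ℂ} (hphi : AnalyticOnNhd ℂ phi (sphere 0 1)) {Phi : CT}
    (hPhi : ∀ x, Phi x = phi (e x)) {l : ℂ} (hl : l ∈ Sg phi) :
    ¬ IsUnit (T Phi - l • (1 : Hardy →L[ℂ] Hardy)) := by
  intro hu
  obtain ⟨u, hu'⟩ := hu
  by_cases hJ : l ∈ J phi
  · obtain ⟨z, hz, hzl⟩ := hJ
    obtain ⟨d, hd, hd1, hsub⟩ := exists_ann_subset (isOpen_analyticAt ℂ phi) hphi
    have hdf : DifferentiableOn ℂ phi (ann d) := fun w hw =>
      (hsub ⟨hw.1.le, hw.2.le⟩).differentiableAt.differentiableWithinAt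
    have hsy : Phi = Pool.Agent.TBirG.sy phi 1 := by
      ext x
      rw [Pool.Agent.TBirG.sy_apply hd (by linarith) one_pos le_rfl hdf, Complex.ofReal_one,
        one_mul, hPhi]
    have hf := Pool.Agent.TBirG.fac_one hd hd1 hdf (Pool.Agent.TBirG.mem_sphere_ann hd hz)
    rw [← hsy, hzl, ← hu'] at hf
    refine S_sub_not_left (mem_sphere_zero_iff_norm.1 hz)
      (((u⁻¹ : (Hardy →L[ℂ] Hardy)ˣ) : Hardy →L[ℂ] Hardy) * T (Pool.Agent.TBirG.qs phi z)) ?_
    rw [mul_assoc, ← hf, Units.inv_mul]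
  · have hw := hl.resolve_left hJ
    obtain ⟨n, hn⟩ := wd_int hphi hJ
    rcases lt_trichotomy n 0 with h | h | h
    · obtain ⟨v, hv, hv'⟩ := exists_ker_of_wd hphi hPhi hJ (by rw [hn]; simpa using h)
      apply hv
      have h1 : (T Phi - l • (1 : Hardy →L[ℂ] Hardy)) v = 0 := by
        change T Phi v - l • v = 0
        rw [hv', sub_self]
      rw [← hu'] at h1
      have h2 := congrArg (fun A : Hardy →L[ℂ] Hardy => A v) (Units.inv_mul u)
      change ((u⁻¹ : (Hardy →L[ℂ] Hardy)ˣ) : Hardy →L[ℂ] Hardy) ((u : Hardy →L[ℂ] Hardy) v) = v at h2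
      rw [← h2, h1, map_zero]
    · exact absurd (by rw [hn, h]; simp) hw
    · obtain ⟨v, hv, hv'⟩ := exists_ker_adj_of_wd hphi hPhi hJ (by rw [hn]; simpa using h)
      apply hv
      have h2 := congrArg (fun A : Hardy →L[ℂ] Hardy => A v) (Units.mul_inv u)
      change (u : Hardy →L[ℂ] Hardy) (((u⁻¹ : (Hardy →L[ℂ] Hardy)ˣ) : Hardy →L[ℂ] Hardy) v) = v at h2
      obtain ⟨y, hy⟩ : ∃ y, y = ((u⁻¹ : (Hardy →L[ℂ] Hardy)ˣ) : Hardy →L[ℂ] Hardy) v := ⟨_, rfl⟩
      rw [hu', ← hy] at h2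
      have h3 : inner ℂ v (T Phi y - l • y) = inner ℂ v v := congrArg (fun y => inner ℂ v y) h2
      rw [inner_sub_right, inner_smul_right, ← ContinuousLinearMap.adjoint_inner_left, hv',
        inner_smul_left, Complex.conj_conj, sub_self] at h3
      exact inner_self_eq_zero.1 h3.symm

/-- The operator `(T - l0)` times the Cauchy integral. -/
theorem exists_V {phi : ℂ → ℂ} (hphi : AnalyticOnNhd ℂ phi (sphere 0 1)) {Phi : CT}
    (hPhi : ∀ x, Phi x = phi (e x)) {U1 U2 : Set ℂ} (K : CutS phi U1 U2) {l0 : ℂ}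
    (hl0 : l0 ∈ Sg phi) (hQ : l0 ∉ K.Q) :
    ∃ V : Hardy →L[ℂ] Hardy, (T Phi - l0 • (1 : Hardy →L[ℂ] Hardy)) * V =
        (Real.pi * K.chi l0 : ℂ) • Nq Phi K.Q + ∫ l, dbar K.chi l • (resolvent (T Phi) l * Nq Phi K.Q) ∧
      V * (T Phi - l0 • (1 : Hardy →L[ℂ] Hardy)) =
        (Real.pi * K.chi l0 : ℂ) • Nq Phi K.Q +
          ∫ l, dbar K.chi l • (resolvent (T Phi) l * Nq Phi K.Q) := by
  obtain ⟨C, hC⟩ := bound_V hphi hPhi K
  obtain ⟨δ, hδ, hV⟩ := Metric.eventually_nhds_iff_ball.1 (K.V_off hl0 hQ)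
  have hdist : ∀ l ∈ K.V, ‖(l - l0)⁻¹‖ ≤ δ⁻¹ := by
    intro l hl
    rw [norm_inv]
    refine inv_anti₀ hδ ?_
    by_contra h
    exact hV l (mem_ball_iff_norm.2 (not_le.1 h)) hl
  have hmeas : Measurable fun l : ℂ => (l - l0)⁻¹ := (measurable_id.sub_const l0).inv
  have hcont : ∀ n, Continuous fun l => K.w n l • (resolvent (T Phi) l * Nq Phi K.Q) := by
    intro n
    have h1 := (K.continuous_res hphi hPhi n).mul (continuous_const (y := Nq Phi K.Q))
    refine h1.congr fun l => ?_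
    exact smul_mul_assoc _ _ _
  -- the three integrals
  have c1 := conv K (F := fun _ l => (l - l0)⁻¹ • (resolvent (T Phi) l * Nq Phi K.Q))
    (G := fun l => (l - l0)⁻¹ • (resolvent (T Phi) l * Nq Phi K.Q)) (C := δ⁻¹ * C)
    (fun _ l hl hlQ => by
      rw [norm_smul]
      exact mul_le_mul (hdist l hl) (hC l hl hlQ) (norm_nonneg _) (inv_pos.2 hδ).le)
    (fun l _ => tendsto_const_nhds) (fun n => by
      have h1 : (fun l => K.w n l • (l - l0)⁻¹ • (resolvent (T Phi) l * Nq Phi K.Q)) =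
          fun l => (l - l0)⁻¹ • (K.w n l • (resolvent (T Phi) l * Nq Phi K.Q)) := by
        funext l
        rw [smul_comm]
      rw [h1]
      exact hmeas.aestronglyMeasurable.smul (hcont n).aestronglyMeasurable)
  have c2 := conv K (F := fun _ l => resolvent (T Phi) l * Nq Phi K.Q)
    (G := fun l => resolvent (T Phi) l * Nq Phi K.Q) (C := C) (fun _ l hl hQ => hC l hl hQ)
    (fun l _ => tendsto_const_nhds) (fun n => (hcont n).aestronglyMeasurable)
  have c3 := conv K (F := fun _ l => (l - l0)⁻¹) (G := fun l => (l - l0)⁻¹) (C := δ⁻¹)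
    (fun _ l hl _ => hdist l hl) (fun l _ => tendsto_const_nhds) (fun n =>
      ((K.continuous_w n).measurable.mul hmeas).aestronglyMeasurable)
  -- the value of the scalar integral
  have hs : ∫ l, dbar K.chi l • (l - l0)⁻¹ = -(Real.pi * K.chi l0) := by
    have h1 := (K.tendsto_s hQ).const_mul (-(Real.pi : ℂ))
    have hpi : (Real.pi : ℂ) ≠ 0 := by exact_mod_cast Real.pi_ne_zero
    have h2 : ∀ n, -(Real.pi : ℂ) * K.s n l0 = ∫ l, K.w n l • (l - l0)⁻¹ := by
      intro n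
      have h3 : K.s n l0 = -(Real.pi : ℂ)⁻¹ * ∫ l, K.w n l / (l - l0) := rfl
      rw [h3]
      simp only [smul_eq_mul, ← div_eq_mul_inv]
      field_simp
    simp only [h2] at h1
    rw [tendsto_nhds_unique c3.2 h1]
    ring
  obtain ⟨A, hA⟩ : ∃ A : Hardy →L[ℂ] Hardy, A = T Phi - l0 • (1 : Hardy →L[ℂ] Hardy) := ⟨_, rfl⟩
  obtain ⟨N, hN⟩ : ∃ N : Hardy →L[ℂ] Hardy, N = Nq Phi K.Q := ⟨_, rfl⟩
  rw [← hA, ← hN]
  rw [← hN] at c1 c2
  -- pointwise identities
  have hNT : T Phi * N = N * T Phi := by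
    rw [hN]
    exact comm_aeval rfl _
  have key : ∀ l, l ∉ K.Q → dbar K.chi l ≠ 0 →
      A * resolvent (T Phi) l = (l - l0) • resolvent (T Phi) l - 1 ∧
        resolvent (T Phi) l * A = (l - l0) • resolvent (T Phi) l - 1 := by
    intro l hlQ hd
    have hlS : l ∉ Sg phi := fun h => (K.V_off h hlQ).self_of_nhds (Or.inl hd)
    have hr : IsUnit (algebraMap ℂ (Hardy →L[ℂ] Hardy) l - T Phi) := PBd_rT hphi hPhi l hlS
    have h1 : resolvent (T Phi) l * (algebraMap ℂ (Hardy →L[ℂ] Hardy) l - T Phi) = 1 :=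
      Ring.inverse_mul_cancel _ hr
    have h2 : (algebraMap ℂ (Hardy →L[ℂ] Hardy) l - T Phi) * resolvent (T Phi) l = 1 :=
      Ring.mul_inverse_cancel _ hr
    rw [Algebra.algebraMap_eq_smul_one] at h1 h2
    rw [mul_sub, mul_smul_comm, mul_one] at h1
    rw [sub_mul, smul_mul_assoc, one_mul] at h2
    have e1 : resolvent (T Phi) l * T Phi = l • resolvent (T Phi) l - 1 := by
      rw [← h1]; abel
    have e2 : T Phi * resolvent (T Phi) l = l • resolvent (T Phi) l - 1 := by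
      rw [← h2]; abel
    constructor
    · rw [hA, sub_mul, smul_mul_assoc, one_mul, e2, sub_smul]
      abel
    · rw [hA, mul_sub, mul_smul_comm, mul_one, e1, sub_smul]
      abel
  have hNA : N * A = A * N := by
    rw [hA, mul_sub, sub_mul, ← hNT, mul_smul_comm, smul_mul_assoc, mul_one, one_mul]
  have pt1 : ∀ l, l ∉ K.Q → A * (dbar K.chi l • (l - l0)⁻¹ • (resolvent (T Phi) l * N)) =
      dbar K.chi l • (resolvent (T Phi) l * N) - (dbar K.chi l • (l - l0)⁻¹) • N := by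
    intro l hlQ
    by_cases hd : dbar K.chi l = 0
    · rw [hd]
      simp
    · have hll : l - l0 ≠ 0 := by
        intro h
        rw [sub_eq_zero.1 h] at hd
        exact (K.V_off hl0 hQ).self_of_nhds (Or.inl hd)
      rw [mul_smul_comm, mul_smul_comm, ← mul_assoc, (key l hlQ hd).1, sub_mul, one_mul,
        smul_mul_assoc, smul_sub, smul_smul, inv_mul_cancel₀ hll, one_smul, smul_sub, smul_smul,
        smul_eq_mul]
  have pt2 : ∀ l, l ∉ K.Q → (dbar K.chi l • (l - l0)⁻¹ • (resolvent (T Phi) l * N)) * A =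
      dbar K.chi l • (resolvent (T Phi) l * N) - (dbar K.chi l • (l - l0)⁻¹) • N := by
    intro l hlQ
    by_cases hd : dbar K.chi l = 0
    · rw [hd]
      simp
    · have hll : l - l0 ≠ 0 := by
        intro h
        rw [sub_eq_zero.1 h] at hd
        exact (K.V_off hl0 hQ).self_of_nhds (Or.inl hd)
      rw [smul_mul_assoc, smul_mul_assoc, mul_assoc, hNA, ← mul_assoc, (key l hlQ hd).2, sub_mul,
        one_mul, smul_mul_assoc, smul_sub, smul_smul, inv_mul_cancel₀ hll, one_smul, smul_sub,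
        smul_smul, smul_eq_mul]
  have hI3 : Integrable fun l => (dbar K.chi l • (l - l0)⁻¹) • N := c3.1.smul_const N
  have fin : ∫ l, (dbar K.chi l • (resolvent (T Phi) l * N) - (dbar K.chi l • (l - l0)⁻¹) • N) =
      (Real.pi * K.chi l0 : ℂ) • N + ∫ l, dbar K.chi l • (resolvent (T Phi) l * N) := by
    rw [integral_sub c2.1 hI3, integral_smul_const, hs, neg_smul]
    abel
  refine ⟨∫ l, dbar K.chi l • (l - l0)⁻¹ • (resolvent (T Phi) l * N), ?_, ?_⟩
  · rw [← integral_const_mul_of_integrable c1.1, ← fin]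
    refine integral_congr_ae ?_
    filter_upwards [ae_notMem K.Q] with l hl using pt1 l hl
  · rw [← integral_mul_const_of_integrable c1.1, ← fin]
    refine integral_congr_ae ?_
    filter_upwards [ae_notMem K.Q] with l hl using pt2 l hl

/-- If the limit operator is trivial near `l0` then `l0` is not in the spectrum. -/
theorem false_of_eq {phi : ℂ → ℂ} (hphi : AnalyticOnNhd ℂ phi (sphere 0 1)) {Phi : CT}
    (hPhi : ∀ x, Phi x = phi (e x)) {U1 U2 : Set ℂ} (K : CutS phi U1 U2) {l0 : ℂ}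
    (hl0 : l0 ∈ Sg phi) (hQ : l0 ∉ K.Q) {c : ℂ} (hc : c ≠ 0)
    (h : (Real.pi * K.chi l0 : ℂ) • Nq Phi K.Q +
      ∫ l, dbar K.chi l • (resolvent (T Phi) l * Nq Phi K.Q) = c • Nq Phi K.Q) : False := by
  obtain ⟨V, h1, h2⟩ := exists_V hphi hPhi K hl0 hQ
  rw [h] at h1 h2
  obtain ⟨A, hA⟩ : ∃ A : Hardy →L[ℂ] Hardy, A = T Phi - l0 • (1 : Hardy →L[ℂ] Hardy) := ⟨_, rfl⟩
  have hcop : IsCoprime (Polynomial.X - Polynomial.C l0)
      (∏ q ∈ K.Q, (Polynomial.X - Polynomial.C q) ^ 2) := by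
    refine IsCoprime.prod_right fun q hq => IsCoprime.pow_right ?_
    exact Polynomial.isCoprime_X_sub_C_of_isUnit_sub
      (isUnit_iff_ne_zero.2 (sub_ne_zero.2 fun h3 => hQ (h3 ▸ hq)))
  obtain ⟨a, b, hab⟩ := hcop
  have h3 := congrArg (Polynomial.aeval (T Phi)) hab
  rw [map_add, map_mul, map_mul, map_one, map_sub, Polynomial.aeval_X, Polynomial.aeval_C,
    Algebra.algebraMap_eq_smul_one, ← hA] at h3
  have h4 : Polynomial.aeval (T Phi) a * A + Polynomial.aeval (T Phi) b * Nq Phi K.Q = 1 := h3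
  have hTA : T Phi * A = A * T Phi := by
    rw [hA, mul_sub, sub_mul, mul_smul_comm, smul_mul_assoc, mul_one, one_mul]
  have hca : A * Polynomial.aeval (T Phi) a = Polynomial.aeval (T Phi) a * A :=
    comm_aeval hTA.symm _
  have hcb : A * Polynomial.aeval (T Phi) b = Polynomial.aeval (T Phi) b * A :=
    comm_aeval hTA.symm _
  rw [← hA] at h1 h2
  have hN1 : Nq Phi K.Q = c⁻¹ • (A * V) := by rw [h1, smul_smul, inv_mul_cancel₀ hc, one_smul]
  have hN2 : Nq Phi K.Q = c⁻¹ • (V * A) := by rw [h2, smul_smul, inv_mul_cancel₀ hc, one_smul]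
  have r1 : A * (Polynomial.aeval (T Phi) a + c⁻¹ • (Polynomial.aeval (T Phi) b * V)) = 1 := by
    rw [mul_add, hca, mul_smul_comm, ← mul_assoc, hcb, mul_assoc, ← mul_smul_comm, ← hN1, h4]
  have hbV : Nq Phi K.Q * Polynomial.aeval (T Phi) b =
      Polynomial.aeval (T Phi) b * Nq Phi K.Q := by
    unfold Nq
    rw [← map_mul, ← map_mul, mul_comm]
  have r2 : (Polynomial.aeval (T Phi) a + c⁻¹ • (Polynomial.aeval (T Phi) b * V)) * A = 1 := by
    rw [add_mul, smul_mul_assoc, mul_assoc, ← mul_smul_comm, ← hN2, h4]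
  refine Sg_not_unit hphi hPhi hl0 ?_
  rw [← hA]
  exact ⟨⟨A, _, r1, r2⟩, rfl⟩

end Pool.Agent.TBirS
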