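import Pool.Agent.TBirS.CutL

/-!
# The cutoff function

As Pool/Agent/TBir/Cutx.lean, for the spectrum `Sg phi`, two disjoint open sets `U1`, `U2` covering
`Sg phi` off a finite set `Q` of points with local data.
-/

set_option autoImplicit false

open MeasureTheory Complex Set Filter Topology Metric AddCircle
open scoped ComplexConjugate InnerProductSpace ENNReal
open Pool.Lib (dbar)

namespace Pool.Agent.TBirS

open Pool.Agent.TBir

/-- The cutoff function. -/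
structure CutS (phi : ℂ → ℂ) (U1 U2 : Set ℂ) where
  Q : Finset ℂ
  chi : ℂ → ℂ
  D : ∀ q ∈ Q, LS phi q
  rho : ℝ
  c : ℝ
  C : ℝ
  rho_pos : 0 < rho
  c_pos : 0 < c
  rho_le : ∀ q, ∀ hq : q ∈ Q, rho ≤ (D q hq).r
  norm_le : ∀ l, ‖chi l‖ ≤ 1
  smooth : ContDiffOn ℝ 1 chi ((Q : Set ℂ)ᶜ)
  cpt : HasCompactSupport chi
  one : ∀ l ∈ Sg phi, l ∈ U1 → l ∉ Q → ∀ᶠ l' in 𝓝 l, chi l' = 1
  zero : ∀ l ∈ Sg phi, l ∈ U2 → l ∉ Q → ∀ᶠ l' in 𝓝 l, chi l' = 0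
  cov : ∀ l ∈ Sg phi, l ∉ Q → l ∈ U1 ∨ l ∈ U2
  grad : ∀ q, q ∈ Q → ∀ l ∈ ball q rho, l ≠ q → ‖dbar chi l‖ ≤ C / ‖l - q‖
  loc : ∀ q, ∀ hq : q ∈ Q, ∀ l ∈ ball q rho, l ≠ q → (dbar chi l ≠ 0 ∨ (chi l ≠ 0 ∧ chi l ≠ 1)) →
    (‖(D q hq).z1 l‖ ≤ 1 - c * ‖l - q‖ ∧ 1 + c * ‖l - q‖ ≤ ‖(D q hq).z2 l‖) ∨
    (‖(D q hq).z2 l‖ ≤ 1 - c * ‖l - q‖ ∧ 1 + c * ‖l - q‖ ≤ ‖(D q hq).z1 l‖)

theorem isOpen_compl_Sg {phi : ℂ → ℂ} (hana : AnalyticOnNhd ℂ phi (sphere 0 1)) :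
    IsOpen (Sg phi)ᶜ := by
  rw [isOpen_iff_mem_nhds]
  intro l hl
  have h1 : l ∉ J phi ∧ wd phi l = 0 := by
    unfold Sg at hl
    simpa using hl
  filter_upwards [wd_loc hana h1.1] with l' hl'
  intro h
  rcases h with h | h
  · exact hl'.1 h
  · exact h (hl'.2.trans h1.2)

theorem isCompact_Sg {phi : ℂ → ℂ} (hana : AnalyticOnNhd ℂ phi (sphere 0 1)) :
    IsCompact (Sg phi) := by
  refine Metric.isCompact_of_isClosed_isBounded ⟨isOpen_compl_Sg hana⟩ ?_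
  obtain ⟨R, hR⟩ := wd_large hana
  refine (Metric.isBounded_closedBall (x := (0 : ℂ)) (r := R)).subset fun l hl => ?_
  rw [mem_closedBall, dist_zero_right]
  by_contra h
  have h1 := hR l (not_le.1 h)
  rcases hl with h2 | h2
  · exact h1.1 h2
  · exact h2 h1.2

theorem off_Sg {phi : ℂ → ℂ} {l : ℂ} (h : l ∉ Sg phi) : l ∉ J phi ∧ wd phi l = 0 := by
  unfold Sg at h
  simpa using h

private theorem cutx_smooth {A B : Set ℂ} (hA : IsCompact A) (hB : IsClosed B)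
    (hAB : Disjoint A B) : ∃ g : ℂ → ℝ, ContDiff ℝ 1 g ∧ HasCompactSupport g ∧
      (∀ l, 0 ≤ g l ∧ g l ≤ 1) ∧ (∀ l ∈ A, ∀ᶠ l' in 𝓝 l, g l' = 1) ∧
      (∀ l ∈ B, ∀ᶠ l' in 𝓝 l, g l' = 0) := by
  obtain ⟨L, hL, hAL, hLB⟩ := exists_compact_between hA hB.isOpen_compl
    (subset_compl_iff_disjoint_right.2 hAB)
  obtain ⟨f, f1, f0, hf⟩ := exists_contMDiffMap_one_nhds_of_subset_interior
    (modelWithCornersSelf ℝ ℂ) (n := 1) hA.isClosed hAL
  refine ⟨f, f.contMDiff.contDiff, HasCompactSupport.intro hL f0, fun l => hf l, ?_, ?_⟩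
  · intro l hl
    exact (eventually_nhdsSet_iff_forall.1 f1) l hl
  · intro l hl
    have : Lᶜ ∈ 𝓝 l := hL.isClosed.isOpen_compl.mem_nhds (fun h => hLB h hl)
    filter_upwards [this] with l' hl'
    exact f0 l' hl'

theorem exists_cutS {phi : ℂ → ℂ} (hana : AnalyticOnNhd ℂ phi (sphere 0 1)) {Q : Set ℂ}
    (hQf : Q.Finite) (hD : ∀ q ∈ Q, Nonempty (LS phi q)) {U1 U2 : Set ℂ} (o1 : IsOpen U1)
    (o2 : IsOpen U2) (hdis : Disjoint U1 U2) (hcov : Sg phi \ Q ⊆ U1 ∪ U2) :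
    ∃ K : CutS phi U1 U2, (K.Q : Set ℂ) = Q := by
  let D : ∀ q ∈ Q, LS phi q := fun q hq => (hD q hq).some
  obtain ⟨Qf, hQfe⟩ : ∃ Qf : Finset ℂ, Qf = hQf.toFinset := ⟨_, rfl⟩
  have hQ : ∀ {q : ℂ}, q ∈ Qf ↔ q ∈ Q := fun {q} => by
    rw [hQfe, Set.Finite.mem_toFinset]
  have hex2 : ∀ q : ℂ, ∃ (f : ℂ → ℂ) (R c C : ℝ), ∀ hq : q ∈ Q, (0 < R ∧ 0 < c ∧
      R ≤ (D q hq).r ∧ ContDiffOn ℝ 1 f {q}ᶜ ∧
      (∀ l, ∃ t : ℝ, 0 ≤ t ∧ t ≤ 1 ∧ f l = t) ∧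
      (∀ l, l ≠ q → ‖dbar f l‖ ≤ C / ‖l - q‖) ∧
      (∀ l ∈ ball q R, l ≠ q → (dbar f l ≠ 0 ∨ (f l ≠ 0 ∧ f l ≠ 1)) →
        (‖(D q hq).z1 l‖ ≤ 1 - c * ‖l - q‖ ∧ 1 + c * ‖l - q‖ ≤ ‖(D q hq).z2 l‖) ∨
        (‖(D q hq).z2 l‖ ≤ 1 - c * ‖l - q‖ ∧ 1 + c * ‖l - q‖ ≤ ‖(D q hq).z1 l‖)) ∧
      (∀ l ∈ ball q R, l ≠ q → l ∈ Sg phi → l ∈ U1 → ∀ᶠ l' in 𝓝 l, f l' = 1) ∧
      (∀ l ∈ ball q R, l ≠ q → l ∈ Sg phi → l ∈ U2 → ∀ᶠ l' in 𝓝 l, f l' = 0)) := by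
    intro q
    by_cases hq : q ∈ Q
    · obtain ⟨f, R, c, C, h⟩ := cut_loc hana (D q hq) hQf o1 o2 hdis hcov
      exact ⟨f, R, c, C, fun _ => h⟩
    · exact ⟨0, 0, 0, 0, fun h => absurd h hq⟩
  choose f Rq cq Cq hF using hex2
  -- the radius
  obtain ⟨R, ⟨hR1, hR2⟩, hR0⟩ : ∃ R : ℝ, ((∀ q ∈ Qf, 4 * R < Rq q) ∧
      (∀ q ∈ Qf, ∀ q' ∈ Qf, q ≠ q' → 8 * R < dist q q')) ∧ 0 < R := by
    have ev : ∀ a : ℝ, ∀ b : ℝ, 0 < b → ∀ᶠ R : ℝ in 𝓝[>] 0, a * R < b := by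
      intro a b hb
      have : Tendsto (fun R : ℝ => a * R) (𝓝[>] 0) (𝓝 0) := by
        have h : Tendsto (fun R : ℝ => a * R) (𝓝 0) (𝓝 (a * 0)) :=
          (continuous_const.mul continuous_id).tendsto 0
        rw [mul_zero] at h
        exact h.mono_left nhdsWithin_le_nhds
      exact this.eventually (gt_mem_nhds hb)
    have A1 : ∀ᶠ R : ℝ in 𝓝[>] 0, ∀ q ∈ Qf, 4 * R < Rq q :=
      (eventually_all_finset Qf).2 fun q hq => ev 4 _ (hF q (hQ.1 hq)).1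
    have A2 : ∀ᶠ R : ℝ in 𝓝[>] 0, ∀ q ∈ Qf, ∀ q' ∈ Qf, q ≠ q' → 8 * R < dist q q' := by
      refine (eventually_all_finset Qf).2 fun q hq => (eventually_all_finset Qf).2 fun q' hq' => ?_
      by_cases h : q = q'
      · exact Eventually.of_forall fun _ h' => absurd h h'
      · filter_upwards [ev 8 _ (dist_pos.2 h)] with R hR _ using hR
    have A3 : ∀ᶠ R : ℝ in 𝓝[>] 0, (0 : ℝ) < R := self_mem_nhdsWithin
    exact ((A1.and A2).and A3).exists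
  obtain ⟨c, hc1, hc0⟩ : ∃ c : ℝ, (∀ q ∈ Qf, c < cq q) ∧ 0 < c := by
    have A1 : ∀ᶠ c : ℝ in 𝓝[>] 0, ∀ q ∈ Qf, c < cq q :=
      (eventually_all_finset Qf).2 fun q hq =>
        nhdsWithin_le_nhds (gt_mem_nhds (hF q (hQ.1 hq)).2.1)
    have A3 : ∀ᶠ c : ℝ in 𝓝[>] 0, (0 : ℝ) < c := self_mem_nhdsWithin
    exact (A1.and A3).exists
  obtain ⟨C, hC1⟩ : ∃ C : ℝ, ∀ q ∈ Qf, Cq q ≤ C :=
    ((eventually_all_finset Qf).2 fun q _ => eventually_ge_atTop (Cq q)).exists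
  -- the far cutoff
  set U : Set ℂ := ⋃ q ∈ Qf, ball q R with hU
  have hUo : IsOpen U := isOpen_biUnion fun q _ => isOpen_ball
  have hSU : IsCompact (Sg phi \ U) := (isCompact_Sg hana).diff hUo
  have hSU' : ∀ l ∈ Sg phi \ U, l ∈ U1 ∨ l ∈ U2 := by
    rintro l ⟨h1, h2⟩
    exact hcov ⟨h1, fun h3 => h2 (mem_iUnion₂.2 ⟨l, hQ.2 h3, mem_ball_self hR0⟩)⟩
  obtain ⟨g, gsm, gcs, gI, g1, g0⟩ := cutx_smooth (A := (Sg phi \ U) \ U2) (B := (Sg phi \ U) \ U1)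
    (hSU.diff o2) (hSU.diff o1).isClosed (by
      rw [Set.disjoint_left]
      rintro l ⟨h1, h2⟩ ⟨-, h4⟩
      rcases hSU' l h1 with h | h
      · exact h4 h
      · exact h2 h)
  -- the bumps
  let eta : ∀ q : ℂ, ContDiffBump q := fun q =>
    { rIn := 2 * R, rOut := 3 * R, rIn_pos := by positivity, rIn_lt_rOut := by linarith }
  have eta1 : ∀ q l : ℂ, dist l q ≤ 2 * R → eta q l = 1 := fun q l h =>
    (eta q).one_of_mem_closedBall (mem_closedBall.2 h)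
  have eta0 : ∀ q l : ℂ, 3 * R ≤ dist l q → eta q l = 0 := fun q l h =>
    (eta q).zero_of_le_dist h
  set chi : ℂ → ℂ := fun l => ∑ q ∈ Qf, ((eta q l : ℝ) : ℂ) * f q l +
    (1 - ∑ q ∈ Qf, ((eta q l : ℝ) : ℂ)) * ((g l : ℝ) : ℂ) with hchi
  have near : ∀ q ∈ Qf, ∀ l, dist l q < 4 * R → chi l = ((eta q l : ℝ) : ℂ) * f q l +
      (1 - ((eta q l : ℝ) : ℂ)) * ((g l : ℝ) : ℂ) := by
    intro q hq l hl
    have hz : ∀ q' ∈ Qf, q' ≠ q → eta q' l = 0 := by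
      intro q' hq' hne
      apply eta0
      have h1 := hR2 q' hq' q hq hne
      have h2 := dist_triangle_left q' q l
      linarith
    simp only [hchi]
    rw [Finset.sum_eq_single_of_mem q hq (fun q' hq' hne => by rw [hz q' hq' hne]; simp),
      Finset.sum_eq_single_of_mem q hq (fun q' hq' hne => by rw [hz q' hq' hne]; simp)]
  have far : ∀ l, (∀ q ∈ Qf, 3 * R ≤ dist l q) → chi l = ((g l : ℝ) : ℂ) := by
    intro l hl
    simp only [hchi]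
    rw [Finset.sum_eq_zero (fun q hq => by rw [eta0 q l (hl q hq)]; simp),
      Finset.sum_eq_zero (fun q hq => by rw [eta0 q l (hl q hq)]; simp)]
    simp
  have near1 : ∀ q ∈ Qf, ∀ l, dist l q ≤ 2 * R → chi l = f q l := by
    intro q hq l hl
    rw [near q hq l (by linarith), eta1 q l hl]
    simp
  have near1' : ∀ q ∈ Qf, ∀ l, dist l q < 2 * R → chi =ᶠ[𝓝 l] f q := by
    intro q hq l hl
    have : ball q (2 * R) ∈ 𝓝 l := isOpen_ball.mem_nhds hl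
    filter_upwards [this] with l' hl'
    exact near1 q hq l' (mem_ball.1 hl').le
  have hvalue : ∀ l, ∃ t : ℝ, 0 ≤ t ∧ t ≤ 1 ∧ chi l = t := by
    intro l
    by_cases h : ∃ q ∈ Qf, dist l q < 4 * R
    · obtain ⟨q, hq, hl⟩ := h
      obtain ⟨t, t0, t1, ht⟩ := (hF q (hQ.1 hq)).2.2.2.2.1 l
      have e0 := (eta q).nonneg (x := l)
      have e1 := (eta q).le_one (x := l)
      refine ⟨eta q l * t + (1 - eta q l) * g l, ?_, ?_, ?_⟩
      · have := gI l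
        have a1 := mul_nonneg e0 t0
        have a2 := mul_nonneg (sub_nonneg.2 e1) this.1
        linarith
      · have := gI l
        have a1 := mul_le_mul_of_nonneg_left t1 e0
        have a2 := mul_le_mul_of_nonneg_left this.2 (sub_nonneg.2 e1)
        linarith
      · rw [near q hq l hl, ht]
        push_cast
        ring
    · push Not at h
      exact ⟨g l, (gI l).1, (gI l).2, far l fun q hq => by linarith [h q hq]⟩
  have hU1 : ∀ q ∈ Qf, ∀ l, 2 * R ≤ dist l q → dist l q < 4 * R → l ∉ U := by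
    intro q hq l h1 h2 h3
    obtain ⟨q', hq', h4⟩ := mem_iUnion₂.1 h3
    have h4' := mem_ball.1 h4
    by_cases hne : q' = q
    · subst hne
      linarith
    · have h5 := hR2 q' hq' q hq hne
      have h6 := dist_triangle_left q' q l
      linarith
  have hU2 : ∀ l, (∀ q ∈ Qf, 4 * R ≤ dist l q) → l ∉ U := by
    intro l h h3
    obtain ⟨q', hq', h4⟩ := mem_iUnion₂.1 h3
    have h4' := mem_ball.1 h4
    have := h q' hq'
    linarith
  have hball4 : ∀ q ∈ Qf, ∀ l, dist l q < 4 * R → l ∈ ball q (Rq q) := fun q hq l hl =>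
    mem_ball.2 (hl.trans (hR1 q hq))
  -- common part of `neg` and `pos`
  have common : ∀ (v : ℝ) (l : ℂ), (∀ q ∈ Qf, dist l q < 4 * R → ∀ᶠ l' in 𝓝 l, f q l' = (v : ℂ)) →
      (l ∉ U → ∀ᶠ l' in 𝓝 l, g l' = v) → ∀ᶠ l' in 𝓝 l, chi l' = (v : ℂ) := by
    intro v l h1 h2
    by_cases h : ∃ q ∈ Qf, dist l q < 4 * R
    · obtain ⟨q, hq, hl⟩ := h
      by_cases hl2 : dist l q < 2 * R
      · filter_upwards [h1 q hq hl, near1' q hq l hl2] with l' a1 a2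
        rw [a2, a1]
      · have hlU := hU1 q hq l (not_lt.1 hl2) hl
        have : ball q (4 * R) ∈ 𝓝 l := isOpen_ball.mem_nhds hl
        filter_upwards [h1 q hq hl, h2 hlU, this] with l' a1 a2 a3
        rw [near q hq l' (mem_ball.1 a3), a1, a2]
        ring
    · push Not at h
      have hlU := hU2 l h
      have : ∀ᶠ l' in 𝓝 l, ∀ q ∈ Qf, 3 * R < dist l' q := by
        refine (eventually_all_finset Qf).2 fun q hq => ?_
        have hc : Tendsto (fun l' : ℂ => dist l' q) (𝓝 l) (𝓝 (dist l q)) :=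
          (continuous_id.dist continuous_const).tendsto l
        exact hc.eventually (lt_mem_nhds (by linarith [h q hq]))
      filter_upwards [h2 hlU, this] with l' a2 a3
      rw [far l' fun q hq => (a3 q hq).le, a2]
  have hdb : ∀ q ∈ Qf, ∀ l ∈ ball q R, dbar chi l = dbar (f q) l := by
    intro q hq l hl
    exact Pool.Lib.dbar_congr (near1' q hq l (by linarith [mem_ball.1 hl]))
  refine ⟨{
    Q := Qf
    chi := chi
    D := fun q hq => D q (hQ.1 hq)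
    rho := R
    c := c
    C := C
    rho_pos := hR0
    c_pos := hc0
    rho_le := ?_
    norm_le := ?_
    smooth := ?_
    cpt := ?_
    one := ?_
    zero := ?_
    cov := ?_
    grad := ?_
    loc := ?_ }, ?_⟩
  · intro q hq
    have h1 := hR1 q hq
    have h2 := (hF q (hQ.1 hq)).2.2.1
    linarith
  · intro l
    obtain ⟨t, t0, t1, ht⟩ := hvalue l
    rw [ht, Complex.norm_real, Real.norm_eq_abs, abs_of_nonneg t0]
    exact t1
  · have hof : ContDiff ℝ 1 (fun x : ℝ => (x : ℂ)) := Complex.ofRealCLM.contDiff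
    have he : ∀ q, ContDiff ℝ 1 (fun l => ((eta q l : ℝ) : ℂ)) := fun q =>
      hof.comp (eta q).contDiff
    have hg : ContDiff ℝ 1 (fun l => ((g l : ℝ) : ℂ)) := hof.comp gsm
    have hf : ∀ q ∈ Qf, ContDiffOn ℝ 1 (f q) ((Qf : Set ℂ)ᶜ) := by
      intro q hq
      refine ((hF q (hQ.1 hq)).2.2.2.1).mono ?_
      intro l hl h
      rw [mem_singleton_iff.1 h] at hl
      exact hl hq
    refine ContDiffOn.add (ContDiffOn.sum fun q hq => ?_) (ContDiff.contDiffOn ?_)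
    · exact (he q).contDiffOn.mul (hf q hq)
    · exact (contDiff_const.sub (ContDiff.sum fun q _ => he q)).mul hg
  · refine HasCompactSupport.intro (K := (⋃ q ∈ Qf, closedBall q (3 * R)) ∪ tsupport g) ?_ ?_
    · exact (Qf.finite_toSet.isCompact_biUnion fun q _ => isCompact_closedBall q _).union gcs
    · intro l hl
      rw [far l fun q hq => ?_, image_eq_zero_of_notMem_tsupport fun h => hl (Or.inr h)]
      · simp
      · by_contra h
        push Not at h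
        exact hl (Or.inl (mem_iUnion₂.2 ⟨q, hq, mem_closedBall.2 h.le⟩))
  · intro l hl hlU hlQ
    have := common 1 l (fun q hq h => ?_)
      (fun h => g1 l ⟨⟨hl, h⟩, fun h2 => Set.disjoint_left.1 hdis hlU h2⟩)
    · simpa using this
    · have h' := (hF q (hQ.1 hq)).2.2.2.2.2.2.2.1 l (hball4 q hq l h)
        (fun h2 => hlQ (h2 ▸ hq)) hl hlU
      simpa using h'
  · intro l hl hlU hlQ
    have := common 0 l (fun q hq h => ?_)
      (fun h => g0 l ⟨⟨hl, h⟩, fun h2 => Set.disjoint_left.1 hdis h2 hlU⟩)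
    · simpa using this
    · have h' := (hF q (hQ.1 hq)).2.2.2.2.2.2.2.2 l (hball4 q hq l h)
        (fun h2 => hlQ (h2 ▸ hq)) hl hlU
      simpa using h'
  · intro l hl hlQ
    exact hcov ⟨hl, fun h => hlQ (hQ.2 h)⟩
  · intro q hq l hl hlq
    rw [hdb q hq l hl]
    refine ((hF q (hQ.1 hq)).2.2.2.2.2.1 l hlq).trans ?_
    exact div_le_div_of_nonneg_right (hC1 q hq) (norm_nonneg _)
  · intro q hq l hl hlq hd
    rw [hdb q hq l hl, near1 q hq l (by linarith [mem_ball.1 hl])] at hd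
    have hl4 := hball4 q hq l (by linarith [mem_ball.1 hl])
    have hcc : c * ‖l - q‖ ≤ cq q * ‖l - q‖ :=
      mul_le_mul_of_nonneg_right (hc1 q hq).le (norm_nonneg _)
    rcases (hF q (hQ.1 hq)).2.2.2.2.2.2.1 l hl4 hlq hd with ⟨a, b⟩ | ⟨a, b⟩
    · exact Or.inl ⟨by linarith, by linarith⟩
    · exact Or.inr ⟨by linarith, by linarith⟩
  · ext q
    exact hQ

end Pool.Agent.TBirS
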