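import Pool.Agent.TBirS.ResB

/-!
# The resolvent times a polynomial in the operator is bounded where the cutoff varies
-/

set_option autoImplicit false

open MeasureTheory Complex Set Filter Topology Metric AddCircle
open scoped ComplexConjugate InnerProductSpace ENNReal
open Pool.Lib (dbar)

namespace Pool.Agent.TBirS

open Pool.Agent.TBir

/-- The operator `prod (T - q)^2`. -/
noncomputable def Nq (Phi : CT) (Q : Finset ℂ) : Hardy →L[ℂ] Hardy :=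
  Polynomial.aeval (T Phi) (∏ q ∈ Q, (Polynomial.X - Polynomial.C q) ^ 2)

/-- The set where the cutoff is not locally `0` or `1`. -/
def CutS.V {phi : ℂ → ℂ} {U1 U2 : Set ℂ} (K : CutS phi U1 U2) : Set ℂ :=
  {l | dbar K.chi l ≠ 0 ∨ (K.chi l ≠ 0 ∧ K.chi l ≠ 1)}

theorem comm_aeval {A B : Hardy →L[ℂ] Hardy} (h : B * A = A * B) (p : Polynomial ℂ) :
    B * Polynomial.aeval A p = Polynomial.aeval A p * B := by
  have hc : Commute B A := h
  induction p using Polynomial.induction_on' with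
  | add p q hp hq => rw [map_add, mul_add, add_mul, hp, hq]
  | monomial n a =>
    rw [Polynomial.aeval_monomial]
    have h1 : Commute B (algebraMap ℂ (Hardy →L[ℂ] Hardy) a) := (Algebra.commutes a B).symm
    exact (h1.mul_right (hc.pow_right n)).eq

theorem res_mul_sq {A : Hardy →L[ℂ] Hardy} {l q : ℂ} (h : l ∈ resolventSet ℂ A) :
    resolvent A l * (A - algebraMap ℂ (Hardy →L[ℂ] Hardy) q) ^ 2 =
      (l - q) ^ 2 • resolvent A l - (2 * (l - q)) • (1 : Hardy →L[ℂ] Hardy) +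
        (algebraMap ℂ (Hardy →L[ℂ] Hardy) l - A) := by
  have hu : IsUnit (algebraMap ℂ (Hardy →L[ℂ] Hardy) l - A) := h
  have h1 : resolvent A l * (algebraMap ℂ (Hardy →L[ℂ] Hardy) l - A) = 1 :=
    Ring.inverse_mul_cancel _ hu
  obtain ⟨E, hE⟩ : ∃ E, E = algebraMap ℂ (Hardy →L[ℂ] Hardy) l - A := ⟨_, rfl⟩
  obtain ⟨R, hR⟩ : ∃ R, R = resolvent A l := ⟨_, rfl⟩
  have h2 : A - algebraMap ℂ (Hardy →L[ℂ] Hardy) q = (l - q) • (1 : Hardy →L[ℂ] Hardy) - E := by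
    rw [hE, Algebra.algebraMap_eq_smul_one, Algebra.algebraMap_eq_smul_one, sub_smul]
    abel
  rw [← hE, ← hR] at h1
  rw [h2, ← hR, ← hE]
  have h3 : ((l - q) • (1 : Hardy →L[ℂ] Hardy) - E) ^ 2 =
      (l - q) ^ 2 • (1 : Hardy →L[ℂ] Hardy) - (2 * (l - q)) • E + E * E := by
    rw [sq, sub_mul, mul_sub, mul_sub, smul_mul_assoc, smul_mul_assoc, one_mul,
      one_mul, mul_smul_comm, mul_one, smul_smul, ← sq, two_mul, add_smul]
    abel
  rw [h3, mul_add, mul_sub, mul_smul_comm, mul_smul_comm, mul_one, h1, ← mul_assoc, h1, one_mul]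

theorem bound_loc {phi : ℂ → ℂ} (hphi : AnalyticOnNhd ℂ phi (sphere 0 1)) {Phi : CT}
    (hPhi : ∀ x, Phi x = phi (e x)) {U1 U2 : Set ℂ} (K : CutS phi U1 U2) {q : ℂ} (hq : q ∈ K.Q) :
    ∃ C : ℝ, ∀ᶠ l in 𝓝 q, l ≠ q → l ∈ K.V → l ∈ resolventSet ℂ (T Phi) ∧
      ‖resolvent (T Phi) l * Nq Phi K.Q‖ ≤ C := by
  obtain ⟨C1, s1, hC1, hs1, h1⟩ := res_loc hphi hPhi (K.D q hq) K.c_pos
  obtain ⟨C2, s2, hC2, hs2, h2⟩ := res_loc hphi hPhi (K.D q hq).swap K.c_pos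
  obtain ⟨p, hp⟩ : ∃ p : Polynomial ℂ, ∏ q ∈ K.Q, (Polynomial.X - Polynomial.C q) ^ 2 =
      (Polynomial.X - Polynomial.C q) ^ 2 * p :=
    ⟨_, (Finset.mul_prod_erase K.Q (fun q => (Polynomial.X - Polynomial.C q) ^ 2) hq).symm⟩
  have hN : Nq Phi K.Q = (T Phi - algebraMap ℂ (Hardy →L[ℂ] Hardy) q) ^ 2 *
      Polynomial.aeval (T Phi) p := by
    unfold Nq
    rw [hp, map_mul, map_pow, map_sub, Polynomial.aeval_X, Polynomial.aeval_C]
  have hone : ‖(1 : Hardy →L[ℂ] Hardy)‖ ≤ 1 := ContinuousLinearMap.norm_id_le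
  refine ⟨(max C1 C2 + 2 + (‖q‖ + 1 + ‖T Phi‖)) * ‖Polynomial.aeval (T Phi) p‖, ?_⟩
  have hs : 0 < min (min s1 s2) (min K.rho 1) :=
    lt_min (lt_min hs1 hs2) (lt_min K.rho_pos one_pos)
  filter_upwards [ball_mem_nhds q hs] with l hl hlq hV
  have hl1 : l ∈ ball q s1 := ball_subset_ball ((min_le_left _ _).trans (min_le_left _ _)) hl
  have hl2 : l ∈ ball q s2 := ball_subset_ball ((min_le_left _ _).trans (min_le_right _ _)) hl
  have hl3 : l ∈ ball q K.rho := ball_subset_ball ((min_le_right _ _).trans (min_le_left _ _)) hl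
  have hl4 : ‖l - q‖ < 1 := (mem_ball_iff_norm.1 hl).trans_le
    ((min_le_right _ _).trans (min_le_right _ _))
  have ht : 0 < ‖l - q‖ := norm_pos_iff.2 (sub_ne_zero.2 hlq)
  have hR : l ∈ resolventSet ℂ (T Phi) ∧ ‖resolvent (T Phi) l‖ ≤ max C1 C2 / ‖l - q‖ ^ 2 := by
    rcases K.loc q hq l hl3 hlq hV with ⟨a, b⟩ | ⟨a, b⟩
    · obtain ⟨x, y⟩ := h1 l hl1 hlq a b
      exact ⟨x, y.trans (div_le_div_of_nonneg_right (le_max_left _ _) (by positivity))⟩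
    · obtain ⟨x, y⟩ := h2 l hl2 hlq a b
      exact ⟨x, y.trans (div_le_div_of_nonneg_right (le_max_right _ _) (by positivity))⟩
  refine ⟨hR.1, ?_⟩
  rw [hN, ← mul_assoc]
  refine (norm_mul_le _ _).trans (mul_le_mul_of_nonneg_right ?_ (norm_nonneg _))
  rw [res_mul_sq hR.1]
  refine (norm_add_le _ _).trans (add_le_add ((norm_sub_le _ _).trans (add_le_add ?_ ?_)) ?_)
  · rw [norm_smul, norm_pow]
    calc ‖l - q‖ ^ 2 * ‖resolvent (T Phi) l‖ ≤ ‖l - q‖ ^ 2 * (max C1 C2 / ‖l - q‖ ^ 2) :=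
          mul_le_mul_of_nonneg_left hR.2 (by positivity)
      _ = max C1 C2 := by field_simp
  · rw [norm_smul, norm_mul]
    have : ‖(2 : ℂ)‖ = 2 := by simp
    rw [this]
    calc 2 * ‖l - q‖ * ‖(1 : Hardy →L[ℂ] Hardy)‖ ≤ 2 * ‖l - q‖ * 1 :=
          mul_le_mul_of_nonneg_left hone (by positivity)
      _ ≤ 2 := by linarith
  · refine (norm_sub_le _ _).trans (add_le_add ?_ le_rfl)
    rw [Algebra.algebraMap_eq_smul_one, norm_smul]
    have h5 : ‖l‖ ≤ ‖q‖ + 1 := by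
      have := norm_sub_norm_le l q
      linarith
    calc ‖l‖ * ‖(1 : Hardy →L[ℂ] Hardy)‖ ≤ (‖q‖ + 1) * 1 :=
          mul_le_mul h5 hone (norm_nonneg _) (by positivity)
      _ = ‖q‖ + 1 := mul_one _

theorem CutS.V_subset {phi : ℂ → ℂ} {U1 U2 : Set ℂ} (K : CutS phi U1 U2) :
    K.V ⊆ tsupport K.chi := by
  rintro l (h | ⟨h, -⟩)
  · exact Pool.Lib.tsupport_dbar_subset _ (subset_tsupport _ h)
  · exact subset_tsupport _ h

theorem CutS.V_off {phi : ℂ → ℂ} {U1 U2 : Set ℂ} (K : CutS phi U1 U2) {l : ℂ}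
    (hl : l ∈ Sg phi) (hQ : l ∉ K.Q) : ∀ᶠ l' in 𝓝 l, l' ∉ K.V := by
  have key : ∀ c : ℂ, (c = 0 ∨ c = 1) → (∀ᶠ l' in 𝓝 l, K.chi l' = c) →
      ∀ᶠ l' in 𝓝 l, l' ∉ K.V := by
    intro c hc01 hc
    filter_upwards [hc.eventually_nhds] with l' hl'
    have h1 : K.chi =ᶠ[𝓝 l'] fun _ => c := hl'
    rintro (h | ⟨h, h'⟩)
    · apply h
      rw [Pool.Lib.dbar_congr h1, Pool.Lib.dbar_eq_zero (differentiableAt_const _)]
    · rw [h1.self_of_nhds] at h h'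
      rcases hc01 with h2 | h2
      · exact h h2
      · exact h' h2
  rcases K.cov l hl hQ with h | h
  · exact key 1 (Or.inr rfl) (K.one l hl h hQ)
  · exact key 0 (Or.inl rfl) (K.zero l hl h hQ)

theorem bound_V {phi : ℂ → ℂ} (hphi : AnalyticOnNhd ℂ phi (sphere 0 1)) {Phi : CT}
    (hPhi : ∀ x, Phi x = phi (e x)) {U1 U2 : Set ℂ} (K : CutS phi U1 U2) :
    ∃ C : ℝ, ∀ l ∈ K.V, l ∉ K.Q → ‖resolvent (T Phi) l * Nq Phi K.Q‖ ≤ C := by
  have h : ∃ C : ℝ, ∀ l ∈ tsupport K.chi, l ∈ K.V → l ∉ K.Q →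
      ‖resolvent (T Phi) l * Nq Phi K.Q‖ ≤ C := by
    refine K.cpt.isCompact.induction_on (p := fun S => ∃ C : ℝ, ∀ l ∈ S, l ∈ K.V → l ∉ K.Q →
      ‖resolvent (T Phi) l * Nq Phi K.Q‖ ≤ C) ?_ ?_ ?_ ?_
    · exact ⟨0, fun l hl => absurd hl (notMem_empty l)⟩
    · rintro s t hst ⟨C, hC⟩
      exact ⟨C, fun l hl => hC l (hst hl)⟩
    · rintro s t ⟨C, hC⟩ ⟨C', hC'⟩
      refine ⟨max C C', fun l hl h1 h2 => ?_⟩
      rcases hl with hl | hl
      · exact (hC l hl h1 h2).trans (le_max_left _ _)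
      · exact (hC' l hl h1 h2).trans (le_max_right _ _)
    · intro x _
      by_cases hxQ : x ∈ K.Q
      · obtain ⟨C, hC⟩ := bound_loc hphi hPhi K hxQ
        refine ⟨_, mem_nhdsWithin_of_mem_nhds hC, C, fun l hl h1 h2 => ?_⟩
        exact (hl (fun h3 => h2 (h3 ▸ hxQ)) h1).2
      · by_cases hxS : x ∈ Sg phi
        · exact ⟨_, mem_nhdsWithin_of_mem_nhds (K.V_off hxS hxQ), 0, fun l hl h1 => absurd h1 hl⟩
        · have hr := PBd_rT hphi hPhi x hxS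
          have hc : ContinuousAt (fun l => ‖resolvent (T Phi) l * Nq Phi K.Q‖) x :=
            (((spectrum.hasDerivAt_resolvent_const_left hr).continuousAt).mul
              continuousAt_const).norm
          have h1 := hc.eventually (gt_mem_nhds (lt_add_one _))
          exact ⟨_, mem_nhdsWithin_of_mem_nhds h1, _, fun l hl _ _ => le_of_lt hl⟩
  obtain ⟨C, hC⟩ := h
  exact ⟨C, fun l hl => hC l (K.V_subset hl) hl⟩

end Pool.Agent.TBirS
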