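import Pool.Agent.TBirS.Ex

/-!
# The winding numbers near a double point

Local data `DB phi q` at a noncritical double point `q`, with no condition on the tangents, and the
winding number of `phi - l` for `l` near `q` in terms of the inner winding number at `q`.
-/

set_option autoImplicit false

open MeasureTheory Complex Set Filter Topology Metric AddCircle
open scoped ComplexConjugate InnerProductSpace ENNReal

namespace Pool.Agent.TBirS

open Pool.Agent.TBir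

/-- Local data at a double point. -/
structure DB (phi : ℂ → ℂ) (q : ℂ) where
  R : ℝ
  B : ℝ
  n : ℂ
  z1 : ℂ → ℂ
  z2 : ℂ → ℂ
  R_pos : 0 < R
  d1 : DifferentiableOn ℂ z1 (ball q R)
  d2 : DifferentiableOn ℂ z2 (ball q R)
  n1 : ‖z1 q‖ = 1
  n2 : ‖z2 q‖ = 1
  ne : ∀ l ∈ ball q R, z1 l ≠ z2 l
  s1 : ∀ l ∈ ball q R, phi (z1 l) = l
  s2 : ∀ l ∈ ball q R, phi (z2 l) = l
  i1 : ∀ l ∈ ball q R, ∀ᶠ w in 𝓝 (z1 l), z1 (phi w) = w
  i2 : ∀ l ∈ ball q R, ∀ᶠ w in 𝓝 (z2 l), z2 (phi w) = w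
  on : ∀ l ∈ ball q R, ∀ w ∈ sphere (0 : ℂ) 1, phi w = l → w = z1 l ∨ w = z2 l
  wdq : ∀ l ∈ ball q R, l ∉ J phi → wd phi l = n + (if ‖z1 l‖ < 1 then 1 else 0) +
    (if ‖z2 l‖ < 1 then 1 else 0)
  inn : ∀ᶠ r : ℝ in 𝓝[<] 1, (wind fun w => phi (r * w) - q) = n
  e1 : ∀ l ∈ ball q R, |‖z1 l‖ ^ 2 - 1 - 2 * ((z1 q * deriv phi (z1 q))⁻¹ * (l - q)).re| ≤
    B * ‖l - q‖ ^ 2
  e2 : ∀ l ∈ ball q R, |‖z2 l‖ ^ 2 - 1 - 2 * ((z2 q * deriv phi (z2 q))⁻¹ * (l - q)).re| ≤
    B * ‖l - q‖ ^ 2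

theorem one_ptB {phi : ℂ → ℂ} (hphi : AnalyticOnNhd ℂ phi (sphere 0 1)) {t : ℂ}
    (ht : t ∈ sphere (0 : ℂ) 1) (hd : deriv phi t ≠ 0)
    {s0 : ℝ} (hs0 : 0 < s0) : ∃ s r B : ℝ, ∃ z : ℂ → ℂ, 0 < s ∧ s ≤ s0 ∧ 0 < r ∧
      DifferentiableOn ℂ z (ball (phi t) r) ∧ z (phi t) = t ∧
      (∀ l ∈ ball (phi t) r, z l ∈ ball t s ∧ phi (z l) = l) ∧
      (∀ w ∈ ball t s, phi w ∈ ball (phi t) r → z (phi w) = w) ∧
      DifferentiableOn ℂ phi (ball t s) ∧
      ∀ l ∈ ball (phi t) r,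
        |‖z l‖ ^ 2 - 1 - 2 * ((t * deriv phi t)⁻¹ * (l - phi t)).re| ≤ B * ‖l - phi t‖ ^ 2 := by
  have ht1 : ‖t‖ = 1 := by simpa using ht
  have ht0 : t ≠ 0 := by
    intro h
    rw [h, norm_zero] at ht1
    exact zero_ne_one ht1
  obtain ⟨s, r, z, hs, hss, hr, hp, hz, hz0, hdz, h1, h2⟩ := loc_inv (hphi t ht) hd hs0
  obtain ⟨B, r', hr', hrr, hB⟩ := loc_exp hr hz hz0 ht1
  have hsub : ball (phi t) r' ⊆ ball (phi t) r := ball_subset_ball hrr
  refine ⟨s, r', B, z, hs, hss, hr', hz.mono hsub, hz0, fun l hl => h1 l (hsub hl),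
    fun w hw hw' => h2 w hw (hsub hw'), hp, fun l hl => ?_⟩
  have h3 := hB l hl
  rwa [hdz, ← Complex.inv_eq_conj ht1, ← mul_inv] at h3

theorem deriv_ne_of_inv {phi z : ℂ → ℂ} {l0 l : ℂ} {r : ℝ}
    (hz : DifferentiableOn ℂ z (ball l0 r)) (hphi : DifferentiableAt ℂ phi (z l))
    (hl : l ∈ ball l0 r) (heq : ∀ l ∈ ball l0 r, phi (z l) = l) :
    deriv phi (z l) ≠ 0 := by
  have h1 := hphi.hasDerivAt
  have h2 := (hz.differentiableAt (isOpen_ball.mem_nhds hl)).hasDerivAt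
  have h3 := h1.comp l h2
  have h4 : HasDerivAt (phi ∘ z) 1 l := by
    refine (hasDerivAt_id l).congr_of_eventuallyEq ?_
    filter_upwards [isOpen_ball.mem_nhds hl] with l' hl'
    exact heq l' hl'
  have h5 := h3.unique h4
  intro h0
  rw [h0, zero_mul] at h5
  exact zero_ne_one h5

/-- Dilations in an annulus without zeros do not change the winding number. -/
theorem dil_const {d : ℝ} (hd : 0 < d) (hd1 : d < 1) {g : ℂ → ℂ}
    (hg : DifferentiableOn ℂ g (ann d)) (h0 : ∀ w ∈ ann d, g w ≠ 0) {r : ℝ} (hr : 1 - d < r)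
    (hr1 : r ≤ 1) : (wind fun w => g (r * w)) = wind g := by
  have hmem : ∀ s ∈ Ioo (1 - d) (1 + d), ∀ z ∈ sphere (0 : ℂ) 1, (s : ℂ) * z ∈ ann d := by
    intro s hs z hz
    rw [mem_sphere_zero_iff_norm] at hz
    have : ‖(s : ℂ) * z‖ = s := by
      rw [norm_mul, hz, mul_one, Complex.norm_real, Real.norm_eq_abs,
        abs_of_pos (by linarith [hs.1])]
    exact ⟨by rw [this]; exact hs.1, by rw [this]; exact hs.2⟩
  have hana : ∀ s ∈ Ioo (1 - d) (1 + d), AnalyticOnNhd ℂ (fun w => g (s * w)) (sphere 0 1) := by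
    intro s hs z hz
    exact AnalyticAt.fun_comp (hg.analyticOnNhd (isOpen_ann d) _ (hmem s hs z hz))
      (analyticAt_const.mul analyticAt_id)
  have hloc : ∀ s ∈ Ioo (1 - d) (1 + d), ∀ᶠ s' : ℝ in 𝓝 s,
      (wind fun w => g (s' * w)) = wind fun w => g (s * w) := by
    intro s hs
    have hs0 : 0 < s := by linarith [hs.1]
    have h1 := (Pool.Agent.TBirG.wind_dil (hana s hs) fun z hz => h0 _ (hmem s hs z hz))
    have h2 : Tendsto (fun s' : ℝ => s' / s) (𝓝 s) (𝓝 1) := by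
      have h3 : Tendsto (fun s' : ℝ => s' / s) (𝓝 s) (𝓝 (s / s)) :=
        (continuous_id.div_const s).tendsto s
      rwa [div_self hs0.ne'] at h3
    filter_upwards [h2.eventually h1] with s' hs'
    have h4 : (fun w => g ((s' : ℂ) * w)) = fun w => g (s * (((s' / s : ℝ) : ℂ) * w)) := by
      funext w
      congr 1
      push_cast
      have : (s : ℂ) ≠ 0 := by exact_mod_cast hs0.ne'
      field_simp
    rw [h4]
    exact hs'.2.2
  have hder : ∀ s ∈ Ioo (1 - d) (1 + d),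
      HasDerivAt (fun s : ℝ => wind fun w => g (s * w)) 0 s := fun s hs =>
    (hasDerivAt_const s _).congr_of_eventuallyEq (hloc s hs)
  have h5 := isOpen_Ioo.is_const_of_deriv_eq_zero isPreconnected_Ioo
    (fun s hs => (hder s hs).differentiableAt.differentiableWithinAt)
    (fun s hs => (hder s hs).deriv) (show r ∈ Ioo (1 - d) (1 + d) from ⟨hr, by linarith⟩)
    (show (1 : ℝ) ∈ Ioo (1 - d) (1 + d) from ⟨by linarith, by linarith⟩)
  simp only [Complex.ofReal_one, one_mul] at h5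
  exact h5

/-- The winding numbers on the circle and on a smaller circle from a factorization. -/
theorem fac_wind {phi g : ℂ → ℂ} {d : ℝ} (hd : 0 < d) (hd1 : d < 1) {l a b : ℂ}
    (hg : DifferentiableOn ℂ g (ann d)) (h0 : ∀ w ∈ ann d, g w ≠ 0)
    (fac : ∀ w ∈ ann d, phi w - l = g w * ((w - a) * (w - b))) {r : ℝ} (hr : 1 - d < r)
    (hr1 : r ≤ 1) (ha : ‖a‖ ≠ r) (hb : ‖b‖ ≠ r) :
    (wind fun w => phi (r * w) - l) = wind g + (if ‖a‖ < r then 1 else 0) +
      (if ‖b‖ < r then 1 else 0) := by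
  have hr0 : 0 < r := by linarith
  have hn : ∀ z ∈ sphere (0 : ℂ) 1, ‖(r : ℂ) * z‖ = r := by
    intro z hz
    rw [mem_sphere_zero_iff_norm] at hz
    rw [norm_mul, hz, mul_one, Complex.norm_real, Real.norm_eq_abs, abs_of_pos hr0]
  have hmem : ∀ z ∈ sphere (0 : ℂ) 1, (r : ℂ) * z ∈ ann d := by
    intro z hz
    refine ⟨?_, ?_⟩ <;> rw [hn z hz] <;> linarith
  have hga : AnalyticOnNhd ℂ (fun w => g (r * w)) (sphere 0 1) := fun z hz =>
    AnalyticAt.fun_comp (hg.analyticOnNhd (isOpen_ann d) _ (hmem z hz))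
      (analyticAt_const.mul analyticAt_id)
  have e1 : (wind fun w => phi (r * w) - l) =
      wind fun w => g (r * w) * ((r * w - a) * (r * w - b)) := by
    refine wind_congr fun z hz => ?_
    have hc : Continuous fun w : ℂ => (r : ℂ) * w := by fun_prop
    filter_upwards [hc.continuousAt.preimage_mem_nhds
      ((isOpen_ann d).mem_nhds (hmem z hz))] with w hw
    exact fac _ hw
  have hlin : ∀ c : ℂ, AnalyticOnNhd ℂ (fun w : ℂ => (r : ℂ) * w - c) (sphere 0 1) := fun c z _ =>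
    (analyticAt_const.mul analyticAt_id).sub analyticAt_const
  have hne : ∀ c : ℂ, ‖c‖ ≠ r → ∀ z ∈ sphere (0 : ℂ) 1, (r : ℂ) * z - c ≠ 0 := by
    intro c hc z hz h
    have := hn z hz
    rw [sub_eq_zero.1 h] at this
    exact hc this
  have e2 : (wind fun w => g (r * w) * ((r * w - a) * (r * w - b))) =
      (wind fun w => g (r * w)) + wind fun w => (r * w - a) * (r * w - b) :=
    wind_mul hga ((hlin a).mul (hlin b)) (fun z hz => h0 _ (hmem z hz))
      fun z hz => mul_ne_zero (hne a ha z hz) (hne b hb z hz)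
  have e3 : (wind fun w => ((r : ℂ) * w - a) * (r * w - b)) =
      (wind fun w => (r : ℂ) * w - a) + wind fun w => (r : ℂ) * w - b :=
    wind_mul (hlin a) (hlin b) (hne a ha) (hne b hb)
  rw [e1, e2, e3, dil_const hd hd1 hg h0 hr hr1, Pool.Agent.TBirG.wind_lin hr0 ha,
    Pool.Agent.TBirG.wind_lin hr0 hb, add_assoc]

theorem exists_DB {phi : ℂ → ℂ} (hphi : AnalyticOnNhd ℂ phi (sphere 0 1)) {q t1 t2 : ℂ}
    (ht1 : t1 ∈ sphere (0 : ℂ) 1) (ht2 : t2 ∈ sphere (0 : ℂ) 1) (hne : t1 ≠ t2)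
    (hl0 : phi t1 = q) (hl2 : phi t2 = q)
    (hex : ∀ z ∈ sphere (0 : ℂ) 1, phi z = q → z = t1 ∨ z = t2)
    (d1' : deriv phi t1 ≠ 0) (d2' : deriv phi t2 ≠ 0) :
    ∃ D : DB phi q, D.z1 q = t1 ∧ D.z2 q = t2 := by
  have ht1n : ‖t1‖ = 1 := by simpa using ht1
  have ht2n : ‖t2‖ = 1 := by simpa using ht2
  have hs0 : 0 < dist t1 t2 / 2 := half_pos (dist_pos.2 hne)
  obtain ⟨s1, r1, B1, z1, hs1, hss1, hr1, hz1, hz10, a1, b1, p1, c1⟩ := one_ptB hphi ht1 d1' hs0
  obtain ⟨s2, r2, B2, z2, hs2, hss2, hr2, hz2, hz20, a2, b2, p2, c2⟩ := one_ptB hphi ht2 d2' hs0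
  rw [hl0] at hz1 hz10 a1 b1 c1
  rw [hl2] at hz2 hz20 a2 b2 c2
  have hdisj : Disjoint (ball t1 s1) (ball t2 s2) := ball_disjoint_ball (by linarith)
  obtain ⟨d, r3, M, hd, hd1, hr3, hdphi, hfar, -⟩ := far hphi q
    ((isOpen_ball (x := t1) (ε := s1)).union (isOpen_ball (x := t2) (ε := s2)))
    (fun t ht htq => by
      rcases hex t ht htq with rfl | rfl
      · exact Or.inl (mem_ball_self hs1)
      · exact Or.inr (mem_ball_self hs2))
  -- the fixed smaller circle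
  obtain ⟨r, hr⟩ : ∃ r : ℝ, r = 1 - d / 2 := ⟨_, rfl⟩
  have hrd : 1 - d < r := by linarith
  have hr1' : r < 1 := by linarith
  have hr0 : 0 < r := by linarith
  -- preimages in the annulus
  have hA : ∀ w ∈ ann d, ∀ l ∈ ball q r1, l ∈ ball q r2 → l ∈ ball q r3 → phi w = l →
      w = z1 l ∨ w = z2 l := by
    intro w hw l h1 h2 h3 hwl
    have hU : w ∈ ball t1 s1 ∪ ball t2 s2 := by
      by_contra hno
      have h4 := hfar w hw hno
      rw [hwl] at h4
      rw [mem_ball_iff_norm] at h3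
      linarith
    rcases hU with hU | hU
    · left
      rw [← b1 w hU (by rw [hwl]; exact h1), hwl]
    · right
      rw [← b2 w hU (by rw [hwl]; exact h2), hwl]
  have hzc1 : ContinuousAt z1 q := (hz1.differentiableAt (ball_mem_nhds _ hr1)).continuousAt
  have hzc2 : ContinuousAt z2 q := (hz2.differentiableAt (ball_mem_nhds _ hr2)).continuousAt
  have hann : ∀ {t : ℂ}, ‖t‖ = 1 → ann (d / 2) ∈ 𝓝 t := fun {t} ht =>
    (isOpen_ann _).mem_nhds ⟨by rw [ht]; linarith, by rw [ht]; linarith⟩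
  have E1 : ∀ᶠ l in 𝓝 q, z1 l ∈ ann (d / 2) := hzc1.preimage_mem_nhds (by rw [hz10]; exact hann ht1n)
  have E2 : ∀ᶠ l in 𝓝 q, z2 l ∈ ann (d / 2) := hzc2.preimage_mem_nhds (by rw [hz20]; exact hann ht2n)
  have hmem : ∀ z ∈ sphere (0 : ℂ) 1, ‖(r : ℂ) * z‖ = r := by
    intro z hz
    rw [mem_sphere_zero_iff_norm] at hz
    rw [norm_mul, hz, mul_one, Complex.norm_real, Real.norm_eq_abs, abs_of_pos hr0]
  have hra : ∀ z ∈ sphere (0 : ℂ) 1, (r : ℂ) * z ∈ ann d := by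
    intro z hz
    refine ⟨?_, ?_⟩ <;> rw [hmem z hz] <;> linarith
  have hcr : ContinuousOn (fun w => phi (r * w)) (sphere 0 1) :=
    hdphi.continuousOn.comp (by fun_prop) hra
  have hrq : ∀ z ∈ sphere (0 : ℂ) 1, phi (r * z) ≠ q := by
    intro z hz h
    rcases hA _ (hra z hz) q (mem_ball_self hr1) (mem_ball_self hr2) (mem_ball_self hr3) h
      with h1 | h1
    · have := hmem z hz
      rw [h1, hz10, ht1n] at this
      linarith
    · have := hmem z hz
      rw [h1, hz20, ht2n] at this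
      linarith
  obtain ⟨m, hm, hmin⟩ : ∃ m : ℝ, 0 < m ∧ ∀ z ∈ sphere (0 : ℂ) 1, m ≤ ‖phi (r * z) - q‖ := by
    obtain ⟨z0, hz0, hmin⟩ := (isCompact_sphere (0 : ℂ) 1).exists_isMinOn
      ⟨1, by simp⟩ ((hcr.sub continuousOn_const).norm (f := fun w => phi (r * w) - q))
    exact ⟨_, norm_pos_iff.2 (sub_ne_zero.2 (hrq z0 hz0)), fun z hz => hmin hz⟩
  have E3 : ∀ᶠ l in 𝓝 q, l ∈ ball q r1 := ball_mem_nhds q hr1
  have E4 : ∀ᶠ l in 𝓝 q, l ∈ ball q r2 := ball_mem_nhds q hr2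
  have E5 : ∀ᶠ l in 𝓝 q, l ∈ ball q r3 := ball_mem_nhds q hr3
  have E6 : ∀ᶠ l in 𝓝 q, l ∈ ball q m := ball_mem_nhds q hm
  obtain ⟨R, hR, hRs⟩ := Metric.eventually_nhds_iff_ball.1
    (((E1.and E2).and (E3.and E4)).and (E5.and E6))
  have f1 : ∀ l ∈ ball q R, z1 l ∈ ann (d / 2) := fun l hl => (hRs l hl).1.1.1
  have f2 : ∀ l ∈ ball q R, z2 l ∈ ann (d / 2) := fun l hl => (hRs l hl).1.1.2
  have f3 : ball q R ⊆ ball q r1 := fun l hl => (hRs l hl).1.2.1
  have f4 : ball q R ⊆ ball q r2 := fun l hl => (hRs l hl).1.2.2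
  have f5 : ball q R ⊆ ball q r3 := fun l hl => (hRs l hl).2.1
  have f6 : ball q R ⊆ ball q m := fun l hl => (hRs l hl).2.2
  have hhalf : ann (d / 2) ⊆ ann d := fun w hw => ⟨by linarith [hw.1], by linarith [hw.2]⟩
  have hzne : ∀ l ∈ ball q R, z1 l ≠ z2 l := by
    intro l hl heq
    have h3 := (a1 l (f3 hl)).1
    have h4 := (a2 l (f4 hl)).1
    rw [heq] at h3
    exact Set.disjoint_left.1 hdisj h3 h4
  have hder : ∀ a l, deriv (fun w => phi w - l) a = deriv phi a := fun a l => deriv_sub_const l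
  -- the quotient
  have hquo : ∀ l ∈ ball q R, ∃ g : ℂ → ℂ, DifferentiableOn ℂ g (ann d) ∧
      (∀ w ∈ ann d, phi w - l = g w * ((w - z1 l) * (w - z2 l))) ∧ ∀ w ∈ ann d, g w ≠ 0 := by
    intro l hl
    obtain ⟨g, hg1, hg2, hg3, hg4⟩ := quot (f := fun w => phi w - l)
      (hdphi.sub (differentiableOn_const l)) (hzne l hl)
      (Or.inr (by show phi (z1 l) - l = 0; rw [(a1 l (f3 hl)).2, sub_self]))
      (Or.inr (by show phi (z2 l) - l = 0; rw [(a2 l (f4 hl)).2, sub_self]))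
    refine ⟨g, hg1, hg2, fun w hw hgw => ?_⟩
    have hwl : phi w = l := by
      have h3 := hg2 w hw
      rw [hgw, zero_mul, sub_eq_zero] at h3
      exact h3
    rcases hA w hw l (f3 hl) (f4 hl) (f5 hl) hwl with h | h
    · have h3 := hg3 (hhalf (f1 l hl))
      rw [← h, hgw, hder, h] at h3
      rcases div_eq_zero_iff.1 h3.symm with h5 | h5
      · exact deriv_ne_of_inv hz1 (hdphi.differentiableAt
          ((isOpen_ann d).mem_nhds (hhalf (f1 l hl)))) (f3 hl) (fun l hl => (a1 l hl).2) h5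
      · exact hzne l hl (sub_eq_zero.1 h5)
    · have h3 := hg4 (hhalf (f2 l hl))
      rw [← h, hgw, hder, h] at h3
      rcases div_eq_zero_iff.1 h3.symm with h5 | h5
      · exact deriv_ne_of_inv hz2 (hdphi.differentiableAt
          ((isOpen_ann d).mem_nhds (hhalf (f2 l hl)))) (f4 hl) (fun l hl => (a2 l hl).2) h5
      · exact hzne l hl (sub_eq_zero.1 h5).symm
  have hlt : ∀ {w : ℂ}, w ∈ ann (d / 2) → r < ‖w‖ := fun {w} hw => by
    have := hw.1
    linarith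
  -- the winding number on the smaller circle
  have hsm : ∀ l ∈ ball q R, (wind fun w => phi (r * w) - l) = wind fun w => phi (r * w) - q := by
    intro l hl
    have han : ∀ c : ℂ, AnalyticOnNhd ℂ (fun w => phi (r * w) - c) (sphere 0 1) := fun c z hz =>
      (AnalyticAt.fun_comp (hdphi.analyticOnNhd (isOpen_ann d) _ (hra z hz))
        (analyticAt_const.mul analyticAt_id)).sub analyticAt_const
    refine wind_near (han l) (han q) fun z hz => ?_
    have h1 : phi (r * z) - l - (phi (r * z) - q) = q - l := by ring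
    rw [h1, norm_sub_rev]
    have h2 := f6 hl
    rw [mem_ball_iff_norm] at h2
    exact h2.trans_le (hmin z hz)
  refine ⟨{
    R := R
    B := max B1 B2
    n := wind fun w => phi (r * w) - q
    z1 := z1
    z2 := z2
    R_pos := hR
    d1 := hz1.mono f3
    d2 := hz2.mono f4
    n1 := by rw [hz10, ht1n]
    n2 := by rw [hz20, ht2n]
    ne := hzne
    s1 := fun l hl => (a1 l (f3 hl)).2
    s2 := fun l hl => (a2 l (f4 hl)).2
    i1 := ?_
    i2 := ?_
    on := ?_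
    wdq := ?_
    inn := ?_
    e1 := ?_
    e2 := ?_ }, hz10, hz20⟩
  · intro l hl
    have h1 := (a1 l (f3 hl)).1
    have h2 : ContinuousAt phi (z1 l) := (p1.differentiableAt (isOpen_ball.mem_nhds h1)).continuousAt
    have h3 : ball q r1 ∈ 𝓝 (phi (z1 l)) := isOpen_ball.mem_nhds (by
      rw [(a1 l (f3 hl)).2]
      exact f3 hl)
    filter_upwards [isOpen_ball.mem_nhds h1, h2 h3] with w hw hw'
    exact b1 w hw hw'
  · intro l hl
    have h1 := (a2 l (f4 hl)).1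
    have h2 : ContinuousAt phi (z2 l) := (p2.differentiableAt (isOpen_ball.mem_nhds h1)).continuousAt
    have h3 : ball q r2 ∈ 𝓝 (phi (z2 l)) := isOpen_ball.mem_nhds (by
      rw [(a2 l (f4 hl)).2]
      exact f4 hl)
    filter_upwards [isOpen_ball.mem_nhds h1, h2 h3] with w hw hw'
    exact b2 w hw hw'
  · intro l hl w hw hwl
    refine hA w ?_ l (f3 hl) (f4 hl) (f5 hl) hwl
    rw [mem_sphere_zero_iff_norm] at hw
    exact ⟨by rw [hw]; linarith, by rw [hw]; linarith⟩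
  · intro l hl hJ
    obtain ⟨g, g1, g2, g3⟩ := hquo l hl
    have n1 : ‖z1 l‖ ≠ 1 := fun h => hJ ⟨z1 l, by simpa using h, (a1 l (f3 hl)).2⟩
    have n2 : ‖z2 l‖ ≠ 1 := fun h => hJ ⟨z2 l, by simpa using h, (a2 l (f4 hl)).2⟩
    have k1 := fac_wind hd hd1 g1 g3 g2 hrd hr1'.le (hlt (f1 l hl)).ne' (hlt (f2 l hl)).ne'
    have k2 := fac_wind (r := 1) hd hd1 g1 g3 g2 (by linarith) le_rfl n1 n2
    rw [if_neg (not_lt.2 (hlt (f1 l hl)).le), if_neg (not_lt.2 (hlt (f2 l hl)).le), add_zero,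
      add_zero, hsm l hl] at k1
    rw [← k1] at k2
    simp only [Complex.ofReal_one, one_mul] at k2
    exact k2
  · obtain ⟨g, g1, g2, g3⟩ := hquo q (mem_ball_self hR)
    have h1 : ∀ᶠ s : ℝ in 𝓝[<] 1, s < 1 := self_mem_nhdsWithin
    have h2 : ∀ᶠ s : ℝ in 𝓝[<] 1, 1 - d < s := nhdsWithin_le_nhds (Ioi_mem_nhds (by linarith))
    have key : ∀ s : ℝ, 1 - d < s → s < 1 → (wind fun w => phi (s * w) - q) = wind g := by
      intro s hs hs1
      have k1 := fac_wind (r := s) hd hd1 g1 g3 g2 hs hs1.le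
        (by rw [hz10, ht1n]; exact hs1.ne') (by rw [hz20, ht2n]; exact hs1.ne')
      rw [if_neg (by rw [hz10, ht1n]; exact hs1.not_gt), if_neg (by rw [hz20, ht2n]; exact hs1.not_gt),
        add_zero, add_zero] at k1
      exact k1
    filter_upwards [h1, h2] with s hs hs'
    rw [key s hs' hs, key r hrd hr1']
  · intro l hl
    rw [hz10]
    exact (c1 l (f3 hl)).trans (mul_le_mul_of_nonneg_right (le_max_left _ _) (by positivity))
  · intro l hl
    rw [hz20]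
    exact (c2 l (f4 hl)).trans (mul_le_mul_of_nonneg_right (le_max_right _ _) (by positivity))

end Pool.Agent.TBirS
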