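import Pool.Agent.TBirS.MkLS

/-!
# Passable double points
-/

set_option autoImplicit false

open MeasureTheory Complex Set Filter Topology Metric AddCircle
open scoped ComplexConjugate InnerProductSpace ENNReal

namespace Pool.Agent.TBirS

open Pool.Agent.TBir

/-- A passable point: a value taken by `phi` at exactly two points of the circle, with nonzero
derivatives and with tangent numbers `z * phi'(z)` that are not positive multiples of each other, and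
inner winding number `-1`. -/
def Pass (phi : ℂ → ℂ) (q : ℂ) : Prop :=
  ∃ z1 ∈ sphere (0 : ℂ) 1, ∃ z2 ∈ sphere (0 : ℂ) 1, z1 ≠ z2 ∧ phi z1 = q ∧ phi z2 = q ∧
    (∀ z ∈ sphere (0 : ℂ) 1, phi z = q → z = z1 ∨ z = z2) ∧
    deriv phi z1 ≠ 0 ∧ deriv phi z2 ≠ 0 ∧
    (∀ a : ℝ, 0 < a → z2 * deriv phi z2 ≠ a * (z1 * deriv phi z1)) ∧
    ∀ᶠ r : ℝ in 𝓝[<] 1, (wind fun w => phi (r * w) - q) = -1

private theorem one_pt' {phi : ℂ → ℂ} (hphi : AnalyticOnNhd ℂ phi (sphere 0 1)) {t : ℂ}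
    (ht : t ∈ sphere (0 : ℂ) 1) (hd : deriv phi t ≠ 0)
    {s0 : ℝ} (hs0 : 0 < s0) : ∃ s r B : ℝ, ∃ z : ℂ → ℂ, 0 < s ∧ s ≤ s0 ∧ 0 < r ∧
      DifferentiableOn ℂ z (ball (phi t) r) ∧ z (phi t) = t ∧
      (∀ l ∈ ball (phi t) r, z l ∈ ball t s ∧ phi (z l) = l) ∧
      (∀ w ∈ ball t s, phi w ∈ ball (phi t) r → z (phi w) = w) ∧
      ((t * deriv phi t)⁻¹ ≠ 0 ∧ ∀ l ∈ ball (phi t) r,
        |‖z l‖ ^ 2 - 1 - 2 * ((t * deriv phi t)⁻¹ * (l - phi t)).re| ≤ B * ‖l - phi t‖ ^ 2) := by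
  have ht1 : ‖t‖ = 1 := by simpa using ht
  have ht0 : t ≠ 0 := by
    intro h
    rw [h, norm_zero] at ht1
    exact zero_ne_one ht1
  obtain ⟨s, r, z, hs, hss, hr, -, hz, hz0, hdz, h1, h2⟩ := loc_inv (hphi t ht) hd hs0
  obtain ⟨B, r', hr', hrr, hB⟩ := loc_exp hr hz hz0 ht1
  have hsub : ball (phi t) r' ⊆ ball (phi t) r := ball_subset_ball hrr
  refine ⟨s, r', B, z, hs, hss, hr', hz.mono hsub, hz0, fun l hl => h1 l (hsub hl),
    fun w hw hw' => h2 w hw (hsub hw'), inv_ne_zero (mul_ne_zero ht0 hd), fun l hl => ?_⟩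
  have h3 := hB l hl
  rwa [hdz, ← Complex.inv_eq_conj ht1, ← mul_inv] at h3

theorem exists_LS {phi : ℂ → ℂ} (hphi : AnalyticOnNhd ℂ phi (sphere 0 1)) {q : ℂ}
    (h : Pass phi q) : Nonempty (LS phi q) := by
  obtain ⟨t1, ht1, t2, ht2, hne, hl0, hl2, hex, d1', d2', hopp, hin⟩ := h
  have ht1n : ‖t1‖ = 1 := by simpa using ht1
  have ht2n : ‖t2‖ = 1 := by simpa using ht2
  have hs0 : 0 < dist t1 t2 / 2 := half_pos (dist_pos.2 hne)
  obtain ⟨s1, r1, B1, z1, hs1, hss1, hr1, hz1, hz10, a1, b1, c1, d1⟩ := one_pt' hphi ht1 d1' hs0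
  obtain ⟨s2, r2, B2, z2, hs2, hss2, hr2, hz2, hz20, a2, b2, c2, d2⟩ := one_pt' hphi ht2 d2' hs0
  rw [hl0] at hz1 hz10 a1 b1 d1
  rw [hl2] at hz2 hz20 a2 b2 d2
  have i1 : ball q (min r1 r2) ⊆ ball q r1 := ball_subset_ball (min_le_left _ _)
  have i2 : ball q (min r1 r2) ⊆ ball q r2 := ball_subset_ball (min_le_right _ _)
  refine mkLS (B := max B1 B2) (r0 := min r1 r2) (z1 := z1) (z2 := z2) (U1 := ball t1 s1)
    (U2 := ball t2 s2) (k1 := (t1 * deriv phi t1)⁻¹) (k2 := (t2 * deriv phi t2)⁻¹)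
    hphi (lt_min hr1 hr2) isOpen_ball isOpen_ball
    (ball_disjoint_ball (by linarith)) (hz1.mono i1) (hz2.mono i2)
    ⟨by rw [hz10, ht1n], fun l hl => a1 l (i1 hl)⟩
    ⟨by rw [hz20, ht2n], fun l hl => a2 l (i2 hl)⟩
    (fun w hw hw' => b1 w hw (i1 hw')) (fun w hw hw' => b2 w hw (i2 hw'))
    ⟨c1, fun l hl => (d1 l (i1 hl)).trans
      (mul_le_mul_of_nonneg_right (le_max_left _ _) (by positivity))⟩
    ⟨c2, fun l hl => (d2 l (i2 hl)).trans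
      (mul_le_mul_of_nonneg_right (le_max_right _ _) (by positivity))⟩
    ?_ ?_ hin
  · intro a ha h
    apply hopp a⁻¹ (inv_pos.2 ha)
    have ha' : (a : ℂ) ≠ 0 := by exact_mod_cast ha.ne'
    have h3 := congrArg (fun x : ℂ => x⁻¹) h
    simp only [inv_inv, mul_inv] at h3
    rw [h3]
    push_cast
    rfl
  · intro t ht htl
    rcases hex t ht htl with h | h
    · exact Or.inl (h ▸ mem_ball_self hs1)
    · exact Or.inr (h ▸ mem_ball_self hs2)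

end Pool.Agent.TBirS
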