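import Pool.Agent.TBirS.EigB

/-!
# The square of the truncated functional calculus

Write `w = K.w n`, `P = K.P Phi n`, `R l = resolvent (T Phi) l`.

(1) Fubini: let `a`, `b : ℂ → ℂ` be continuous with compact support. The function
`(l, l') ↦ a l * b l' / (l' - l)` is integrable on `ℂ × ℂ`, so
`∫ a l * (∫ b l' / (l' - l) dl') dl = ∫ b l' * (∫ a l / (l' - l) dl) dl'`.

(2) Fix `f`, `g` and put `h l = inner g (R l f)`. `w` and `w * h` are continuous with compact support.
For `w l ≠ 0`, `inner g (R l (P f)) = -pi⁻¹ * ∫ w l' * inner g (R l (R l' f)) dl'`, and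
for `w l' ≠ 0`, `l' ≠ l`: `R l (R l' f) = (l' - l)⁻¹ • (R l f - R l' f)`. So
`inner g (R l (P f)) = -pi⁻¹ * (h l * ∫ w l' / (l' - l) dl' - ∫ w l' h l' / (l' - l) dl')`.
The double integral is evaluated by (1) with `a = w`, `b = w h`.
-/

set_option autoImplicit false

open MeasureTheory Complex Set Filter Topology Metric AddCircle
open scoped ComplexConjugate InnerProductSpace ENNReal
open Pool.Lib (dbar)

namespace Pool.Agent.TBirS

open Pool.Agent.TBir

/-- The integral of the norm of the Cauchy kernel against a continuous function with compact support. -/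
private theorem bound_div {b : ℂ → ℂ} (hb : Continuous b) (hbc : HasCompactSupport b) :
    ∃ C : ℝ, 0 ≤ C ∧ ∀ l, ∫ l', ‖b l' / (l' - l)‖ ≤ C := by
  obtain ⟨B, hB⟩ := hbc.exists_bound_of_continuous hb
  have hB0 : 0 ≤ B := (norm_nonneg _).trans (hB 0)
  obtain ⟨R, hR, hsub⟩ : ∃ R, 0 < R ∧ tsupport b ⊆ closedBall (0 : ℂ) R := by
    obtain ⟨R, hR⟩ := hbc.isCompact.isBounded.subset_closedBall 0
    exact ⟨max R 1, by positivity, hR.trans (closedBall_subset_closedBall (le_max_left _ _))⟩
  refine ⟨B * (6 * Real.pi * R), by positivity, fun l => ?_⟩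
  have h1 : ∀ l', ‖b l' / (l' - l)‖ₑ ≤ (closedBall (0 : ℂ) R).indicator
      (fun l' => ENNReal.ofReal B * ENNReal.ofReal (1 / ‖l' - l‖)) l' := by
    intro l'
    by_cases hl : l' ∈ closedBall (0 : ℂ) R
    · rw [Set.indicator_of_mem hl, ← ofReal_norm, norm_div, div_eq_mul_one_div,
        ENNReal.ofReal_mul (norm_nonneg _)]
      gcongr
      exact hB l'
    · have h2 : b l' = 0 := image_eq_zero_of_notMem_tsupport fun h => hl (hsub h)
      rw [Set.indicator_of_notMem hl, h2, zero_div, enorm_zero]
  rw [integral_norm_eq_lintegral_enorm (integrable_div hb hbc l).aestronglyMeasurable]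
  refine ENNReal.toReal_le_of_le_ofReal (by positivity) ?_
  calc ∫⁻ l', ‖b l' / (l' - l)‖ₑ
      ≤ ∫⁻ l', (closedBall (0 : ℂ) R).indicator
        (fun l' => ENNReal.ofReal B * ENNReal.ofReal (1 / ‖l' - l‖)) l' := lintegral_mono h1
    _ = ENNReal.ofReal B * ∫⁻ l' in closedBall (0 : ℂ) R, ENNReal.ofReal (1 / ‖l' - l‖) := by
      rw [lintegral_indicator measurableSet_closedBall, lintegral_const_mul']
      exact ENNReal.ofReal_ne_top
    _ ≤ ENNReal.ofReal B * ENNReal.ofReal (6 * Real.pi * R) := by
      gcongr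
      exact lintegral_inv_ball_le 0 l hR
    _ = ENNReal.ofReal (B * (6 * Real.pi * R)) := (ENNReal.ofReal_mul hB0).symm

private theorem fub_int {a b : ℂ → ℂ} (ha : Continuous a) (hac : HasCompactSupport a)
    (hb : Continuous b) (hbc : HasCompactSupport b) :
    Integrable (fun p : ℂ × ℂ => a p.1 * (b p.2 / (p.2 - p.1))) (volume.prod volume) := by
  obtain ⟨C, hC, h⟩ := bound_div hb hbc
  have hm : AEStronglyMeasurable (fun p : ℂ × ℂ => a p.1 * (b p.2 / (p.2 - p.1)))
      (volume.prod volume) :=
    ((ha.measurable.comp measurable_fst).mul ((hb.measurable.comp measurable_snd).div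
      (measurable_snd.sub measurable_fst))).aestronglyMeasurable
  rw [integrable_prod_iff hm]
  refine ⟨Eventually.of_forall fun l => (integrable_div hb hbc l).const_mul (a l), ?_⟩
  have h2 : Integrable fun l => ‖a l‖ * C :=
    (ha.integrable_of_hasCompactSupport hac).norm.mul_const C
  refine h2.mono' hm.norm.integral_prod_right' (Eventually.of_forall fun l => ?_)
  have h3 : ∀ l', ‖a l * (b l' / (l' - l))‖ = ‖a l‖ * ‖b l' / (l' - l)‖ := fun l' => norm_mul _ _
  simp only [h3]
  rw [integral_const_mul, Real.norm_eq_abs, abs_mul, abs_norm,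
    abs_of_nonneg (integral_nonneg fun _ => norm_nonneg _)]
  exact mul_le_mul_of_nonneg_left (h l) (norm_nonneg _)

private theorem fub {a b : ℂ → ℂ} (ha : Continuous a) (hac : HasCompactSupport a)
    (hb : Continuous b) (hbc : HasCompactSupport b) :
    Integrable (fun l => a l * ∫ l', b l' / (l' - l)) ∧
      ∫ l, a l * (∫ l', b l' / (l' - l)) = -∫ l', b l' * ∫ l, a l / (l - l') := by
  have h := fub_int ha hac hb hbc
  refine ⟨?_, ?_⟩
  · refine h.integral_prod_left.congr (Eventually.of_forall fun l => ?_)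
    change ∫ l', a l * (b l' / (l' - l)) = a l * ∫ l', b l' / (l' - l)
    exact integral_const_mul _ _
  · have h1 : ∀ l, a l * (∫ l', b l' / (l' - l)) = ∫ l', a l * (b l' / (l' - l)) := fun l =>
      (integral_const_mul _ _).symm
    have h2 : ∀ l', b l' * (∫ l, a l / (l - l')) = -∫ l, a l * (b l' / (l' - l)) := by
      intro l'
      rw [← integral_const_mul, ← integral_neg]
      refine integral_congr_ae (Eventually.of_forall fun l => ?_)
      change b l' * (a l / (l - l')) = -(a l * (b l' / (l' - l)))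
      rw [← neg_sub l' l, div_neg]
      ring
    simp only [h1, h2]
    rw [integral_neg, neg_neg]
    exact integral_integral_swap h

private theorem inner_P {phi : ℂ → ℂ} (hphi : AnalyticOnNhd ℂ phi (sphere 0 1)) {Phi : CT}
    (hPhi : ∀ x, Phi x = phi (e x)) {U1 U2 : Set ℂ} (K : CutS phi U1 U2) (n : ℕ) (f g : Hardy) :
    inner ℂ g (K.P Phi n f) =
      -(Real.pi : ℂ)⁻¹ * ∫ l : ℂ, K.w n l * inner ℂ g (resolvent (T Phi) l f) := by
  have h5 := ((innerSL ℂ g).comp (ContinuousLinearMap.apply ℂ Hardy f)).integral_comp_comm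
    (K.integrable_res hphi hPhi n)
  have h6 : ((innerSL ℂ g).comp (ContinuousLinearMap.apply ℂ Hardy f))
      (∫ l : ℂ, K.w n l • resolvent (T Phi) l) =
      inner ℂ g ((∫ l : ℂ, K.w n l • resolvent (T Phi) l) f) := rfl
  have h7 : ∀ l, ((innerSL ℂ g).comp (ContinuousLinearMap.apply ℂ Hardy f))
      (K.w n l • resolvent (T Phi) l) = K.w n l * inner ℂ g (resolvent (T Phi) l f) := by
    intro l
    rw [map_smul]
    rfl
  rw [h6] at h5
  simp only [h7] at h5
  rw [h5]
  change inner ℂ g ((-(Real.pi : ℂ)⁻¹ • ∫ l : ℂ, K.w n l • resolvent (T Phi) l) f) = _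
  rw [_root_.smul_apply, inner_smul_right]

theorem P_sq {phi : ℂ → ℂ} (hphi : AnalyticOnNhd ℂ phi (sphere 0 1)) {Phi : CT}
    (hPhi : ∀ x, Phi x = phi (e x)) {U1 U2 : Set ℂ} (K : CutS phi U1 U2) (n : ℕ) (f g : Hardy) :
    inner ℂ g (K.P Phi n (K.P Phi n f)) =
      -(Real.pi : ℂ)⁻¹ * ∫ l : ℂ, K.w n l * (2 * K.s n l * inner ℂ g (resolvent (T Phi) l f)) := by
  have hpi : (Real.pi : ℂ) ≠ 0 := by exact_mod_cast Real.pi_ne_zero
  -- the functions `w` and `w * h`
  have cw := K.continuous_w n
  have sw := K.hasCompactSupport_w n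
  set w : ℂ → ℂ := K.w n with hw
  set wh : ℂ → ℂ := fun l => w l * inner ℂ g (resolvent (T Phi) l f) with hwh
  have cwh : Continuous wh := by
    have h1 := K.continuous_res hphi hPhi n
    have h2 : Continuous fun l => inner ℂ g ((K.w n l • resolvent (T Phi) l) f) :=
      continuous_const.inner (h1.clm_apply continuous_const)
    refine h2.congr fun l => ?_
    rw [_root_.smul_apply, inner_smul_right]
  have swh : HasCompactSupport wh := sw.mul_right
  obtain ⟨i1, e1⟩ := fub cw sw cwh swh
  obtain ⟨i2, -⟩ := fub cwh swh cw sw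
  -- the inner integral
  have h3 : ∀ l, w l ≠ 0 → inner ℂ g (resolvent (T Phi) l (K.P Phi n f)) =
      -(Real.pi : ℂ)⁻¹ * (inner ℂ g (resolvent (T Phi) l f) * (∫ l', w l' / (l' - l)) -
        ∫ l', wh l' / (l' - l)) := by
    intro l hl
    rw [← ContinuousLinearMap.adjoint_inner_left, inner_P hphi hPhi K n]
    congr 1
    rw [← integral_const_mul, ← integral_sub ((integrable_div cw sw l).const_mul _)
      (integrable_div cwh swh l)]
    have h4 : ∀ᵐ l' : ℂ, l' ≠ l := by
      rw [ae_iff]
      have : {a : ℂ | ¬a ≠ l} = {l} := by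
        ext x
        simp
      rw [this, measure_singleton]
    refine integral_congr_ae (h4.mono fun l' hl' => ?_)
    have hd : l' - l ≠ 0 := sub_ne_zero.2 hl'
    change K.w n l' * _ = inner ℂ g (resolvent (T Phi) l f) * (w l' / (l' - l)) - wh l' / (l' - l)
    rw [ContinuousLinearMap.adjoint_inner_left]
    by_cases hw' : w l' = 0
    · rw [hwh]
      change K.w n l' = 0 at hw'
      simp [hw, hw']
    · have a1 : (l' - l) • resolvent (T Phi) l (resolvent (T Phi) l' f) =
          resolvent (T Phi) l f - resolvent (T Phi) l' f := by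
        have b1 := EigB_right hphi hPhi K n hw' f
        have b2 := EigB_left hphi hPhi K n hl (resolvent (T Phi) l' f)
        have b3 := congrArg (fun y : Hardy => resolvent (T Phi) l y) b1
        rw [map_sub, map_smul] at b3 b2
        have b4 := congrArg₂ (fun x y : Hardy => x - y) b3 b2
        change _ = resolvent (T Phi) l f - resolvent (T Phi) l' f at b4
        rw [← b4, sub_smul]
        abel
      have a2 := congrArg (fun y : Hardy => inner ℂ g y) a1
      simp only [inner_smul_right, inner_sub_right] at a2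
      have a3 : inner ℂ g (resolvent (T Phi) l (resolvent (T Phi) l' f)) =
          (inner ℂ g (resolvent (T Phi) l f) - inner ℂ g (resolvent (T Phi) l' f)) / (l' - l) := by
        rw [eq_div_iff hd, ← a2]
        ring
      rw [a3, hwh]
      change w l' * _ = _
      field_simp
  rw [inner_P hphi hPhi K n]
  congr 1
  have h5 : ∀ l, K.w n l * inner ℂ g (resolvent (T Phi) l (K.P Phi n f)) =
      -(Real.pi : ℂ)⁻¹ * (wh l * (∫ l', w l' / (l' - l)) - w l * ∫ l', wh l' / (l' - l)) := by
    intro l
    by_cases hl : w l = 0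
    · rw [hwh]
      change K.w n l = 0 at hl
      simp [hw, hl]
    · rw [h3 l hl, hwh]
      change w l * _ = _
      ring
  have h6 : ∀ l, w l * (2 * K.s n l * inner ℂ g (resolvent (T Phi) l f)) =
      -(Real.pi : ℂ)⁻¹ * 2 * (wh l * ∫ l', w l' / (l' - l)) := by
    intro l
    have : K.s n l = -(Real.pi : ℂ)⁻¹ * ∫ l', w l' / (l' - l) := rfl
    rw [this, hwh]
    ring
  simp only [h5, h6]
  rw [integral_const_mul, integral_const_mul, integral_sub i2 i1, e1]
  ring

end Pool.Agent.TBirS
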