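import Pool.Agent.TBirS.BkA
import Pool.Agent.TBirS.Main
import Pool.Agent.TBirG.Rng

/-!
# Arcs which are traced twice, in opposite directions

If the winding numbers off the curve vanish near a noncritical double point, then near this point the
curve is an arc traced twice, in opposite directions, all points of the arc are passable, and the
operator is not completely irreducible.
-/

set_option autoImplicit false

open MeasureTheory Complex Set Filter Topology Metric AddCircle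
open scoped ComplexConjugate InnerProductSpace ENNReal

namespace Pool.Agent.TBirS

open Pool.Agent.TBir

/-- The winding numbers off the curve vanish near `q`. -/
def Zer (phi : ℂ → ℂ) (q : ℂ) : Prop := ∀ᶠ l in 𝓝 q, l ∉ J phi → wd phi l = 0

theorem freq_in {t : ℂ} (ht : ‖t‖ = 1) : ∃ᶠ w in 𝓝 t, ‖w‖ < 1 := by
  rw [Filter.frequently_iff]
  intro U hU
  obtain ⟨eps, heps, hs⟩ := Metric.mem_nhds_iff.1 hU
  obtain ⟨z, hz, hz1⟩ := Pool.Agent.TBirG.tendsto_in ht heps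
  exact ⟨z, hs hz, hz1⟩

theorem freq_out {t : ℂ} (ht : ‖t‖ = 1) : ∃ᶠ w in 𝓝 t, 1 < ‖w‖ := by
  rw [Filter.frequently_iff]
  intro U hU
  obtain ⟨eps, heps, hs⟩ := Metric.mem_nhds_iff.1 hU
  obtain ⟨z, hz, hz1⟩ := Pool.Agent.TBirG.tendsto_out ht heps
  exact ⟨z, hs hz, hz1⟩

/-- Exchange of the two preimages. -/
noncomputable def DB.swap {phi : ℂ → ℂ} {q : ℂ} (D : DB phi q) : DB phi q where
  R := D.R
  B := D.B
  n := D.n
  z1 := D.z2
  z2 := D.z1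
  R_pos := D.R_pos
  d1 := D.d2
  d2 := D.d1
  n1 := D.n2
  n2 := D.n1
  ne := fun l hl h => D.ne l hl h.symm
  s1 := D.s2
  s2 := D.s1
  i1 := D.i2
  i2 := D.i1
  on := fun l hl w hw h => (D.on l hl w hw h).symm
  wdq := fun l hl h => by rw [D.wdq l hl h]; ring
  inn := D.inn
  e1 := D.e2
  e2 := D.e1

section

variable {phi : ℂ → ℂ} (hphi : AnalyticOnNhd ℂ phi (sphere 0 1)) {q : ℂ} (D : DB phi q)

include hphi D

theorem DB.tendsto {l : ℂ} (hl : l ∈ ball q D.R) (h : ‖D.z1 l‖ = 1) :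
    Tendsto phi (𝓝 (D.z1 l)) (𝓝 l) := by
  have h1 : ContinuousAt phi (D.z1 l) := (hphi _ (by simpa using h)).continuousAt
  have h2 := h1.tendsto
  rwa [D.s1 l hl] at h2

theorem DB.freq1 {l : ℂ} (hl : l ∈ ball q D.R) (h : ‖D.z1 l‖ = 1) :
    (∃ᶠ l' in 𝓝 l, ‖D.z1 l'‖ < 1) ∧ ∃ᶠ l' in 𝓝 l, 1 < ‖D.z1 l'‖ := by
  have ht := D.tendsto hphi hl h
  refine ⟨ht.frequently ?_, ht.frequently ?_⟩
  · refine (freq_in h).mp ((D.i1 l hl).mono fun w hw h1 => ?_)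
    rwa [hw]
  · refine (freq_out h).mp ((D.i1 l hl).mono fun w hw h1 => ?_)
    rwa [hw]

omit hphi in
theorem DB.cont1 {l : ℂ} (hl : l ∈ ball q D.R) : ContinuousAt (fun l => ‖D.z1 l‖) l :=
  (D.d1.differentiableAt (isOpen_ball.mem_nhds hl)).continuousAt.norm

omit hphi in
theorem DB.off {l : ℂ} (hl : l ∈ ball q D.R) (h1 : ‖D.z1 l‖ ≠ 1) (h2 : ‖D.z2 l‖ ≠ 1) :
    l ∉ J phi := by
  rintro ⟨w, hw, hwl⟩
  have hw' : ‖w‖ = 1 := by simpa using hw
  rcases D.on l hl w hw hwl with h | h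
  · exact h1 (by rw [← h, hw'])
  · exact h2 (by rw [← h, hw'])

theorem DB.n_eq (hZ : Zer phi q) : D.n = -1 := by
  have hq : q ∈ ball q D.R := mem_ball_self D.R_pos
  have hball : ∀ᶠ l in 𝓝 q, l ∈ ball q D.R := isOpen_ball.mem_nhds hq
  obtain ⟨f1, f2⟩ := D.freq1 hphi hq D.n1
  have hd : Dense (J phi)ᶜ := Pool.Agent.TBirG.dense_J hphi
  have key : ∀ p : ℂ → Prop, (∃ᶠ l in 𝓝 q, p l) → (∀ l ∈ ball q D.R, p l → ∀ᶠ l' in 𝓝 l, p l') →
      ∃ l ∈ ball q D.R, p l ∧ l ∉ J phi ∧ wd phi l = 0 := by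
    intro p hp hop
    obtain ⟨l, h1, h2, h3⟩ := (hp.and_eventually (hZ.eventually_nhds.and hball)).exists
    have h4 : ∃ᶠ l' in 𝓝 l, l' ∈ (J phi)ᶜ := mem_closure_iff_frequently.1 (hd l)
    have h5 : ∀ᶠ l' in 𝓝 l, l' ∈ ball q D.R := isOpen_ball.mem_nhds h3
    obtain ⟨l', h6, h7, h8, h9⟩ := (h4.and_eventually ((hop l h3 h1).and (h2.and h5))).exists
    exact ⟨l', h9, h7, h6, h8 h6⟩
  obtain ⟨l, hl, hp, hJ, h0⟩ := key _ f1 fun l hl h =>
    (D.cont1 hl).eventually_lt continuousAt_const h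
  obtain ⟨l', hl', hp', hJ', h0'⟩ := key _ f2 fun l hl h =>
    continuousAt_const.eventually_lt (D.cont1 hl) h
  have w1 := D.wdq l hl hJ
  have w2 := D.wdq l' hl' hJ'
  rw [h0, if_pos hp] at w1
  rw [h0', if_neg hp'.not_gt] at w2
  by_cases c1 : ‖D.z2 l‖ < 1
  · rw [if_pos c1] at w1
    by_cases c2 : ‖D.z2 l'‖ < 1
    · rw [if_pos c2] at w2
      exfalso
      have : (1 : ℂ) = 0 := by linear_combination w2 - w1
      exact one_ne_zero this
    · rw [if_neg c2] at w2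
      exfalso
      have : (2 : ℂ) = 0 := by linear_combination w2 - w1
      exact two_ne_zero this
  · rw [if_neg c1] at w1
    linear_combination -w1

theorem DB.exact (hZ : Zer phi q) {l : ℂ} (hl : l ∈ ball q D.R) (hJ : l ∉ J phi)
    (h0 : wd phi l = 0) : ¬ (‖D.z1 l‖ < 1 ∧ ‖D.z2 l‖ < 1) ∧ ¬ (1 < ‖D.z1 l‖ ∧ 1 < ‖D.z2 l‖) := by
  have h1 := D.wdq l hl hJ
  rw [h0, D.n_eq hphi hZ] at h1
  constructor
  · rintro ⟨a, b⟩
    rw [if_pos a, if_pos b] at h1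
    norm_num at h1
  · rintro ⟨a, b⟩
    rw [if_neg a.not_gt, if_neg b.not_gt] at h1
    norm_num at h1

theorem DB.both1 (hZ : Zer phi q) {l : ℂ} (hl : l ∈ ball q D.R) (hZl : Zer phi l)
    (h : ‖D.z1 l‖ = 1) : ‖D.z2 l‖ = 1 := by
  obtain ⟨f1, f2⟩ := D.freq1 hphi hl h
  have hball : ∀ᶠ l' in 𝓝 l, l' ∈ ball q D.R := isOpen_ball.mem_nhds hl
  rcases lt_trichotomy ‖D.z2 l‖ 1 with c | c | c
  · exfalso
    have h2 := (D.swap.cont1 hl).eventually_lt (continuousAt_const (y := (1 : ℝ))) c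
    obtain ⟨l', h3, h4, h5, h6⟩ := (f1.and_eventually (h2.and (hZl.and hball))).exists
    have h4' : ‖D.z2 l'‖ < 1 := h4
    have h7 := D.off h6 h3.ne h4'.ne
    exact (D.exact hphi hZ h6 h7 (h5 h7)).1 ⟨h3, h4'⟩
  · exact c
  · exfalso
    have h2 := (continuousAt_const (y := (1 : ℝ))).eventually_lt (D.swap.cont1 hl) c
    obtain ⟨l', h3, h4, h5, h6⟩ := (f2.and_eventually (h2.and (hZl.and hball))).exists
    have h4' : 1 < ‖D.z2 l'‖ := h4
    have h7 := D.off h6 h3.ne' h4'.ne'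
    exact (D.exact hphi hZ h6 h7 (h5 h7)).2 ⟨h3, h4'⟩

theorem DB.both (hZ : Zer phi q) {l : ℂ} (hl : l ∈ ball q D.R) (hZl : Zer phi l)
    (h : l ∈ J phi) : ‖D.z1 l‖ = 1 ∧ ‖D.z2 l‖ = 1 := by
  obtain ⟨w, hw, hwl⟩ := h
  have hw' : ‖w‖ = 1 := by simpa using hw
  rcases D.on l hl w hw hwl with h | h
  · have h1 : ‖D.z1 l‖ = 1 := by rw [← h, hw']
    exact ⟨h1, D.both1 hphi hZ hl hZl h1⟩
  · have h1 : ‖D.z2 l‖ = 1 := by rw [← h, hw']
    exact ⟨D.swap.both1 hphi hZ hl hZl h1, h1⟩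

theorem DB.tang (hZ : Zer phi q) {a : ℝ} (ha : 0 < a) (hX : D.z1 q * deriv phi (D.z1 q) ≠ 0) :
    D.z2 q * deriv phi (D.z2 q) ≠ a * (D.z1 q * deriv phi (D.z1 q)) := by
  intro hX2
  obtain ⟨k, hk⟩ : ∃ k : ℂ, k = (D.z1 q * deriv phi (D.z1 q))⁻¹ := ⟨_, rfl⟩
  have hk0 : k ≠ 0 := by rw [hk]; exact inv_ne_zero hX
  have hkn : 0 < ‖k‖ := norm_pos_iff.2 hk0
  have hk2 : (D.z2 q * deriv phi (D.z2 q))⁻¹ = ((a⁻¹ : ℝ) : ℂ) * k := by
    rw [hX2, mul_inv, hk]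
    push_cast
    rfl
  have hq : q ∈ ball q D.R := mem_ball_self D.R_pos
  have hball : ∀ᶠ l in 𝓝 q, l ∈ ball q D.R := isOpen_ball.mem_nhds hq
  have hlim : Tendsto (fun s : ℝ => q + s * conj k) (𝓝[>] 0) (𝓝 q) := by
    have h1 : Continuous fun s : ℝ => q + (s : ℂ) * conj k := by fun_prop
    have h2 := h1.tendsto 0
    simp only [Complex.ofReal_zero, zero_mul, add_zero] at h2
    exact h2.mono_left nhdsWithin_le_nhds
  have hs : ∀ᶠ s : ℝ in 𝓝[>] 0, 0 < s := self_mem_nhdsWithin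
  have hb : ∀ c : ℝ, 0 < c → ∀ᶠ s : ℝ in 𝓝[>] 0, D.B * s < c := by
    intro c hc
    have h1 : Tendsto (fun s : ℝ => D.B * s) (𝓝[>] 0) (𝓝 0) := by
      have h2 : Tendsto (fun s : ℝ => D.B * s) (𝓝 0) (𝓝 (D.B * 0)) :=
        (continuous_const.mul continuous_id).tendsto 0
      rw [mul_zero] at h2
      exact h2.mono_left nhdsWithin_le_nhds
    exact h1.eventually_lt_const hc
  obtain ⟨s, h1, h2, h3, h4⟩ := (hs.and ((hb 2 two_pos).and ((hb (2 * a⁻¹) (by positivity)).and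
    (hlim.eventually (hZ.and hball))))).exists
  obtain ⟨h5, h6⟩ := h4
  obtain ⟨l, hl⟩ : ∃ l : ℂ, l = q + (s : ℂ) * conj k := ⟨_, rfl⟩
  rw [← hl] at h5 h6
  have hlq : l - q = (s : ℂ) * conj k := by rw [hl]; ring
  have hnn : ‖l - q‖ ^ 2 = s ^ 2 * ‖k‖ ^ 2 := by
    rw [hlq, norm_mul, Complex.norm_real, Real.norm_eq_abs, abs_of_pos h1, RCLike.norm_conj, mul_pow]
  have hre : ∀ b : ℝ, (((b : ℝ) : ℂ) * k * (l - q)).re = b * s * ‖k‖ ^ 2 := by
    intro b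
    have : ((b : ℝ) : ℂ) * k * (l - q) = ((b * s * ‖k‖ ^ 2 : ℝ) : ℂ) := by
      rw [hlq]
      have h7 : k * conj k = ((‖k‖ ^ 2 : ℝ) : ℂ) := by
        rw [Complex.mul_conj, Complex.normSq_eq_norm_sq]
      push_cast at h7 ⊢
      linear_combination (b : ℂ) * s * h7
    rw [this, Complex.ofReal_re]
  have hk4 : 0 < s * ‖k‖ ^ 2 := by positivity
  have a1 : 1 < ‖D.z1 l‖ := by
    have h8 := D.e1 l h6
    rw [← hk, hnn] at h8
    have h9 := hre 1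
    rw [Complex.ofReal_one, one_mul] at h9
    rw [h9] at h8
    have h10 := (abs_le.1 h8).1
    have h11 : 1 ^ 2 < ‖D.z1 l‖ ^ 2 := by nlinarith
    exact lt_of_pow_lt_pow_left₀ 2 (norm_nonneg _) h11
  have a2 : 1 < ‖D.z2 l‖ := by
    have h8 := D.e2 l h6
    rw [hk2, hnn, hre] at h8
    have h10 := (abs_le.1 h8).1
    have h11 : 1 ^ 2 < ‖D.z2 l‖ ^ 2 := by nlinarith
    exact lt_of_pow_lt_pow_left₀ 2 (norm_nonneg _) h11
  have h7 := D.off h6 a1.ne' a2.ne'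
  exact (D.exact hphi hZ h6 h7 (h5 h7)).2 ⟨a1, a2⟩

theorem DB.pass (hZ : Zer phi q) {l : ℂ} (hl : l ∈ ball q D.R) (hZl : Zer phi l)
    (h : l ∈ J phi) : Pass phi l := by
  obtain ⟨n1, n2⟩ := D.both hphi hZ hl hZl h
  have m1 : D.z1 l ∈ sphere (0 : ℂ) 1 := by simpa using n1
  have m2 : D.z2 l ∈ sphere (0 : ℂ) 1 := by simpa using n2
  have e1 := deriv_ne_of_inv D.d1 (hphi _ m1).differentiableAt hl D.s1
  have e2 := deriv_ne_of_inv D.d2 (hphi _ m2).differentiableAt hl D.s2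
  obtain ⟨D', h1, h2⟩ := exists_DB hphi m1 m2 (D.ne l hl) (D.s1 l hl) (D.s2 l hl)
    (D.on l hl) e1 e2
  have hz : D.z1 l ≠ 0 := by
    intro h0
    rw [h0, norm_zero] at n1
    exact zero_ne_one n1
  refine ⟨D.z1 l, m1, D.z2 l, m2, D.ne l hl, D.s1 l hl, D.s2 l hl, D.on l hl, e1, e2,
    fun a ha => ?_, ?_⟩
  · have h3 := D'.tang hphi hZl ha (by rw [h1]; exact mul_ne_zero hz e1)
    rwa [h1, h2] at h3
  · have h3 := D'.inn
    rwa [D'.n_eq hphi hZl] at h3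

end

/-- Two circles meet in finitely many points. -/
theorem fin_circ {t : ℂ} {eps : ℝ} : {w : ℂ | ‖w‖ = 1 ∧ ‖t‖ = 1 ∧ ‖w - t‖ = eps}.Finite := by
  obtain ⟨b, hb⟩ : ∃ b : ℂ, b = (2 - eps ^ 2) * t := ⟨_, rfl⟩
  obtain ⟨s, hs⟩ := IsAlgClosed.exists_pow_nat_eq (b ^ 2 / 4 - t ^ 2) (n := 2) two_pos
  refine (Set.toFinite {b / 2 + s, b / 2 - s}).subset ?_
  rintro w ⟨h1, h2, h3⟩
  have e1 : w * conj w = 1 := by
    rw [Complex.mul_conj, Complex.normSq_eq_norm_sq, h1]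
    norm_num
  have e2 : t * conj t = 1 := by
    rw [Complex.mul_conj, Complex.normSq_eq_norm_sq, h2]
    norm_num
  have e3 : (w - t) * (conj w - conj t) = (eps : ℂ) ^ 2 := by
    rw [← map_sub, Complex.mul_conj, Complex.normSq_eq_norm_sq, h3]
    push_cast
    rfl
  have e4 : w ^ 2 - b * w + t ^ 2 = 0 := by
    rw [hb]
    linear_combination (t * w) * (e1 + e2 - e3) - w ^ 2 * e2 - t ^ 2 * e1
  have e5 : (w - b / 2 - s) * (w - b / 2 + s) = 0 := by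
    linear_combination e4 - hs
  rcases mul_eq_zero.1 e5 with h | h
  · left
    linear_combination h
  · right
    rw [Set.mem_singleton_iff]
    linear_combination h

theorem back_not_bir {phi : ℂ → ℂ} (hphi : AnalyticOnNhd ℂ phi (sphere 0 1)) {q t1 t2 : ℂ}
    (ht1 : t1 ∈ sphere (0 : ℂ) 1) (ht2 : t2 ∈ sphere (0 : ℂ) 1) (hne : t1 ≠ t2)
    (hl0 : phi t1 = q) (hl2 : phi t2 = q)
    (hex : ∀ z ∈ sphere (0 : ℂ) 1, phi z = q → z = t1 ∨ z = t2)
    (d1' : deriv phi t1 ≠ 0) (d2' : deriv phi t2 ≠ 0) (hZ : Zer phi q) :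
    ¬ BIR H2 (IsToeplitz phi) := by
  have ht1n : ‖t1‖ = 1 := by simpa using ht1
  obtain ⟨D, hz1, hz2⟩ := exists_DB hphi ht1 ht2 hne hl0 hl2 hex d1' d2'
  have hq : q ∈ ball q D.R := mem_ball_self D.R_pos
  -- a point of the curve off `q`
  obtain ⟨p, hpJ, hpq⟩ : ∃ p ∈ J phi, p ≠ q := by
    by_contra hcon
    push Not at hcon
    have hall : ∀ z ∈ sphere (0 : ℂ) 1, z = t1 ∨ z = t2 := fun z hz =>
      hex z hz (hcon _ ⟨z, hz, rfl⟩)
    have a1 := hall 1 (by simp)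
    have a2 := hall (-1) (by simp)
    have a3 := hall I (by simp)
    have b1 : (1 : ℂ) ≠ -1 := by norm_num
    have b2 : (1 : ℂ) ≠ I := by
      intro h
      have := congrArg Complex.re h
      simp at this
    have b3 : (-1 : ℂ) ≠ I := by
      intro h
      have := congrArg Complex.re h
      simp at this
    rcases a1 with a1 | a1 <;> rcases a2 with a2 | a2 <;> rcases a3 with a3 | a3
    · exact b1 (a1.trans a2.symm)
    · exact b1 (a1.trans a2.symm)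
    · exact b2 (a1.trans a3.symm)
    · exact b3 (a2.trans a3.symm)
    · exact b3 (a2.trans a3.symm)
    · exact b2 (a1.trans a3.symm)
    · exact b1 (a1.trans a2.symm)
    · exact b1 (a1.trans a2.symm)
  obtain ⟨ρ0, hρ0, hρ0s⟩ := Metric.eventually_nhds_iff_ball.1 (hZ.and (isOpen_ball.mem_nhds hq :
    ∀ᶠ l in 𝓝 q, l ∈ ball q D.R))
  obtain ⟨ρ, hρ⟩ : ∃ ρ : ℝ, ρ = min ρ0 (dist p q) := ⟨_, rfl⟩
  have hρp : 0 < ρ := by rw [hρ]; exact lt_min hρ0 (dist_pos.2 hpq)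
  have hρ1 : ball q ρ ⊆ ball q ρ0 := ball_subset_ball (by rw [hρ]; exact min_le_left _ _)
  have hρ2 : ρ ≤ dist p q := by rw [hρ]; exact min_le_right _ _
  have hR : ball q ρ ⊆ ball q D.R := fun l hl => (hρ0s l (hρ1 hl)).2
  have hw0 : ∀ l ∈ ball q ρ, l ∉ J phi → wd phi l = 0 := fun l hl => (hρ0s l (hρ1 hl)).1
  have hZl : ∀ l ∈ ball q ρ, Zer phi l := by
    intro l hl
    filter_upwards [isOpen_ball.mem_nhds hl] with l' hl'
    exact hw0 l' hl'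
  -- the disc around `t1`
  have E1 : ∀ᶠ w in 𝓝 t1, phi w ∈ ball q ρ := by
    have h1 : ContinuousAt phi t1 := (hphi t1 ht1).continuousAt
    exact h1 (by rw [hl0]; exact ball_mem_nhds q hρp)
  have E2 : ∀ᶠ w in 𝓝 t1, D.z1 (phi w) = w := by
    have := D.i1 q hq
    rwa [hz1] at this
  have E3 : ∀ᶠ w in 𝓝 t1, ContinuousAt phi w := by
    filter_upwards [(hphi t1 ht1).eventually_analyticAt] with w hw
    exact hw.continuousAt
  obtain ⟨δ, hδ, hδs⟩ := Metric.eventually_nhds_iff_ball.1 (E1.and (E2.and E3))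
  obtain ⟨ε, hε, hεδ⟩ : ∃ ε : ℝ, 0 < ε ∧ ε < δ := ⟨δ / 2, by linarith, by linarith⟩
  have hcb : ∀ w ∈ closedBall t1 ε, phi w ∈ ball q ρ ∧ D.z1 (phi w) = w ∧ ContinuousAt phi w :=
    fun w hw => hδs w (closedBall_subset_ball hεδ hw)
  have hcl : IsClosed (phi '' closedBall t1 ε) :=
    ((isCompact_closedBall t1 ε).image_of_continuousOn
      fun w hw => (hcb w hw).2.2.continuousWithinAt).isClosed
  have hVo : IsOpen (ball q ρ ∩ D.z1 ⁻¹' ball t1 ε) :=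
    (D.d1.continuousOn.mono hR).isOpen_inter_preimage isOpen_ball isOpen_ball
  have hVs : ball q ρ ∩ D.z1 ⁻¹' ball t1 ε ⊆ phi '' closedBall t1 ε := fun l hl =>
    ⟨D.z1 l, ball_subset_closedBall hl.2, D.s1 l (hR hl.1)⟩
  have hQfin : (phi '' {w : ℂ | ‖w‖ = 1 ∧ ‖t1‖ = 1 ∧ ‖w - t1‖ = ε}).Finite := fin_circ.image phi
  have hQcb : ∀ l ∈ phi '' {w : ℂ | ‖w‖ = 1 ∧ ‖t1‖ = 1 ∧ ‖w - t1‖ = ε},
      ∃ w ∈ closedBall t1 ε, phi w = l ∧ ‖w‖ = 1 ∧ ‖w - t1‖ = ε := by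
    rintro l ⟨w, ⟨h1, -, h3⟩, h4⟩
    exact ⟨w, by rw [mem_closedBall_iff_norm, h3], h4, h1, h3⟩
  refine (main_split hphi hQfin (fun l hl => ?_) hVo hcl.isOpen_compl ?_ ?_ ?_ ?_).2
  · obtain ⟨w, hw, hwl, h1, -⟩ := hQcb l hl
    have h2 := (hcb w hw).1
    rw [hwl] at h2
    exact D.pass hphi hZ (hR h2) (hZl l h2) ⟨w, by simpa using h1, hwl⟩
  · exact Set.disjoint_left.2 fun l hl hl' => hl' (hVs hl)
  · rintro l ⟨hl, hlQ⟩
    by_cases hlc : l ∈ phi '' closedBall t1 ε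
    · left
      obtain ⟨w, hw, hwl⟩ := hlc
      obtain ⟨h1, h2, -⟩ := hcb w hw
      rw [hwl] at h1 h2
      refine ⟨h1, ?_⟩
      show D.z1 l ∈ ball t1 ε
      rw [h2]
      by_contra hwb
      have h3 : ‖w - t1‖ = ε := by
        rw [mem_closedBall_iff_norm] at hw
        rw [mem_ball_iff_norm, not_lt] at hwb
        exact le_antisymm hw hwb
      have hlJ : l ∈ J phi := by
        by_contra hJ
        rcases hl with h | h
        · exact hJ h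
        · exact h (hw0 l h1 hJ)
      have h4 := (D.both hphi hZ (hR h1) (hZl l h1) hlJ).1
      rw [h2] at h4
      exact hlQ ⟨w, ⟨h4, ht1n, h3⟩, hwl⟩
    · exact Or.inr hlc
  · refine ⟨q, ⟨mem_ball_self hρp, ?_⟩, Or.inl ⟨t1, ht1, hl0⟩, fun h => ?_⟩
    · show D.z1 q ∈ ball t1 ε
      rw [hz1]
      exact mem_ball_self hε
    · obtain ⟨w, hw, hwl, -, h3⟩ := hQcb q h
      have h4 := (hcb w hw).2.1
      rw [hwl, hz1] at h4
      rw [← h4, sub_self, norm_zero] at h3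
      exact hε.ne h3
  · refine ⟨p, ?_, Or.inl hpJ, ?_⟩
    · rintro ⟨w, hw, hwl⟩
      have h1 := (hcb w hw).1
      rw [hwl, mem_ball] at h1
      linarith
    · intro h
      obtain ⟨w, hw, hwl, -, -⟩ := hQcb p h
      have h1 := (hcb w hw).1
      rw [hwl, mem_ball] at h1
      linarith

end Pool.Agent.TBirS
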