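import Pool.Agent.TBir.Base

/-!
# The angular cutoff in the plane, for two directions which are not parallel

MODULE. Paper proof. Let `u = conj k1 / |k1| - conj k2 / |k2|`. Then
`Re (k1 u) = |k1| - Re (k1 conj k2) / |k2|` and `Re (k2 u) = Re (k2 conj k1) / |k1| - |k2|`. By hypothesis
`k2` is not a positive multiple of `k1`, so `Re (k1 conj k2) < |k1| |k2|` (equality in Cauchy-Schwarz:
if `Re (k1 conj k2) = |k1 conj k2|` then `k1 conj k2` is a positive real number, so `k2` is a positive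
multiple of `k1`), hence `Re (k1 u) > 0` and `Re (k2 u) < 0`, `u ≠ 0`.

Let `w = u / |u|`, `a1 = Re (k1 w) > 0`, `a2 = - Re (k2 w) > 0`. For `v ≠ 0` let `sg v = Im (v conj w) / |v|`,
a number of `[-1, 1]`. Fix `de > 0` with `de ≤ 1/2`, `4 |k1| de ≤ a1`, `4 |k2| de ≤ a2`. Put
`ch v = Real.smoothTransition (sg v / (2 de) + 1 / 2)`: it is `1` for `sg v ≥ de` and `0` for
`sg v ≤ -de`, smooth off the origin, values in `[0, 1]`, invariant under `v ↦ t v`, `t > 0`. The gradient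
bound is `pl_grad` of Pool/Agent/TBir/ChiP.lean (homogeneity; copy the proof).

If `|sg v| ≤ de`: `v = s w + i t w`, `s = Re (v conj w)`, `t = Im (v conj w)`, `|t| ≤ de |v|`,
`|s| ≥ |v| - |t| ≥ |v| / 2`. So `Re (k1 v) = s a1 + t Re (i k1 w)` has the sign of `s` and
`|Re (k1 v)| ≥ |s| a1 - |k1| |t| ≥ a1 |v| / 2 - a1 |v| / 4`, and `Re (k2 v)` has the sign of `-s` and
`|Re (k2 v)| ≥ a2 |v| / 4`. With `c = min a1 a2 / 4` the alternatives of the statement hold.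
If `dbar ch v ≠ 0`, or `ch v ≠ 0` and `ch v ≠ 1`, then `|sg v| ≤ de` (`ch` is locally constant where
`|sg| > de`). If none of the two alternatives holds, `|sg v| > de`, and this is also true near `v`, so
`ch = 1` near `v` if `sg v > de` and `ch = 0` near `v` if `sg v < -de`. The sign of
`Im (v conj u)` is the sign of `sg v`.
-/

set_option autoImplicit false

open MeasureTheory Complex Set Filter Topology Metric AddCircle
open scoped ComplexConjugate InnerProductSpace ENNReal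
open Pool.Lib (dbar)

namespace Pool.Agent.TBirS

open Pool.Agent.TBir

private noncomputable def paS (w v : ℂ) : ℝ := (v * conj w).im / ‖v‖

private noncomputable def paC (w : ℂ) (de : ℝ) (v : ℂ) : ℂ :=
  ((Real.smoothTransition (paS w v / (2 * de) + 1 / 2) : ℝ) : ℂ)

private theorem paC_smul (w v : ℂ) (de : ℝ) {t : ℝ} (ht : 0 < t) : paC w de (t • v) = paC w de v := by
  unfold paC paS
  have e1 : ((t • v) * conj w).im = t * (v * conj w).im := by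
    rw [smul_mul_assoc, Complex.smul_im, smul_eq_mul]
  have e2 : ‖t • v‖ = t * ‖v‖ := by
    rw [norm_smul, Real.norm_eq_abs, abs_of_pos ht]
  rw [e1, e2, mul_div_mul_left _ _ ht.ne']

private theorem paS_contDiffAt (w : ℂ) {v : ℂ} (hv : v ≠ 0) : ContDiffAt ℝ 1 (paS w) v := by
  unfold paS
  apply ContDiffAt.div
  · exact (Complex.imCLM.contDiff.comp (contDiff_id.mul contDiff_const)).contDiffAt
  · exact contDiffAt_norm ℝ hv
  · exact norm_ne_zero_iff.mpr hv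

private theorem paC_contDiffAt (w : ℂ) (de : ℝ) {v : ℂ} (hv : v ≠ 0) : ContDiffAt ℝ 1 (paC w de) v := by
  unfold paC
  have h1 : ContDiffAt ℝ 1 (fun x => paS w x / (2 * de) + 1 / 2) v :=
    ((paS_contDiffAt w hv).div_const _).add contDiffAt_const
  have h2 : ContDiff ℝ 1 (Real.smoothTransition) :=
    Real.smoothTransition.contDiff (n := ((1 : ℕ) : ℕ∞))
  have h3 : ContDiffAt ℝ 1 (fun x => Real.smoothTransition (paS w x / (2 * de) + 1 / 2)) v :=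
    ContDiffAt.comp (f := fun x => paS w x / (2 * de) + 1 / 2) v h2.contDiffAt h1
  exact ContDiffAt.comp (f := fun x => Real.smoothTransition (paS w x / (2 * de) + 1 / 2)) v
    Complex.ofRealCLM.contDiff.contDiffAt h3

private theorem paC_one (w : ℂ) {de : ℝ} (hde : 0 < de) {v : ℂ} (hv : v ≠ 0) (h : de < paS w v) :
    ∀ᶠ v' in 𝓝 v, paC w de v' = 1 := by
  have hc : ContinuousAt (paS w) v := (paS_contDiffAt w hv).continuousAt
  have h2 : ∀ᶠ v' in 𝓝 v, de < paS w v' := hc.eventually (lt_mem_nhds h)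
  filter_upwards [h2] with x hx
  unfold paC
  have h3 : 1 / 2 ≤ paS w x / (2 * de) := by
    rw [le_div_iff₀ (by positivity)]
    linarith
  rw [Real.smoothTransition.one_of_one_le (by linarith)]
  simp

private theorem paC_zero (w : ℂ) {de : ℝ} (hde : 0 < de) {v : ℂ} (hv : v ≠ 0) (h : paS w v < -de) :
    ∀ᶠ v' in 𝓝 v, paC w de v' = 0 := by
  have hc : ContinuousAt (paS w) v := (paS_contDiffAt w hv).continuousAt
  have h2 : ∀ᶠ v' in 𝓝 v, paS w v' < -de := hc.eventually (gt_mem_nhds h)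
  filter_upwards [h2] with x hx
  unfold paC
  have h3 : paS w x / (2 * de) ≤ -(1 / 2) := by
    rw [div_le_iff₀ (by positivity)]
    linarith
  rw [Real.smoothTransition.zero_of_nonpos (by linarith)]
  simp

private theorem pa_grad (w : ℂ) (de : ℝ) :
    ∃ C : ℝ, 0 < C ∧ ∀ v : ℂ, v ≠ 0 → ‖dbar (paC w de) v‖ ≤ C / ‖v‖ := by
  have hCD : ContDiffOn ℝ 1 (paC w de) {(0 : ℂ)}ᶜ := fun v hv =>
    (paC_contDiffAt w de hv).contDiffWithinAt
  have hcont : ContinuousOn (fderiv ℝ (paC w de)) {(0 : ℂ)}ᶜ :=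
    hCD.continuousOn_fderiv_of_isOpen isOpen_compl_singleton le_rfl
  have hsub : sphere (0 : ℂ) 1 ⊆ {(0 : ℂ)}ᶜ := by
    intro z hz h0
    rw [mem_singleton_iff] at h0
    rw [h0, mem_sphere_iff_norm] at hz
    simp at hz
  obtain ⟨M, hM⟩ := (isCompact_sphere (0 : ℂ) 1).exists_bound_of_continuousOn
    (hcont.mono hsub)
  have hM0 : 0 ≤ M := (norm_nonneg _).trans (hM 1 (by simp))
  refine ⟨M + 1, by linarith, fun v hv => ?_⟩
  have hv0 : 0 < ‖v‖ := norm_pos_iff.mpr hv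
  have ht : 0 < ‖v‖⁻¹ := inv_pos.mpr hv0
  have e1 : (fun x : ℂ => paC w de (‖v‖⁻¹ • x)) = paC w de := by
    funext x
    exact paC_smul w x de ht
  have e2 : fderiv ℝ (paC w de) v = ‖v‖⁻¹ • fderiv ℝ (paC w de) (‖v‖⁻¹ • v) := by
    conv_lhs => rw [← e1]
    exact fderiv_comp_smul ‖v‖⁻¹
  have hsph : ‖v‖⁻¹ • v ∈ sphere (0 : ℂ) 1 := by
    rw [mem_sphere_iff_norm, sub_zero, norm_smul, norm_inv, norm_norm,
      inv_mul_cancel₀ hv0.ne']
  have h3 : ‖fderiv ℝ (paC w de) v‖ ≤ ‖v‖⁻¹ * M := by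
    rw [e2, norm_smul, norm_inv, norm_norm]
    exact mul_le_mul_of_nonneg_left (hM _ hsph) ht.le
  have h4 : ∀ u : ℂ, ‖u‖ = 1 → ‖fderiv ℝ (paC w de) v u‖ ≤ ‖v‖⁻¹ * M := by
    intro u hu
    have := (fderiv ℝ (paC w de) v).le_opNorm u
    rw [hu, mul_one] at this
    exact this.trans h3
  have h5 : ‖dbar (paC w de) v‖ ≤ ‖v‖⁻¹ * M := by
    unfold Pool.Lib.dbar
    rw [norm_div]
    have h6 : ‖fderiv ℝ (paC w de) v 1 + I * fderiv ℝ (paC w de) v I‖ ≤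
        ‖v‖⁻¹ * M + ‖v‖⁻¹ * M := by
      refine (norm_add_le _ _).trans ?_
      rw [norm_mul, Complex.norm_I, one_mul]
      exact add_le_add (h4 1 (by simp)) (h4 I (by simp))
    have h7 : ‖(2 : ℂ)‖ = 2 := by simp
    rw [h7, div_le_iff₀ (by norm_num)]
    linarith
  rw [div_eq_inv_mul]
  exact h5.trans (mul_le_mul_of_nonneg_left (by linarith) ht.le)

/-- Cauchy-Schwarz is strict -/
private theorem pa_cs {k1 k2 : ℂ} (h1 : k1 ≠ 0) (h2 : k2 ≠ 0) (h : ∀ a : ℝ, 0 < a → k2 ≠ a * k1) :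
    (k1 * conj k2).re < ‖k1‖ * ‖k2‖ := by
  have n1 : 0 < ‖k1‖ := norm_pos_iff.mpr h1
  have n2 : 0 < ‖k2‖ := norm_pos_iff.mpr h2
  by_contra hlt
  rw [not_lt] at hlt
  set z : ℂ := k1 * conj k2 with hz
  have hn : ‖z‖ = ‖k1‖ * ‖k2‖ := by rw [hz, norm_mul, RCLike.norm_conj]
  have hle : z.re ≤ ‖z‖ := Complex.re_le_norm z
  have hre : z.re = ‖k1‖ * ‖k2‖ := le_antisymm (hn ▸ hle) hlt
  have him : z.im = 0 := by
    have e := Complex.sq_norm_sub_sq_re z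
    rw [hn, hre, sub_self] at e
    exact pow_eq_zero_iff (two_ne_zero) |>.mp e.symm
  have hzr : z = ((‖k1‖ * ‖k2‖ : ℝ) : ℂ) := by
    apply Complex.ext
    · rw [hre, Complex.ofReal_re]
    · rw [him, Complex.ofReal_im]
  have hc : conj k1 * k2 = ((‖k1‖ * ‖k2‖ : ℝ) : ℂ) := by
    have e := congrArg conj hzr
    rw [hz, map_mul, Complex.conj_conj, Complex.conj_ofReal] at e
    exact e
  refine h (‖k2‖ / ‖k1‖) (div_pos n2 n1) ?_
  have e3 : k1 * conj k1 = ((‖k1‖ ^ 2 : ℝ) : ℂ) := by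
    rw [Complex.mul_conj, Complex.normSq_eq_norm_sq]
  have e4 : ((‖k1‖ ^ 2 : ℝ) : ℂ) * k2 = ((‖k1‖ * ‖k2‖ : ℝ) : ℂ) * k1 := by
    rw [← e3, ← hc]
    ring
  have n1' : ((‖k1‖ : ℝ) : ℂ) ≠ 0 := by exact_mod_cast n1.ne'
  push_cast at e4 ⊢
  field_simp
  have e5 : ((‖k1‖ : ℝ) : ℂ) * (((‖k1‖ : ℝ) : ℂ) * k2) = ((‖k1‖ : ℝ) : ℂ) * (((‖k2‖ : ℝ) : ℂ) * k1) := by
    linear_combination e4
  have e6 := mul_left_cancel₀ n1' e5
  linear_combination e6

private theorem pa_re {w : ℂ} (hw : ‖w‖ = 1) (k v : ℂ) :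
    (k * v).re = (v * conj w).re * (k * w).re - (v * conj w).im * (k * w).im := by
  have e1 : k * v = (v * conj w) * (k * w) := by
    have e2 : w * conj w = 1 := by
      rw [Complex.mul_conj, Complex.normSq_eq_norm_sq, hw]
      norm_num
    calc k * v = k * v * (w * conj w) := by rw [e2, mul_one]
      _ = _ := by ring
  rw [e1, Complex.mul_re]

/-- the cone -/
private theorem pa_cone {w k1 k2 : ℂ} (hw : ‖w‖ = 1) {a1 a2 de : ℝ} (_hde : 0 < de) (hde2 : de ≤ 1 / 2)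
    (e1 : (k1 * w).re = a1) (e2 : (k2 * w).re = -a2) (ha1 : 0 < a1) (ha2 : 0 < a2)
    (c1 : 4 * ‖k1‖ * de ≤ a1) (c2 : 4 * ‖k2‖ * de ≤ a2) {v : ℂ} (hv : v ≠ 0) (h : |paS w v| ≤ de) :
    ((k1 * v).re ≤ -(min a1 a2 / 4 * ‖v‖) ∧ min a1 a2 / 4 * ‖v‖ ≤ (k2 * v).re) ∨
      ((k2 * v).re ≤ -(min a1 a2 / 4 * ‖v‖) ∧ min a1 a2 / 4 * ‖v‖ ≤ (k1 * v).re) := by
  have hv0 : 0 < ‖v‖ := norm_pos_iff.mpr hv
  set s : ℝ := (v * conj w).re with hs
  set t : ℝ := (v * conj w).im with ht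
  have hn : ‖v * conj w‖ = ‖v‖ := by rw [norm_mul, RCLike.norm_conj, hw, mul_one]
  have htv : |t| ≤ de * ‖v‖ := by
    unfold paS at h
    rw [abs_div, abs_of_pos hv0, div_le_iff₀ hv0] at h
    exact h
  have hsv : ‖v‖ / 2 ≤ |s| := by
    have g1 := Complex.norm_le_abs_re_add_abs_im (v * conj w)
    rw [hn] at g1
    have g2 : de * ‖v‖ ≤ 1 / 2 * ‖v‖ := mul_le_mul_of_nonneg_right hde2 hv0.le
    linarith
  have b : ∀ k : ℂ, |t * (k * w).im| ≤ ‖k‖ * (de * ‖v‖) := by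
    intro k
    rw [abs_mul, mul_comm]
    refine mul_le_mul ?_ htv (abs_nonneg _) (norm_nonneg _)
    refine (Complex.abs_im_le_norm _).trans ?_
    rw [norm_mul, hw, mul_one]
  have b1 := abs_le.mp (b k1)
  have b2 := abs_le.mp (b k2)
  have r1 := pa_re hw k1 v
  have r2 := pa_re hw k2 v
  rw [← hs, ← ht, e1] at r1
  rw [← hs, ← ht, e2] at r2
  have m1 : min a1 a2 / 4 * ‖v‖ ≤ a1 / 4 * ‖v‖ :=
    mul_le_mul_of_nonneg_right (by linarith [min_le_left a1 a2]) hv0.le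
  have m2 : min a1 a2 / 4 * ‖v‖ ≤ a2 / 4 * ‖v‖ :=
    mul_le_mul_of_nonneg_right (by linarith [min_le_right a1 a2]) hv0.le
  have d1 : ‖k1‖ * (de * ‖v‖) ≤ a1 / 4 * ‖v‖ := by
    rw [← mul_assoc]
    exact mul_le_mul_of_nonneg_right (by linarith) hv0.le
  have d2 : ‖k2‖ * (de * ‖v‖) ≤ a2 / 4 * ‖v‖ := by
    rw [← mul_assoc]
    exact mul_le_mul_of_nonneg_right (by linarith) hv0.le
  rcases le_or_gt 0 s with hs0 | hs0
  · right
    rw [abs_of_nonneg hs0] at hsv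
    have p1 : ‖v‖ / 2 * a1 ≤ s * a1 := mul_le_mul_of_nonneg_right hsv ha1.le
    have p2 : ‖v‖ / 2 * a2 ≤ s * a2 := mul_le_mul_of_nonneg_right hsv ha2.le
    constructor
    · rw [r2]
      linarith [b2.1]
    · rw [r1]
      linarith [b1.2]
  · left
    rw [abs_of_neg hs0] at hsv
    have p1 : ‖v‖ / 2 * a1 ≤ -s * a1 := mul_le_mul_of_nonneg_right hsv ha1.le
    have p2 : ‖v‖ / 2 * a2 ≤ -s * a2 := mul_le_mul_of_nonneg_right hsv ha2.le
    constructor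
    · rw [r1]
      linarith [b1.1]
    · rw [r2]
      linarith [b2.2]

theorem planar2 {k1 k2 : ℂ} (h1 : k1 ≠ 0) (h2 : k2 ≠ 0) (h : ∀ a : ℝ, 0 < a → k2 ≠ a * k1) :
    ∃ (u : ℂ) (ch : ℂ → ℂ) (c C : ℝ), 0 < (k1 * u).re ∧ (k2 * u).re < 0 ∧ 0 < c ∧ 0 < C ∧
      ContDiffOn ℝ 1 ch {(0 : ℂ)}ᶜ ∧
      (∀ v, ∃ t : ℝ, 0 ≤ t ∧ t ≤ 1 ∧ ch v = t) ∧
      (∀ v, v ≠ 0 → ‖dbar ch v‖ ≤ C / ‖v‖) ∧
      (∀ v, v ≠ 0 → (dbar ch v ≠ 0 ∨ (ch v ≠ 0 ∧ ch v ≠ 1)) →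
        ((k1 * v).re ≤ -(c * ‖v‖) ∧ c * ‖v‖ ≤ (k2 * v).re) ∨
        ((k2 * v).re ≤ -(c * ‖v‖) ∧ c * ‖v‖ ≤ (k1 * v).re)) ∧
      (∀ v, v ≠ 0 → ¬ ((k1 * v).re ≤ -(c * ‖v‖) ∧ c * ‖v‖ ≤ (k2 * v).re) →
        ¬ ((k2 * v).re ≤ -(c * ‖v‖) ∧ c * ‖v‖ ≤ (k1 * v).re) →
        (0 < (v * conj u).im ∧ ∀ᶠ v' in 𝓝 v, ch v' = 1) ∨
        ((v * conj u).im < 0 ∧ ∀ᶠ v' in 𝓝 v, ch v' = 0)) := by
  have n1 : 0 < ‖k1‖ := norm_pos_iff.mpr h1
  have n2 : 0 < ‖k2‖ := norm_pos_iff.mpr h2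
  have hcs := pa_cs h1 h2 h
  set u : ℂ := ((‖k1‖⁻¹ : ℝ) : ℂ) * conj k1 - ((‖k2‖⁻¹ : ℝ) : ℂ) * conj k2 with hu
  have u1 : 0 < (k1 * u).re := by
    have e : k1 * u = ((‖k1‖⁻¹ * ‖k1‖ ^ 2 : ℝ) : ℂ) - ((‖k2‖⁻¹ : ℝ) : ℂ) * (k1 * conj k2) := by
      have e3 : k1 * conj k1 = ((‖k1‖ ^ 2 : ℝ) : ℂ) := by
        rw [Complex.mul_conj, Complex.normSq_eq_norm_sq]
      rw [Complex.ofReal_mul, ← e3, hu]
      ring
    rw [e, Complex.sub_re, Complex.ofReal_re, Complex.re_ofReal_mul]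
    have e4 : ‖k1‖⁻¹ * ‖k1‖ ^ 2 = ‖k2‖⁻¹ * (‖k1‖ * ‖k2‖) := by
      field_simp
    rw [e4, sub_pos]
    exact mul_lt_mul_of_pos_left hcs (inv_pos.mpr n2)
  have u2 : (k2 * u).re < 0 := by
    have e : k2 * u = ((‖k1‖⁻¹ : ℝ) : ℂ) * (k2 * conj k1) - ((‖k2‖⁻¹ * ‖k2‖ ^ 2 : ℝ) : ℂ) := by
      have e3 : k2 * conj k2 = ((‖k2‖ ^ 2 : ℝ) : ℂ) := by
        rw [Complex.mul_conj, Complex.normSq_eq_norm_sq]
      rw [Complex.ofReal_mul, ← e3, hu]
      ring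
    have e5 : (k2 * conj k1).re = (k1 * conj k2).re := by
      simp only [Complex.mul_re, Complex.conj_re, Complex.conj_im]
      ring
    rw [e, Complex.sub_re, Complex.ofReal_re, Complex.re_ofReal_mul, e5]
    have e4 : ‖k2‖⁻¹ * ‖k2‖ ^ 2 = ‖k1‖⁻¹ * (‖k1‖ * ‖k2‖) := by
      field_simp
    rw [e4, sub_neg]
    exact mul_lt_mul_of_pos_left hcs (inv_pos.mpr n1)
  have hu0 : u ≠ 0 := by
    intro h0
    rw [h0, mul_zero, Complex.zero_re] at u1
    exact lt_irrefl _ u1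
  have nu : 0 < ‖u‖ := norm_pos_iff.mpr hu0
  set w : ℂ := ((‖u‖⁻¹ : ℝ) : ℂ) * u with hwd
  have hw : ‖w‖ = 1 := by
    rw [hwd, norm_mul, Complex.norm_real, Real.norm_eq_abs, abs_of_pos (inv_pos.mpr nu), inv_mul_cancel₀ nu.ne']
  have hkw : ∀ k : ℂ, (k * w).re = ‖u‖⁻¹ * (k * u).re := by
    intro k
    rw [hwd, show k * (((‖u‖⁻¹ : ℝ) : ℂ) * u) = ((‖u‖⁻¹ : ℝ) : ℂ) * (k * u) by ring, Complex.re_ofReal_mul]
  have hvu : ∀ v : ℂ, (v * conj u).im = ‖u‖ * (v * conj w).im := by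
    intro v
    have e : conj w = ((‖u‖⁻¹ : ℝ) : ℂ) * conj u := by
      rw [hwd, map_mul, Complex.conj_ofReal]
    rw [e, show v * (((‖u‖⁻¹ : ℝ) : ℂ) * conj u) = ((‖u‖⁻¹ : ℝ) : ℂ) * (v * conj u) by ring, Complex.im_ofReal_mul,
      mul_inv_cancel_left₀ nu.ne']
  have ha1 : 0 < (k1 * w).re := by
    rw [hkw]
    exact mul_pos (inv_pos.mpr nu) u1
  have ha2 : 0 < -(k2 * w).re := by
    rw [hkw]
    have := mul_pos (inv_pos.mpr nu) (neg_pos.mpr u2)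
    linarith
  set a1 : ℝ := (k1 * w).re with hA1
  set a2 : ℝ := -(k2 * w).re with hA2
  obtain ⟨de, hde, hde2, hc1, hc2⟩ : ∃ de : ℝ, 0 < de ∧ de ≤ 1 / 2 ∧ 4 * ‖k1‖ * de ≤ a1 ∧ 4 * ‖k2‖ * de ≤ a2 := by
    refine ⟨min (1 / 2) (min (a1 / (4 * ‖k1‖)) (a2 / (4 * ‖k2‖))), ?_, min_le_left _ _, ?_, ?_⟩
    · exact lt_min (by norm_num) (lt_min (by positivity) (by positivity))
    · have g := (min_le_right (1 / 2) (min (a1 / (4 * ‖k1‖)) (a2 / (4 * ‖k2‖)))).trans (min_le_left _ _)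
      rw [le_div_iff₀ (by positivity)] at g
      linarith
    · have g := (min_le_right (1 / 2) (min (a1 / (4 * ‖k1‖)) (a2 / (4 * ‖k2‖)))).trans (min_le_right _ _)
      rw [le_div_iff₀ (by positivity)] at g
      linarith
  obtain ⟨C, hC, hgrad⟩ := pa_grad w de
  have hcone : ∀ v : ℂ, v ≠ 0 → |paS w v| ≤ de →
      ((k1 * v).re ≤ -(min a1 a2 / 4 * ‖v‖) ∧ min a1 a2 / 4 * ‖v‖ ≤ (k2 * v).re) ∨
        ((k2 * v).re ≤ -(min a1 a2 / 4 * ‖v‖) ∧ min a1 a2 / 4 * ‖v‖ ≤ (k1 * v).re) := fun v hv hs =>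
    pa_cone hw hde hde2 rfl (by rw [hA2, neg_neg]) ha1 ha2 hc1 hc2 hv hs
  refine ⟨u, paC w de, min a1 a2 / 4, C, u1, u2, ?_, hC, ?_, ?_, hgrad, ?_, ?_⟩
  · exact div_pos (lt_min ha1 ha2) (by norm_num)
  · exact fun v hv => (paC_contDiffAt w de hv).contDiffWithinAt
  · intro v
    exact ⟨_, Real.smoothTransition.nonneg _, Real.smoothTransition.le_one _, rfl⟩
  · intro v hv hd
    refine hcone v hv ?_
    by_contra hlt
    rw [not_le, lt_abs] at hlt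
    rcases hlt with hlt | hlt
    · have g := paC_one w hde hv hlt
      rcases hd with hd | hd
      · apply hd
        rw [Pool.Lib.dbar_congr (g : paC w de =ᶠ[𝓝 v] fun _ => 1)]
        exact Pool.Lib.dbar_eq_zero (differentiableAt_const _)
      · exact hd.2 g.self_of_nhds
    · have g := paC_zero w hde hv (by linarith)
      rcases hd with hd | hd
      · apply hd
        rw [Pool.Lib.dbar_congr (g : paC w de =ᶠ[𝓝 v] fun _ => 0)]
        exact Pool.Lib.dbar_eq_zero (differentiableAt_const _)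
      · exact hd.1 g.self_of_nhds
  · intro v hv g1 g2
    have hv0 : 0 < ‖v‖ := norm_pos_iff.mpr hv
    have hs : de < |paS w v| := by
      by_contra hle
      rw [not_lt] at hle
      rcases hcone v hv hle with g | g
      · exact g1 g
      · exact g2 g
    rcases lt_abs.mp hs with hs | hs
    · left
      refine ⟨?_, paC_one w hde hv hs⟩
      have g : 0 < (v * conj w).im := by
        have g3 : 0 < paS w v := hde.trans hs
        unfold paS at g3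
        exact (div_pos_iff_of_pos_right hv0).mp g3
      rw [hvu]
      exact mul_pos nu g
    · right
      refine ⟨?_, paC_zero w hde hv (by linarith)⟩
      have g : (v * conj w).im < 0 := by
        have g3 : paS w v < 0 := by linarith
        unfold paS at g3
        by_contra hge
        rw [not_lt] at hge
        exact absurd g3 (not_lt.mpr (div_nonneg hge hv0.le))
      rw [hvu]
      exact mul_neg_of_pos_of_neg nu g

end Pool.Agent.TBirS
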