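import Pool.Agent.TBirS.Sect
import Pool.Agent.TBirS.Plan

/-!
# The cutoff function near a double point
-/

set_option autoImplicit false

open MeasureTheory Complex Set Filter Topology Metric AddCircle
open scoped ComplexConjugate InnerProductSpace ENNReal
open Pool.Lib (dbar)

namespace Pool.Agent.TBirS

open Pool.Agent.TBir

private theorem cutl_lem1 {z a t : ℝ} (_hz : 0 ≤ z) (ht0 : 0 ≤ t) (_ht1 : t ≤ 1)
    (h : |z ^ 2 - 1 - 2 * a| ≤ t) (ha : a ≤ -t) : z ≤ 1 - t / 3 := by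
  have h1 := (abs_le.1 h).2
  nlinarith [sq_nonneg (z - 1)]

private theorem cutl_lem2 {z a t : ℝ} (hz : 0 ≤ z) (ht0 : 0 ≤ t) (ht1 : t ≤ 1)
    (h : |z ^ 2 - 1 - 2 * a| ≤ t) (ha : t ≤ a) : 1 + t / 3 ≤ z := by
  have h1 := (abs_le.1 h).1
  by_contra hc
  push Not at hc
  nlinarith [sq_nonneg t]

theorem cut_loc {phi : ℂ → ℂ} (hana : AnalyticOnNhd ℂ phi (sphere 0 1)) {q : ℂ} (D : LS phi q)
    {Q : Set ℂ} (hQ : Q.Finite) {U1 U2 : Set ℂ} (o1 : IsOpen U1) (o2 : IsOpen U2)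
    (hdis : Disjoint U1 U2) (hcov : Sg phi \ Q ⊆ U1 ∪ U2) :
    ∃ (f : ℂ → ℂ) (R c C : ℝ), 0 < R ∧ 0 < c ∧ R ≤ D.r ∧ ContDiffOn ℝ 1 f {q}ᶜ ∧
      (∀ l, ∃ t : ℝ, 0 ≤ t ∧ t ≤ 1 ∧ f l = t) ∧
      (∀ l, l ≠ q → ‖dbar f l‖ ≤ C / ‖l - q‖) ∧
      (∀ l ∈ ball q R, l ≠ q → (dbar f l ≠ 0 ∨ (f l ≠ 0 ∧ f l ≠ 1)) →
        (‖D.z1 l‖ ≤ 1 - c * ‖l - q‖ ∧ 1 + c * ‖l - q‖ ≤ ‖D.z2 l‖) ∨
        (‖D.z2 l‖ ≤ 1 - c * ‖l - q‖ ∧ 1 + c * ‖l - q‖ ≤ ‖D.z1 l‖)) ∧
      (∀ l ∈ ball q R, l ≠ q → l ∈ Sg phi → l ∈ U1 → ∀ᶠ l' in 𝓝 l, f l' = 1) ∧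
      (∀ l ∈ ball q R, l ≠ q → l ∈ Sg phi → l ∈ U2 → ∀ᶠ l' in 𝓝 l, f l' = 0) := by
  obtain ⟨u, ch, c, C, hu1, hu2, hc, hC, hsm, hval, hgr, hloc, hside⟩ :=
    planar2 D.k1_ne D.k2_ne D.opp
  obtain ⟨R1, hR1, -, hp⟩ := sector hana D hu1 hu2 hQ o1 o2 hdis hcov
  obtain ⟨R2, hR2, -, hm⟩ := sector hana D.swap (u := -u)
    (by change 0 < (D.k2 * -u).re; rw [mul_neg, Complex.neg_re]; linarith)
    (by change (D.k1 * -u).re < 0; rw [mul_neg, Complex.neg_re]; linarith) hQ o1 o2 hdis hcov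
  obtain ⟨ap, hap⟩ : ∃ ap : ℝ,
      (ap = 1 ∧ ∀ l ∈ ball q R1, l ∈ Sg phi → 0 < ((l - q) * conj u).im → l ∈ U1) ∨
      (ap = 0 ∧ ∀ l ∈ ball q R1, l ∈ Sg phi → 0 < ((l - q) * conj u).im → l ∈ U2) := by
    rcases hp with h | h
    · exact ⟨1, Or.inl ⟨rfl, h⟩⟩
    · exact ⟨0, Or.inr ⟨rfl, h⟩⟩
  have hneg : ∀ l : ℂ, ((l - q) * conj u).im < 0 → 0 < ((l - q) * conj (-u)).im := by
    intro l h
    rw [map_neg, mul_neg, Complex.neg_im]
    linarith
  obtain ⟨am, ham⟩ : ∃ am : ℝ,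
      (am = 1 ∧ ∀ l ∈ ball q R2, l ∈ Sg phi → ((l - q) * conj u).im < 0 → l ∈ U1) ∨
      (am = 0 ∧ ∀ l ∈ ball q R2, l ∈ Sg phi → ((l - q) * conj u).im < 0 → l ∈ U2) := by
    rcases hm with h | h
    · exact ⟨1, Or.inl ⟨rfl, fun l h1 h2 h3 => h l h1 h2 (hneg l h3)⟩⟩
    · exact ⟨0, Or.inr ⟨rfl, fun l h1 h2 h3 => h l h1 h2 (hneg l h3)⟩⟩
  have ap01 : ap = 0 ∨ ap = 1 := by
    rcases hap with h | h
    · exact Or.inr h.1
    · exact Or.inl h.1
  have am01 : am = 0 ∨ am = 1 := by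
    rcases ham with h | h
    · exact Or.inr h.1
    · exact Or.inl h.1
  have hB : 0 < |D.B| + 1 := by positivity
  obtain ⟨R, hR0, hRr, hRR1, hRR2, hRB, hRc⟩ : ∃ R : ℝ, 0 < R ∧ R ≤ D.r ∧ R ≤ R1 ∧ R ≤ R2 ∧
      R ≤ c / (|D.B| + 1) ∧ R ≤ 1 / c := by
    refine ⟨min D.r (min R1 (min R2 (min (c / (|D.B| + 1)) (1 / c)))), ?_, ?_, ?_, ?_, ?_, ?_⟩
    · exact lt_min D.r_pos (lt_min hR1 (lt_min hR2 (lt_min (by positivity) (by positivity))))
    · exact min_le_left _ _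
    · exact (min_le_right _ _).trans (min_le_left _ _)
    · exact (min_le_right _ _).trans ((min_le_right _ _).trans (min_le_left _ _))
    · exact (min_le_right _ _).trans ((min_le_right _ _).trans ((min_le_right _ _).trans
        (min_le_left _ _)))
    · exact (min_le_right _ _).trans ((min_le_right _ _).trans ((min_le_right _ _).trans
        (min_le_right _ _)))
  have hball : ball q R ⊆ ball q D.r := ball_subset_ball hRr
  have key : ∀ l ∈ ball q R, c * ‖l - q‖ ≤ 1 ∧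
      |‖D.z1 l‖ ^ 2 - 1 - 2 * (D.k1 * (l - q)).re| ≤ c * ‖l - q‖ ∧
      |‖D.z2 l‖ ^ 2 - 1 - 2 * (D.k2 * (l - q)).re| ≤ c * ‖l - q‖ := by
    intro l hl
    have hv : ‖l - q‖ < R := mem_ball_iff_norm.1 hl
    have hv1 : ‖l - q‖ < c / (|D.B| + 1) := lt_of_lt_of_le hv hRB
    have hv2 : ‖l - q‖ < 1 / c := lt_of_lt_of_le hv hRc
    rw [lt_div_iff₀ hB] at hv1
    rw [lt_div_iff₀ hc] at hv2
    have hn := norm_nonneg (l - q)
    have hBB : D.B * ‖l - q‖ ^ 2 ≤ c * ‖l - q‖ := by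
      have a1 : D.B ≤ |D.B| := le_abs_self _
      have a2 : D.B * ‖l - q‖ ≤ c := by nlinarith
      nlinarith
    exact ⟨by linarith [mul_comm c ‖l - q‖], (D.z1_exp l (hball hl)).trans hBB,
      (D.z2_exp l (hball hl)).trans hBB⟩
  have hcont : ∀ l : ℂ, Tendsto (fun l' : ℂ => l' - q) (𝓝 l) (𝓝 (l - q)) := fun l =>
    (continuous_id.sub continuous_const).tendsto l
  -- the point of the spectrum is not in the two cones
  have hcone : ∀ l ∈ ball q R, l ≠ q → l ∈ Sg phi →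
      (0 < ((l - q) * conj u).im ∧ ∀ᶠ v' in 𝓝 (l - q), ch v' = 1) ∨
        (((l - q) * conj u).im < 0 ∧ ∀ᶠ v' in 𝓝 (l - q), ch v' = 0) := by
    intro l hl hlq hS
    rw [D.mem_Sg_iff (hball hl)] at hS
    obtain ⟨k0, k1, k2⟩ := key l hl
    have hn : 0 < ‖l - q‖ := norm_pos_iff.2 (sub_ne_zero.2 hlq)
    have hcn : 0 < c * ‖l - q‖ := by positivity
    refine hside _ (sub_ne_zero.2 hlq) ?_ ?_
    · rintro ⟨u1, u2⟩
      have a1 := cutl_lem1 (norm_nonneg _) hcn.le k0 k1 u1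
      have a2 := cutl_lem2 (norm_nonneg _) hcn.le k0 k2 u2
      nlinarith
    · rintro ⟨u1, u2⟩
      have a1 := cutl_lem1 (norm_nonneg _) hcn.le k0 k2 u1
      have a2 := cutl_lem2 (norm_nonneg _) hcn.le k0 k1 u2
      nlinarith
  -- `dbar` of the function
  have hdb : ∀ l, l ≠ q → dbar (fun l => (am : ℂ) + ((ap - am : ℝ) : ℂ) * ch (l - q)) l =
      ((ap - am : ℝ) : ℂ) * dbar ch (l - q) := by
    intro l hl
    have hd : DifferentiableAt ℝ ch (l - q) := by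
      have : ContDiffAt ℝ 1 ch (l - q) :=
        hsm.contDiffAt (isOpen_compl_singleton.mem_nhds (sub_ne_zero.2 hl))
      exact this.differentiableAt one_ne_zero
    have hd2 : DifferentiableAt ℝ (fun l => ch (l - q)) l :=
      hd.comp l (differentiableAt_id.sub_const q)
    have h1 : fderiv ℝ (fun l => (am : ℂ) + ((ap - am : ℝ) : ℂ) * ch (l - q)) l =
        ((ap - am : ℝ) : ℂ) • fderiv ℝ (fun l => ch (l - q)) l := by
      rw [fderiv_const_add, fderiv_const_mul hd2]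
    unfold dbar
    rw [h1, fderiv_comp_sub]
    simp only [smul_apply, smul_eq_mul]
    ring
  have hone : ∀ l, ch (l - q) = 1 → (am : ℂ) + ((ap - am : ℝ) : ℂ) * ch (l - q) = ap := by
    intro l h
    rw [h]
    push_cast
    ring
  have hzero : ∀ l, ch (l - q) = 0 → (am : ℂ) + ((ap - am : ℝ) : ℂ) * ch (l - q) = am := by
    intro l h
    rw [h]
    ring
  have habs : |ap - am| ≤ 1 := by
    rcases ap01 with h | h <;> rcases am01 with h' | h' <;> rw [h, h'] <;> norm_num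
  refine ⟨fun l => (am : ℂ) + ((ap - am : ℝ) : ℂ) * ch (l - q), R, c / 3, C, hR0, by positivity, hRr,
    ?_, fun l => ?_, ?_, ?_, ?_, ?_⟩
  · refine contDiffOn_const.add (contDiffOn_const.mul
      (hsm.comp (contDiff_id.sub contDiff_const).contDiffOn ?_))
    intro l hl
    exact fun h => hl (sub_eq_zero.1 h)
  · obtain ⟨t, t0, t1, ht⟩ := hval (l - q)
    refine ⟨am + (ap - am) * t, ?_, ?_, ?_⟩
    · rcases ap01 with h | h <;> rcases am01 with h' | h' <;> rw [h, h'] <;> linarith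
    · rcases ap01 with h | h <;> rcases am01 with h' | h' <;> rw [h, h'] <;> linarith
    · simp only [ht]
      push_cast
      ring
  · intro l hl
    rw [hdb l hl, norm_mul, Complex.norm_real, Real.norm_eq_abs]
    calc |ap - am| * ‖dbar ch (l - q)‖ ≤ 1 * ‖dbar ch (l - q)‖ :=
          mul_le_mul_of_nonneg_right habs (norm_nonneg _)
      _ ≤ C / ‖l - q‖ := by rw [one_mul]; exact hgr _ (sub_ne_zero.2 hl)
  · intro l hl hlq hd
    rw [hdb l hlq] at hd
    have hd' : dbar ch (l - q) ≠ 0 ∨ (ch (l - q) ≠ 0 ∧ ch (l - q) ≠ 1) := by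
      rcases hd with h | ⟨h, h'⟩
      · exact Or.inl (right_ne_zero_of_mul h)
      · right
        constructor
        · intro h0
          simp only [h0, mul_zero, add_zero] at h h'
          rcases am01 with h2 | h2 <;> rw [h2] at h h' <;> simp at h h'
        · intro h0
          have h3 := hone l h0
          simp only at h h'
          rw [h3] at h h'
          rcases ap01 with h2 | h2 <;> rw [h2] at h h' <;> simp at h h'
    obtain ⟨k0, k1, k2⟩ := key l hl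
    have hn := norm_nonneg (l - q)
    have hcn : 0 ≤ c * ‖l - q‖ := by positivity
    have e : c / 3 * ‖l - q‖ = c * ‖l - q‖ / 3 := by ring
    rw [e]
    rcases hloc _ (sub_ne_zero.2 hlq) hd' with ⟨u1, u2⟩ | ⟨u1, u2⟩
    · exact Or.inl ⟨cutl_lem1 (norm_nonneg _) hcn k0 k1 u1, cutl_lem2 (norm_nonneg _) hcn k0 k2 u2⟩
    · exact Or.inr ⟨cutl_lem1 (norm_nonneg _) hcn k0 k2 u1, cutl_lem2 (norm_nonneg _) hcn k0 k1 u2⟩
  · intro l hl hlq hS hU
    rcases hcone l hl hlq hS with ⟨hs, he⟩ | ⟨hs, he⟩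
    · have h1 : ap = 1 := by
        rcases hap with h | h
        · exact h.1
        · exact absurd (h.2 l (ball_subset_ball hRR1 hl) hS hs) (Set.disjoint_left.1 hdis hU)
      filter_upwards [(hcont l).eventually he] with l' hl'
      rw [hone l' hl', h1]
      simp
    · have h1 : am = 1 := by
        rcases ham with h | h
        · exact h.1
        · exact absurd (h.2 l (ball_subset_ball hRR2 hl) hS hs) (Set.disjoint_left.1 hdis hU)
      filter_upwards [(hcont l).eventually he] with l' hl'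
      rw [hzero l' hl', h1]
      simp
  · intro l hl hlq hS hU
    rcases hcone l hl hlq hS with ⟨hs, he⟩ | ⟨hs, he⟩
    · have h1 : ap = 0 := by
        rcases hap with h | h
        · exact absurd hU (Set.disjoint_left.1 hdis (h.2 l (ball_subset_ball hRR1 hl) hS hs))
        · exact h.1
      filter_upwards [(hcont l).eventually he] with l' hl'
      rw [hone l' hl', h1]
      simp
    · have h1 : am = 0 := by
        rcases ham with h | h
        · exact absurd hU (Set.disjoint_left.1 hdis (h.2 l (ball_subset_ball hRR2 hl) hS hs))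
        · exact h.1
      filter_upwards [(hcont l).eventually he] with l' hl'
      rw [hzero l' hl', h1]
      simp

end Pool.Agent.TBirS
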