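import Pool.Agent.TBir.LDex
import Pool.Agent.TBir.FrameEx
import Pool.Agent.TBir.WdLD
import Pool.Agent.TBirG.Qs

/-!
# Local data at a double point with arbitrary contact

`LS` is the local data `LD` of TBir without the transversality. `Sg phi` is the spectrum of the
Toeplitz operator.
-/

set_option autoImplicit false

open MeasureTheory Complex Set Filter Topology Metric AddCircle
open scoped ComplexConjugate InnerProductSpace ENNReal

namespace Pool.Agent.TBirS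

open Pool.Agent.TBir

/-- The curve and the points with nonzero winding number. -/
def Sg (phi : ℂ → ℂ) : Set ℂ := {l | l ∈ J phi ∨ wd phi l ≠ 0}

/-- Local data at the point `l0`, a value taken at the two points `z1 l0`, `z2 l0` of the circle. -/
structure LS (phi : ℂ → ℂ) (l0 : ℂ) where
  r : ℝ
  del : ℝ
  m : ℝ
  M : ℝ
  B : ℝ
  z1 : ℂ → ℂ
  z2 : ℂ → ℂ
  k1 : ℂ
  k2 : ℂ
  psi : ℂ → ℂ → ℂ
  Psi : ℂ → CT
  r_pos : 0 < r
  del_pos : 0 < del
  del_lt : del < 1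
  m_pos : 0 < m
  z1_diff : DifferentiableOn ℂ z1 (ball l0 r)
  z2_diff : DifferentiableOn ℂ z2 (ball l0 r)
  z_ne : ∀ l ∈ ball l0 r, z1 l ≠ z2 l
  z1_one : ‖z1 l0‖ = 1
  z2_one : ‖z2 l0‖ = 1
  z1_sol : ∀ l ∈ ball l0 r, z1 l ∈ ann del ∧ phi (z1 l) = l
  z2_sol : ∀ l ∈ ball l0 r, z2 l ∈ ann del ∧ phi (z2 l) = l
  k1_ne : k1 ≠ 0
  k2_ne : k2 ≠ 0
  z1_exp : ∀ l ∈ ball l0 r, |‖z1 l‖ ^ 2 - 1 - 2 * (k1 * (l - l0)).re| ≤ B * ‖l - l0‖ ^ 2
  z2_exp : ∀ l ∈ ball l0 r, |‖z2 l‖ ^ 2 - 1 - 2 * (k2 * (l - l0)).re| ≤ B * ‖l - l0‖ ^ 2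
  opp : ∀ a : ℝ, 0 < a → k2 ≠ a * k1
  psi_diff : ∀ l ∈ ball l0 r, DifferentiableOn ℂ (psi l) (ann del)
  fac : ∀ l ∈ ball l0 r, ∀ w ∈ ann del, phi w - l = psi l w * ((w - z1 l) * (w - z2 l))
  psi_lb : ∀ l ∈ ball l0 r, ∀ w ∈ ann del, m ≤ ‖psi l w‖
  psi_ub : ∀ l ∈ ball l0 r, ∀ w ∈ ann del, ‖psi l w‖ ≤ M
  Psi_eq : ∀ l ∈ ball l0 r, ∀ t, Psi l t = psi l (e t)
  Psi_diff : DifferentiableOn ℂ Psi (ball l0 r)
  wind_eq : ∀ l ∈ ball l0 r, wind (psi l) = ((-1 : ℤ) : ℂ)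

/-- Local data with the two zeros exchanged. -/
def LS.swap {phi : ℂ → ℂ} {l0 : ℂ} (D : LS phi l0) : LS phi l0 where
  r := D.r
  del := D.del
  m := D.m
  M := D.M
  B := D.B
  z1 := D.z2
  z2 := D.z1
  k1 := D.k2
  k2 := D.k1
  psi := D.psi
  Psi := D.Psi
  r_pos := D.r_pos
  del_pos := D.del_pos
  del_lt := D.del_lt
  m_pos := D.m_pos
  z1_diff := D.z2_diff
  z2_diff := D.z1_diff
  z_ne := fun l hl => (D.z_ne l hl).symm
  z1_one := D.z2_one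
  z2_one := D.z1_one
  z1_sol := D.z2_sol
  z2_sol := D.z1_sol
  k1_ne := D.k2_ne
  k2_ne := D.k1_ne
  z1_exp := D.z2_exp
  z2_exp := D.z1_exp
  opp := by
    intro a ha h
    apply D.opp a⁻¹ (inv_pos.2 ha)
    have ha' : (a : ℂ) ≠ 0 := by exact_mod_cast ha.ne'
    rw [h]
    push_cast
    rw [← mul_assoc, inv_mul_cancel₀ ha', one_mul]
  psi_diff := D.psi_diff
  fac := by
    intro l hl w hw
    rw [D.fac l hl w hw, mul_comm (w - D.z1 l)]
  psi_lb := D.psi_lb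
  psi_ub := D.psi_ub
  Psi_eq := D.Psi_eq
  Psi_diff := D.Psi_diff
  wind_eq := D.wind_eq

theorem LS.hasWH {phi : ℂ → ℂ} {l0 : ℂ} (D : LS phi l0) :
    ∃ C eta : ℝ, 0 < C ∧ 0 < eta ∧ ∀ l ∈ ball l0 D.r, HasWH C eta (D.Psi l) (-1) := by
  obtain ⟨C, eta, hC, heta, h⟩ := Pool.Agent.TBir.hasWH (M := D.M) D.del_pos D.del_lt D.m_pos (-1)
  exact ⟨C, eta, hC, heta, fun l hl => h (D.psi l) (D.psi_diff l hl)
    (fun w hw => ⟨D.psi_lb l hl w hw, D.psi_ub l hl w hw⟩) (D.wind_eq l hl) _ (D.Psi_eq l hl)⟩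

private theorem loc_ann {d : ℝ} (hd : 0 < d) {w : ℂ} (hw : ‖w‖ = 1) : w ∈ ann d := by
  refine ⟨?_, ?_⟩ <;> rw [hw] <;> linarith

theorem LS.mem_J_iff {phi : ℂ → ℂ} {l0 : ℂ} (D : LS phi l0) {l : ℂ} (hl : l ∈ ball l0 D.r) :
    l ∈ J phi ↔ ‖D.z1 l‖ = 1 ∨ ‖D.z2 l‖ = 1 := by
  constructor
  · rintro ⟨w, hw, hwl⟩
    rw [mem_sphere_zero_iff_norm] at hw
    have hwa := loc_ann D.del_pos hw
    have h1 := D.fac l hl w hwa
    have h2 := D.psi_lb l hl w hwa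
    have h3 : D.psi l w ≠ 0 := by
      intro h4
      rw [h4, norm_zero] at h2
      exact absurd D.m_pos (not_lt.2 h2)
    rw [hwl, sub_self] at h1
    have h5 := (mul_eq_zero.1 h1.symm).resolve_left h3
    rcases mul_eq_zero.1 h5 with h6 | h6
    · left
      rw [← sub_eq_zero.1 h6]
      exact hw
    · right
      rw [← sub_eq_zero.1 h6]
      exact hw
  · rintro (h1 | h1)
    · exact ⟨D.z1 l, mem_sphere_zero_iff_norm.2 h1, (D.z1_sol l hl).2⟩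
    · exact ⟨D.z2 l, mem_sphere_zero_iff_norm.2 h1, (D.z2_sol l hl).2⟩

theorem LS.wd_eq {phi : ℂ → ℂ} {l0 : ℂ} (D : LS phi l0) {l : ℂ} (hl : l ∈ ball l0 D.r)
    (hJ : l ∉ J phi) : wd phi l = ((-1 : ℤ) : ℂ) + (if ‖D.z1 l‖ < 1 then 1 else 0) +
      (if ‖D.z2 l‖ < 1 then 1 else 0) := by
  rw [D.mem_J_iff hl, not_or] at hJ
  obtain ⟨hz1, hz2⟩ := hJ
  have hsub : ∀ z ∈ sphere (0 : ℂ) 1, z ∈ ann D.del := fun z hz =>
    loc_ann D.del_pos (mem_sphere_zero_iff_norm.1 hz)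
  have h1 : wd phi l = wind (fun w => D.psi l w * ((w - D.z1 l) * (w - D.z2 l))) := by
    refine wind_congr fun z hz => ?_
    filter_upwards [(isOpen_ann D.del).mem_nhds (hsub z hz)] with w hw
    exact D.fac l hl w hw
  have hne : ∀ a : ℂ, ‖a‖ ≠ 1 → ∀ z ∈ sphere (0 : ℂ) 1, z - a ≠ 0 := by
    intro a ha z hz h2
    rw [sub_eq_zero] at h2
    rw [mem_sphere_zero_iff_norm, h2] at hz
    exact ha hz
  have han : ∀ a : ℂ, AnalyticOnNhd ℂ (fun w : ℂ => w - a) (sphere 0 1) := fun a z _ =>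
    analyticAt_id.sub analyticAt_const
  have h2 : wind (fun w => (w - D.z1 l) * (w - D.z2 l)) =
      wind (fun w => w - D.z1 l) + wind (fun w => w - D.z2 l) :=
    wind_mul (han _) (han _) (hne _ hz1) (hne _ hz2)
  have h3 : wind (fun w => D.psi l w * ((w - D.z1 l) * (w - D.z2 l))) =
      wind (D.psi l) + wind (fun w => (w - D.z1 l) * (w - D.z2 l)) := by
    refine wind_mul (fun z hz => ?_) ((han _).mul (han _)) (fun z hz h4 => ?_) (fun z hz => ?_)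
    · exact (D.psi_diff l hl).analyticAt ((isOpen_ann D.del).mem_nhds (hsub z hz))
    · have h5 := D.psi_lb l hl z (hsub z hz)
      rw [h4, norm_zero] at h5
      exact absurd D.m_pos (not_lt.2 h5)
    · exact mul_ne_zero (hne _ hz1 z hz) (hne _ hz2 z hz)
  rw [h1, h3, h2, D.wind_eq l hl, wind_sub_const hz1, wind_sub_const hz2, add_assoc]

/-- The spectrum near a double point: both zeros in the closed disc or both off the open disc. -/
theorem LS.mem_Sg_iff {phi : ℂ → ℂ} {l0 : ℂ} (D : LS phi l0) {l : ℂ} (hl : l ∈ ball l0 D.r) :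
    l ∈ Sg phi ↔ 0 ≤ (‖D.z1 l‖ - 1) * (‖D.z2 l‖ - 1) := by
  by_cases hJ : l ∈ J phi
  · have h1 : l ∈ Sg phi := Or.inl hJ
    rw [D.mem_J_iff hl] at hJ
    simp only [h1, true_iff]
    rcases hJ with h | h <;> rw [h] <;> simp
  · have h1 : l ∈ Sg phi ↔ wd phi l ≠ 0 := by
      unfold Sg
      simp [hJ]
    have h2 := hJ
    rw [D.mem_J_iff hl, not_or] at h2
    rw [h1, D.wd_eq hl hJ]
    rcases lt_or_gt_of_ne h2.1 with a | a <;> rcases lt_or_gt_of_ne h2.2 with b | b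
    · rw [if_pos a, if_pos b]
      have h3 : 0 ≤ (‖D.z1 l‖ - 1) * (‖D.z2 l‖ - 1) :=
        mul_nonneg_of_nonpos_of_nonpos (by linarith) (by linarith)
      simp [h3]
    · rw [if_pos a, if_neg (by linarith)]
      have h3 : ¬ 0 ≤ (‖D.z1 l‖ - 1) * (‖D.z2 l‖ - 1) := by
        rw [not_le]
        exact mul_neg_of_neg_of_pos (by linarith) (by linarith)
      simp [h3]
    · rw [if_neg (by linarith), if_pos b]
      have h3 : ¬ 0 ≤ (‖D.z1 l‖ - 1) * (‖D.z2 l‖ - 1) := by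
        rw [not_le]
        exact mul_neg_of_pos_of_neg (by linarith) (by linarith)
      simp [h3]
    · rw [if_neg (by linarith), if_neg (by linarith)]
      have h3 : 0 ≤ (‖D.z1 l‖ - 1) * (‖D.z2 l‖ - 1) :=
        mul_nonneg (by linarith) (by linarith)
      simp [h3]

end Pool.Agent.TBirS
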