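import Pool.Agent.TBir.SeqE
import Pool.Agent.TBir.TpC
import Pool.Agent.TBirS.Loc

/-!
# The difference of the resolvent and the Toeplitz operator of the resolvent symbol

The bound of Pool/Agent/TBir/DBd.lean for the data `LS`.
-/

set_option autoImplicit false

open MeasureTheory Complex Set Filter Topology Metric AddCircle
open scoped ComplexConjugate InnerProductSpace ENNReal

namespace Pool.Agent.TBirS

open Pool.Agent.TBir

private theorem ct_fac {phi : ℂ → ℂ} {l0 : ℂ} (D : LS phi l0) {Phi : CT}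
    (hPhi : ∀ x, Phi x = phi (e x)) {l : ℂ} (hl : l ∈ ball l0 D.r) :
    Phi - algebraMap ℂ CT l = D.Psi l *
      ((fourier 1 - algebraMap ℂ CT (D.z1 l)) * (fourier 1 - algebraMap ℂ CT (D.z2 l))) := by
  ext x
  have := D.fac l hl (e x) (e_mem_ann D.del_pos x)
  simp only [Algebra.algebraMap_eq_smul_one, ContinuousMap.sub_apply, ContinuousMap.mul_apply,
    ContinuousMap.smul_apply, ContinuousMap.one_apply, smul_eq_mul, mul_one]
  rw [hPhi, D.Psi_eq l hl, fourier_one_apply]
  exact this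

private theorem fourier_neg_mul : (fourier (-1) : CT) * fourier 1 = 1 := by
  ext x
  rw [ContinuousMap.mul_apply, ← fourier_add, ContinuousMap.one_apply]
  simp

private theorem T_neg' (x : CT) : T (-x) = -T x := by
  have h : -x = (-1 : ℂ) • x := by
    ext t
    rw [ContinuousMap.neg_apply, ContinuousMap.smul_apply, neg_one_smul]
  rw [h, T_smul, neg_one_smul]

private theorem smul_ct (z : ℂ) (x : CT) : (z • x : CT) = algebraMap ℂ CT z * x := by
  ext t
  rw [ContinuousMap.smul_apply, ContinuousMap.mul_apply, Algebra.algebraMap_eq_smul_one,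
    ContinuousMap.smul_apply, ContinuousMap.one_apply, smul_eq_mul, smul_eq_mul, mul_one]

private theorem minus_one_sub (z : ℂ) : Minus (1 - z • fourier (-1) : CT) := by
  have h1 : (1 : CT) = algebraMap ℂ CT 1 := by rw [map_one]
  have h2 : (z • fourier (-1) : CT) = algebraMap ℂ CT z * fourier (-1) := smul_ct z _
  rw [h2, h1]
  exact (minus_algebraMap 1).sub ((minus_algebraMap z).mul (minus_fourier (by norm_num)))

/-- resolvent from an inverse of `A - l` -/
private theorem resolvent_eq_neg {A : Type*} [Ring A] [Algebra ℂ A] {x y : A} {l : ℂ}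
    (h1 : (x - algebraMap ℂ A l) * y = 1) (h2 : y * (x - algebraMap ℂ A l) = 1) :
    resolvent x l = -y := by
  unfold resolvent
  have e1 : (algebraMap ℂ A l - x) * (-y) = 1 := by
    rw [mul_neg, ← neg_mul, neg_sub, h1]
  have e2 : (-y) * (algebraMap ℂ A l - x) = 1 := by
    rw [neg_mul, ← mul_neg, neg_sub, h2]
  exact Ring.inverse_unit (⟨algebraMap ℂ A l - x, -y, e1, e2⟩ : Aˣ)

private theorem summable_pow_succ {v : ℂ} (hv : ‖v‖ < 1) :
    Summable fun j : ℕ => ‖-v ^ (j + 1)‖ := by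
  have h : (fun j : ℕ => ‖-v ^ (j + 1)‖) = fun j : ℕ => ‖v‖ ^ j * ‖v‖ := by
    funext j
    rw [norm_neg, norm_pow, pow_succ]
  rw [h]
  exact (summable_geometric_of_lt_one (norm_nonneg v) hv).mul_right _

private theorem summable_pow_self {v : ℂ} (hv : ‖v‖ < 1) :
    Summable fun j : ℕ => ‖v ^ j‖ := by
  have h : (fun j : ℕ => ‖v ^ j‖) = fun j : ℕ => ‖v‖ ^ j := by
    funext j
    rw [norm_pow]
  rw [h]
  exact summable_geometric_of_lt_one (norm_nonneg v) hv

/-- the operator as a semicommutator -/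
private theorem res_sub {Phi : CT} {l : ℂ} {a d m0 p0 : CT} (ha : Plus a) (hd : Minus d)
    (hm : Minus m0) (hp : Plus p0) (hfac : Phi - algebraMap ℂ CT l = m0 * p0)
    (hap : a * p0 = 1) (hdm : d * m0 = 1) :
    resolvent (T Phi) l - T (resolvent Phi l) = T (a * d) - T a * T d := by
  have r1 : resolvent Phi l = -(a * d) := by
    apply resolvent_eq_neg
    · rw [hfac]
      calc m0 * p0 * (a * d) = (a * p0) * (d * m0) := by ring
        _ = 1 := by rw [hap, hdm, one_mul]
    · rw [hfac]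
      calc a * d * (m0 * p0) = (a * p0) * (d * m0) := by ring
        _ = 1 := by rw [hap, hdm, one_mul]
  have t1 : T a * T p0 = 1 := by rw [← T_mul_right a hp, hap, T_one]
  have t2 : T p0 * T a = 1 := by rw [← T_mul_right p0 ha, mul_comm, hap, T_one]
  have t3 : T d * T m0 = 1 := by rw [← T_mul_left hd m0, hdm, T_one]
  have t4 : T m0 * T d = 1 := by rw [← T_mul_left hm d, mul_comm, hdm, T_one]
  have hT : T Phi - algebraMap ℂ (Hardy →L[ℂ] Hardy) l = T m0 * T p0 := by
    rw [← T_mul_left hm p0, ← hfac, T_sub, T_algebraMap, Algebra.algebraMap_eq_smul_one]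
  have r2 : resolvent (T Phi) l = -(T a * T d) := by
    apply resolvent_eq_neg
    · rw [hT]
      calc T m0 * T p0 * (T a * T d) = T m0 * (T p0 * T a) * T d := by
            simp only [mul_assoc]
        _ = 1 := by rw [t2, mul_one, t4]
    · rw [hT]
      calc T a * T d * (T m0 * T p0) = T a * (T d * T m0) * T p0 := by
            simp only [mul_assoc]
        _ = 1 := by rw [t3, mul_one, t1]
  rw [r1, r2, T_neg']
  abel

theorem dbdS {phi : ℂ → ℂ} {Phi : CT} (hPhi : ∀ x, Phi x = phi (e x)) {q : ℂ} (D : LS phi q) :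
    ∃ C s : ℝ, 0 < C ∧ 0 < s ∧ s ≤ D.r ∧ ∀ l ∈ ball q s, ‖D.z1 l‖ < 1 → 1 < ‖D.z2 l‖ →
      ∀ f g : Hardy,
        ‖inner ℂ g ((resolvent (T Phi) l - T (resolvent Phi l)) f)‖ ≤
          C * (‖ev (D.z1 l) f‖ + ‖f‖) * (‖ev (conj (D.z2 l))⁻¹ g‖ + ‖g‖) := by
  have h1 := D.z1_one
  have h2 := D.z2_one
  obtain ⟨C1, eta, hC1, heta, hWH⟩ := D.hasWH
  have hq : q ∈ ball q D.r := mem_ball_self D.r_pos
  have hne : D.z1 q ≠ D.z2 q := D.z_ne q hq
  set c : ℝ := ‖D.z1 q - D.z2 q‖ / 2 with hc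
  have hc0 : 0 < c := by
    have : 0 < ‖D.z1 q - D.z2 q‖ := norm_pos_iff.mpr (sub_ne_zero.mpr hne)
    positivity
  obtain ⟨K, hK, hseq⟩ := seq_est hC1 heta hc0
  have cont1 : ContinuousAt D.z1 q :=
    D.z1_diff.continuousOn.continuousAt (isOpen_ball.mem_nhds hq)
  have cont2 : ContinuousAt D.z2 q :=
    D.z2_diff.continuousOn.continuousAt (isOpen_ball.mem_nhds hq)
  have hz2q : D.z2 q ≠ 0 := by
    intro h0
    rw [h0, norm_zero] at h2
    exact zero_ne_one h2
  have cont2i : ContinuousAt (fun l => (D.z2 l)⁻¹) q := cont2.inv₀ hz2q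
  have hexp : Real.exp (-(eta / 2)) < 1 := by
    rw [Real.exp_lt_one_iff]
    linarith
  have ev1 : ∀ᶠ l in 𝓝 q, Real.exp (-(eta / 2)) < ‖D.z1 l‖ := by
    apply cont1.norm.eventually_const_lt
    change Real.exp (-(eta / 2)) < ‖D.z1 q‖
    rw [h1]
    exact hexp
  have ev2 : ∀ᶠ l in 𝓝 q, Real.exp (-(eta / 2)) < ‖(D.z2 l)⁻¹‖ := by
    apply cont2i.norm.eventually_const_lt
    change Real.exp (-(eta / 2)) < ‖(D.z2 q)⁻¹‖
    rw [norm_inv, h2, inv_one]
    exact hexp
  have cont3 : ContinuousAt (fun l => 1 - D.z1 l * (D.z2 l)⁻¹) q :=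
    continuousAt_const.sub (cont1.mul cont2i)
  have ev3 : ∀ᶠ l in 𝓝 q, c < ‖1 - D.z1 l * (D.z2 l)⁻¹‖ := by
    apply cont3.norm.eventually_const_lt
    have e1 : 1 - D.z1 q * (D.z2 q)⁻¹ = (D.z2 q - D.z1 q) * (D.z2 q)⁻¹ := by
      rw [sub_mul, mul_inv_cancel₀ hz2q]
    have e2 : ‖1 - D.z1 q * (D.z2 q)⁻¹‖ = 2 * c := by
      rw [e1, norm_mul, norm_inv, h2, inv_one, mul_one, norm_sub_rev, hc]
      ring
    change c < ‖1 - D.z1 q * (D.z2 q)⁻¹‖
    rw [e2]
    linarith
  obtain ⟨ep, hep, hball⟩ := Metric.eventually_nhds_iff_ball.mp (ev1.and (ev2.and ev3))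
  refine ⟨K, min ep D.r, hK, lt_min hep D.r_pos, min_le_right _ _, ?_⟩
  intro l hl hz1 hz2 f g
  have hl1 : l ∈ ball q ep := ball_subset_ball (min_le_left _ _) hl
  have hl2 : l ∈ ball q D.r := ball_subset_ball (min_le_right _ _) hl
  obtain ⟨b1, b2, b3⟩ := hball l hl1
  obtain ⟨bp, bm, cp, cm, hbp, hbm, hcp, hcm, hpp, hmm, hPsi⟩ := hWH l hl2
  have sbp := summable_of_dec heta hbp
  have sbm := summable_of_dec heta hbm
  have scp := summable_of_dec heta hcp
  have scm := summable_of_dec heta hcm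
  have hfac := ct_fac D hPhi hl2
  generalize D.z1 l = z at *
  generalize D.z2 l = w at *
  have hw0 : w ≠ 0 := by
    intro h0
    rw [h0, norm_zero] at hz2
    linarith
  obtain ⟨v, hv⟩ : ∃ v, v = w⁻¹ := ⟨_, rfl⟩
  have hvn : ‖v‖ < 1 := by
    rw [hv, norm_inv]
    exact inv_lt_one_of_one_lt₀ hz2
  have hinvp := plusS_inv hz2
  have hinvm := minusS_inv hz1
  rw [← hv] at hinvp b2 b3
  have svs := summable_pow_succ hvn
  have szs := summable_pow_self hz1
  -- the four functions
  have pa : Plus (plusS bp * plusS (fun j => -v ^ (j + 1))) :=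
    (plus_plusS sbp).mul (plus_plusS svs)
  have md : Minus (minusS bm * minusS (fun j => z ^ j)) :=
    (minus_minusS sbm).mul (minus_minusS szs)
  have mm : Minus (minusS cm * (1 - z • fourier (-1) : CT)) :=
    (minus_minusS scm).mul (minus_one_sub z)
  have pp : Plus (plusS cp * (fourier 1 - algebraMap ℂ CT w)) :=
    (plus_plusS scp).mul ((plus_fourier (by norm_num)).sub (plus_algebraMap _))
  have hfac' : Phi - algebraMap ℂ CT l =
      (minusS cm * (1 - z • fourier (-1) : CT)) * (plusS cp * (fourier 1 - algebraMap ℂ CT w)) := by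
    rw [hfac, hPsi]
    have h3 : (1 - z • fourier (-1) : CT) = fourier (-1) * (fourier 1 - algebraMap ℂ CT z) := by
      rw [mul_sub, fourier_neg_mul, smul_ct, mul_comm (algebraMap ℂ CT z)]
    rw [h3]
    ring
  have hap : (plusS bp * plusS (fun j => -v ^ (j + 1))) *
      (plusS cp * (fourier 1 - algebraMap ℂ CT w)) = 1 := by
    calc _ = (plusS bp * plusS cp) *
          (plusS (fun j => -v ^ (j + 1)) * (fourier 1 - algebraMap ℂ CT w)) := by ring
      _ = 1 := by rw [hpp, hinvp, one_mul]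
  have hdm : (minusS bm * minusS (fun j => z ^ j)) *
      (minusS cm * (1 - z • fourier (-1) : CT)) = 1 := by
    calc _ = (minusS bm * minusS cm) *
          (minusS (fun j => z ^ j) * (1 - z • fourier (-1) : CT)) := by ring
      _ = 1 := by rw [hmm, hinvm, one_mul]
  have hres := res_sub pa md mm pp hfac' hap hdm
  rw [hres, hankel pa md]
  -- the coefficients
  have sa := summable_norm_sum_mul_range_of_summable_norm sbp svs
  have sd := summable_norm_sum_mul_range_of_summable_norm sbm szs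
  have ca : ∀ m : ℕ, fourierCoeff (plusS bp * plusS (fun j => -v ^ (j + 1)) : CT) (m : ℤ) =
      -v * ∑ j ∈ Finset.range (m + 1), bp j * v ^ (m - j) := by
    intro m
    rw [plusS_mul sbp svs, fourierCoeff_plusS sa, Finset.mul_sum]
    refine Finset.sum_congr rfl fun j _ => ?_
    ring
  have cd : ∀ m : ℕ, fourierCoeff (minusS bm * minusS (fun j => z ^ j) : CT) (-(m : ℤ)) =
      ∑ j ∈ Finset.range (m + 1), bm j * z ^ (m - j) := by
    intro m
    rw [minusS_mul sbm szs, fourierCoeff_minusS sd]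
  have hsum : (∑' k : ℕ, (∑' n : ℕ, fourierCoeff (plusS bp * plusS (fun j => -v ^ (j + 1)) : CT)
        ((n : ℤ) + k + 1) * conj (co g n)) *
        (∑' n : ℕ, fourierCoeff (minusS bm * minusS (fun j => z ^ j) : CT)
        (-((n : ℤ) + k + 1)) * co f n)) = -v * ∑' k : ℕ,
        (∑' n : ℕ, (∑ j ∈ Finset.range (n + k + 1 + 1), bp j * v ^ (n + k + 1 - j)) *
          conj (co g n)) *
        (∑' n : ℕ, (∑ j ∈ Finset.range (n + k + 1 + 1), bm j * z ^ (n + k + 1 - j)) *
          co f n) := by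
    rw [← tsum_mul_left]
    refine tsum_congr fun k => ?_
    have e1 : (∑' n : ℕ, fourierCoeff (plusS bp * plusS (fun j => -v ^ (j + 1)) : CT)
        ((n : ℤ) + k + 1) * conj (co g n)) = -v * (∑' n : ℕ,
        (∑ j ∈ Finset.range (n + k + 1 + 1), bp j * v ^ (n + k + 1 - j)) * conj (co g n)) := by
      rw [← tsum_mul_left]
      refine tsum_congr fun n => ?_
      have h5 : ((n : ℤ) + k + 1) = ((n + k + 1 : ℕ) : ℤ) := by push_cast; ring
      rw [h5, ca, mul_assoc]
    have e2 : (∑' n : ℕ, fourierCoeff (minusS bm * minusS (fun j => z ^ j) : CT)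
        (-((n : ℤ) + k + 1)) * co f n) = (∑' n : ℕ,
        (∑ j ∈ Finset.range (n + k + 1 + 1), bm j * z ^ (n + k + 1 - j)) * co f n) := by
      refine tsum_congr fun n => ?_
      have h5 : ((n : ℤ) + k + 1) = ((n + k + 1 : ℕ) : ℤ) := by push_cast; ring
      rw [h5, cd]
    rw [e1, e2, mul_assoc]
  rw [hsum, norm_mul, norm_neg]
  have hfin := hseq bp bm hbp hbm z v hz1 hvn b1.le b2.le b3.le f g
  have hconj : conj v = (conj w)⁻¹ := by rw [hv, map_inv₀]
  rw [hconj] at hfin
  refine le_trans ?_ hfin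
  exact mul_le_of_le_one_left (norm_nonneg _) hvn.le

end Pool.Agent.TBirS
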