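import Pool.Agent.TBirS.Main

/-!
# Symbols with `phi (1/z) = phi z`

Proof of `wind_inv`: `(g (1/z))' = - g'(1/z) / z^2`; the substitution `t ↦ -t` in the circle integral
and the period `2 pi`.

Proof of `even_not_bir`. Write `U = sphere ∩ {0 ≤ im}`.
(a) There is `z1 = e^{i t1}` with `0 < t1 < pi` and `deriv phi z1 ≠ 0`: otherwise
`t ↦ phi (e^{it})` is constant on `[1, 2]`, against injectivity. Let `q = phi z1`,
`z2 = 1/z1 = conj z1 ≠ z1`. Then `phi z2 = q` and `q` is taken on the circle at `z1`, `z2` only.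
(b) `u t = phi (e^{it})` satisfies `u (-t) = u t`, so `z2 phi'(z2) = - z1 phi'(z1)`.
(c) Near the circle `phi z - q = psi z (z - z1)(z - z2)` (`far`, `quot`) with `psi` without zero on the
circle. On the circle `psi (1/z) = z^2 psi z`: off `z1`, `z2` since
`(1/z - z1)(1/z - z2) = (z - z1)(z - z2)/z^2`, at these two points by (b). So
`- wind psi = wind (psi (1/z)) = 2 + wind psi` and `wind psi = -1`. For `r < 1` near `1`,
`wind (phi (r w) - q) = wind (psi (r w)) + wind (r w - z1) + wind (r w - z2) = wind psi`. So `Pass phi q`.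
(d) `wd phi l = 0` for all `l ∉ J phi` by `wind_inv`, so `Sg phi ⊆ J phi`.
(e) `J phi` is the union of the images `A'`, `B'` of the closed sets `U ∩ {re z1 ≤ re}` and
`U ∩ {re ≤ re z1}`, and `A' ∩ B' ⊆ {q}`. `main_split` with `Q = {q}`,
`U1 = {infDist · A' < infDist · B'}` and `U2 = {infDist · B' < infDist · A'}`.
-/

set_option autoImplicit false

open MeasureTheory Complex Set Filter Topology Metric AddCircle
open scoped ComplexConjugate InnerProductSpace ENNReal

namespace Pool.Agent.TBirS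

open Pool.Agent.TBir

theorem wind_inv {g : ℂ → ℂ} (hg : AnalyticOnNhd ℂ g (sphere 0 1)) :
    (wind fun z => g z⁻¹) = -wind g := by
  obtain ⟨G, hG⟩ : ∃ G : ℝ → ℂ, G = fun t => deriv (circleMap 0 1) t •
      (deriv g (circleMap 0 1 t) / g (circleMap 0 1 t)) := ⟨_, rfl⟩
  have hc : ∀ t : ℝ, (circleMap 0 1 t)⁻¹ = circleMap 0 1 (-t) := by
    intro t
    simp [circleMap, Complex.exp_neg]
  have hp : Function.Periodic G (2 * Real.pi) := by
    intro t
    rw [hG]
    simp only [deriv_circleMap]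
    rw [periodic_circleMap 0 1 t]
  have key : ∀ t : ℝ, deriv (circleMap 0 1) t •
      (deriv (fun z => g z⁻¹) (circleMap 0 1 t) / g (circleMap 0 1 t)⁻¹) = -G (-t) := by
    intro t
    have h0 : circleMap 0 1 t ≠ 0 := circleMap_ne_center one_ne_zero
    have hs : (circleMap 0 1 t)⁻¹ ∈ sphere (0 : ℂ) 1 := by
      rw [hc]
      exact circleMap_mem_sphere 0 zero_le_one _
    have h1 : HasDerivAt (fun z => g z⁻¹)
        (deriv g (circleMap 0 1 t)⁻¹ * (-((circleMap 0 1 t) ^ 2)⁻¹)) (circleMap 0 1 t) :=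
      ((hg _ hs).differentiableAt.hasDerivAt).comp _ (hasDerivAt_inv h0)
    rw [h1.deriv, hG]
    simp only [deriv_circleMap, ← hc, smul_eq_mul]
    by_cases h2 : g (circleMap 0 1 t)⁻¹ = 0
    · rw [h2]
      simp
    · have h3 : circleMap 0 0 t = 0 := by simp [circleMap]
      field_simp
  have e1 : (∮ w in C(0, 1), deriv (fun z => g z⁻¹) w / g w⁻¹) =
      -∮ w in C(0, 1), deriv g w / g w := by
    unfold circleIntegral
    simp only [key]
    rw [intervalIntegral.integral_neg, intervalIntegral.integral_comp_neg]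
    congr 1
    have h1 := hp.intervalIntegral_add_eq (-(2 * Real.pi)) 0
    rw [neg_add_cancel, zero_add] at h1
    rw [neg_zero, h1, hG]
  unfold wind
  rw [e1]
  ring

private theorem ev_ne {z : ℂ} (hz : z ∈ sphere (0 : ℂ) 1) : z ≠ 0 := by
  rintro rfl
  rw [mem_sphere_zero_iff_norm, norm_zero] at hz
  exact zero_ne_one hz

private theorem ev_inv {z : ℂ} (hz : z ∈ sphere (0 : ℂ) 1) : z⁻¹ ∈ sphere (0 : ℂ) 1 := by
  rw [mem_sphere_zero_iff_norm] at hz ⊢
  rw [norm_inv, hz, inv_one]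

private theorem ev_conj {z : ℂ} (hz : z ∈ sphere (0 : ℂ) 1) : z⁻¹ = conj z :=
  Complex.inv_eq_conj (mem_sphere_zero_iff_norm.1 hz)

/-- The winding number of an analytic function `g` with `g (1/z) = z^2 g z` on the circle. -/
private theorem ev_wind {g : ℂ → ℂ} (hg : AnalyticOnNhd ℂ g (sphere 0 1))
    (h0 : ∀ z ∈ sphere (0 : ℂ) 1, g z ≠ 0)
    (h : ∀ z ∈ sphere (0 : ℂ) 1, g z⁻¹ = z ^ 2 * g z) : wind g = -1 := by
  have hlin : AnalyticOnNhd ℂ (fun w : ℂ => w - 0) (sphere 0 1) := fun z _ =>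
    analyticAt_id.sub analyticAt_const
  have hl0 : ∀ z ∈ sphere (0 : ℂ) 1, z - 0 ≠ 0 := fun z hz => by
    rw [sub_zero]
    exact ev_ne hz
  have h1 : wind (fun w : ℂ => w - 0) = 1 := by
    rw [wind_sub_const (by simp), if_pos (by simp)]
  have h2 : wind (fun w : ℂ => (w - 0) * (w - 0)) = 1 + 1 := by
    rw [wind_mul hlin hlin hl0 hl0, h1]
  have h3 : wind (fun w : ℂ => (w - 0) * (w - 0) * g w) = 1 + 1 + wind g := by
    rw [wind_mul (hlin.mul hlin) hg (fun z hz => mul_ne_zero (hl0 z hz) (hl0 z hz)) h0, h2]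
  have ha : AnalyticOnNhd ℂ (fun z => g z⁻¹) (sphere 0 1) := fun z hz =>
    AnalyticAt.fun_comp (hg _ (ev_inv hz)) (analyticAt_id.inv (ev_ne hz))
  have h4 : (wind fun z => g z⁻¹) = wind (fun w : ℂ => (w - 0) * (w - 0) * g w) := by
    refine wind_near ha ((hlin.mul hlin).mul hg) fun z hz => ?_
    have h5 : g z⁻¹ - (z - 0) * (z - 0) * g z = 0 := by
      rw [h z hz]
      ring
    rw [h5, norm_zero, norm_pos_iff]
    exact mul_ne_zero (mul_ne_zero (hl0 z hz) (hl0 z hz)) (h0 z hz)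
  rw [wind_inv hg, h3] at h4
  linear_combination (-1 / 2 : ℂ) * h4

/-- A point of the upper half circle with nonzero derivative. -/
private theorem ev_exists {phi : ℂ → ℂ} (hphi : AnalyticOnNhd ℂ phi (sphere 0 1))
    (hinj : InjOn phi {z : ℂ | ‖z‖ = 1 ∧ 0 ≤ z.im}) :
    ∃ t : ℝ, 0 < Real.sin t ∧ deriv phi (Complex.exp (t * I)) ≠ 0 := by
  by_contra hcon
  push Not at hcon
  have hs : ∀ t : ℝ, t ∈ Icc (1 : ℝ) 2 → 0 < Real.sin t := by
    intro t ht
    have := Real.pi_gt_three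
    exact Real.sin_pos_of_pos_of_lt_pi (by linarith [ht.1]) (by linarith [ht.2])
  have hd : ∀ t ∈ Icc (1 : ℝ) 2, HasDerivAt (fun t : ℝ => phi (Complex.exp (t * I))) 0 t := by
    intro t ht
    have h1 : HasDerivAt (fun t : ℝ => Complex.exp (t * I)) (Complex.exp (t * I) * (1 * I)) t :=
      ((Complex.ofRealCLM.hasDerivAt (x := t)).mul_const I).cexp
    have h2 : HasDerivAt phi (deriv phi (Complex.exp (t * I))) (Complex.exp (t * I)) :=
      (hphi _ (by simp [Complex.norm_exp_ofReal_mul_I])).differentiableAt.hasDerivAt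
    have h3 := h2.comp t h1
    rw [hcon t (hs t ht), zero_mul] at h3
    exact h3
  have h1 := constant_of_has_deriv_right_zero (a := 1) (b := 2)
    (fun t ht => (hd t ht).continuousAt.continuousWithinAt)
    (fun t ht => (hd t ⟨ht.1, ht.2.le⟩).hasDerivWithinAt) 2 (by constructor <;> norm_num)
  have hm : ∀ t : ℝ, t ∈ Icc (1 : ℝ) 2 →
      Complex.exp (t * I) ∈ {z : ℂ | ‖z‖ = 1 ∧ 0 ≤ z.im} := by
    intro t ht
    refine ⟨Complex.norm_exp_ofReal_mul_I t, ?_⟩
    rw [Complex.exp_ofReal_mul_I_im]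
    exact (hs t ht).le
  have h2 := hinj (hm 2 (by constructor <;> norm_num)) (hm 1 (by constructor <;> norm_num)) h1
  have h3 := congrArg Complex.re h2
  rw [Complex.exp_ofReal_mul_I_re, Complex.exp_ofReal_mul_I_re] at h3
  have hpi := Real.pi_gt_three
  have h4 := Real.injOn_cos (show (2 : ℝ) ∈ Icc 0 Real.pi from ⟨by norm_num, by linarith⟩)
    (show (1 : ℝ) ∈ Icc 0 Real.pi from ⟨by norm_num, by linarith⟩) h3
  norm_num at h4

/-- The tangent numbers at `z` and `1/z` are opposite. -/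
private theorem ev_tan {phi : ℂ → ℂ} (hphi : AnalyticOnNhd ℂ phi (sphere 0 1))
    (hev : ∀ z ∈ sphere (0 : ℂ) 1, phi z⁻¹ = phi z) (t : ℝ) :
    (Complex.exp (t * I))⁻¹ * deriv phi (Complex.exp (t * I))⁻¹ =
      -(Complex.exp (t * I) * deriv phi (Complex.exp (t * I))) := by
  have hs : ∀ t : ℝ, Complex.exp (t * I) ∈ sphere (0 : ℂ) 1 := fun t => by
    simp [Complex.norm_exp_ofReal_mul_I]
  have hn : ∀ t : ℝ, Complex.exp ((-t : ℝ) * I) = (Complex.exp (t * I))⁻¹ := fun t => by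
    rw [← Complex.exp_neg]
    push_cast
    ring_nf
  have hd : ∀ t : ℝ, HasDerivAt (fun t : ℝ => phi (Complex.exp (t * I)))
      (deriv phi (Complex.exp (t * I)) * (Complex.exp (t * I) * (1 * I))) t := by
    intro t
    have h1 : HasDerivAt (fun t : ℝ => Complex.exp (t * I)) (Complex.exp (t * I) * (1 * I)) t :=
      ((Complex.ofRealCLM.hasDerivAt (x := t)).mul_const I).cexp
    have h2 : HasDerivAt phi (deriv phi (Complex.exp (t * I))) (Complex.exp (t * I)) :=
      (hphi _ (hs t)).differentiableAt.hasDerivAt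
    exact h2.comp t h1
  have h1 : HasDerivAt (fun s : ℝ => phi (Complex.exp ((-s : ℝ) * I)))
      ((-1 : ℝ) • (deriv phi (Complex.exp ((-t : ℝ) * I)) * (Complex.exp ((-t : ℝ) * I) * (1 * I)))) t :=
    HasDerivAt.scomp t (hd (-t)) (hasDerivAt_neg t)
  have h2 : (fun s : ℝ => phi (Complex.exp ((-s : ℝ) * I))) =
      fun s : ℝ => phi (Complex.exp (s * I)) := by
    funext s
    rw [hn]
    exact hev _ (hs s)
  rw [h2] at h1
  have h3 := h1.unique (hd t)
  rw [hn] at h3
  have h4 : (I : ℂ) ≠ 0 := Complex.I_ne_zero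
  refine mul_right_cancel₀ h4 ?_
  rw [neg_smul, one_smul] at h3
  linear_combination -h3

theorem even_not_bir {phi : ℂ → ℂ} (hphi : AnalyticOnNhd ℂ phi (sphere 0 1))
    (hev : ∀ z ∈ sphere (0 : ℂ) 1, phi z⁻¹ = phi z)
    (hinj : InjOn phi {z : ℂ | ‖z‖ = 1 ∧ 0 ≤ z.im}) :
    ¬ BIR H2 (IsToeplitz phi) := by
  obtain ⟨t1, hsin, hder⟩ := ev_exists hphi hinj
  have htan := ev_tan hphi hev t1
  obtain ⟨z1, hz1⟩ : ∃ z1, z1 = Complex.exp (t1 * I) := ⟨_, rfl⟩
  have hs1 : z1 ∈ sphere (0 : ℂ) 1 := by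
    rw [hz1]
    simp [Complex.norm_exp_ofReal_mul_I]
  have him : 0 < z1.im := by
    rw [hz1, Complex.exp_ofReal_mul_I_im]
    exact hsin
  rw [← hz1] at hder htan
  clear hz1 hsin t1
  have h10 := ev_ne hs1
  have hs2 := ev_inv hs1
  have h20 := ev_ne hs2
  have hn1 : ‖z1‖ = 1 := mem_sphere_zero_iff_norm.1 hs1
  have hn2 : ‖z1⁻¹‖ = 1 := mem_sphere_zero_iff_norm.1 hs2
  have hmul : z1 * z1⁻¹ = 1 := mul_inv_cancel₀ h10
  have hne : z1 ≠ z1⁻¹ := by
    intro h
    rw [ev_conj hs1] at h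
    have h1 := congrArg Complex.im h
    rw [Complex.conj_im] at h1
    linarith
  have hev1 := hev z1 hs1
  -- the two points
  have hex : ∀ z ∈ sphere (0 : ℂ) 1, phi z = phi z1 → z = z1 ∨ z = z1⁻¹ := by
    intro z hz h
    rcases le_or_gt 0 z.im with h1 | h1
    · exact Or.inl (hinj ⟨mem_sphere_zero_iff_norm.1 hz, h1⟩ ⟨hn1, him.le⟩ h)
    · right
      have h2 : z⁻¹ = z1 := by
        refine hinj ⟨mem_sphere_zero_iff_norm.1 (ev_inv hz), ?_⟩ ⟨hn1, him.le⟩
          ((hev z hz).trans h)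
        rw [ev_conj hz, Complex.conj_im]
        linarith
      rw [← h2, inv_inv]
  have hder2 : deriv phi z1⁻¹ = -(z1 ^ 2 * deriv phi z1) := by
    have h1 : z1 * (z1⁻¹ * deriv phi z1⁻¹) = z1 * -(z1 * deriv phi z1) := by rw [htan]
    rw [← mul_assoc, hmul] at h1
    linear_combination h1
  have hder2' : deriv phi z1⁻¹ ≠ 0 := by
    rw [hder2]
    exact neg_ne_zero.2 (mul_ne_zero (pow_ne_zero 2 h10) hder)
  -- the quotient
  have hinner : ∀ᶠ r : ℝ in 𝓝[<] 1, (wind fun w => phi (r * w) - phi z1) = -1 := by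
    obtain ⟨d, r0, M, hd, hd1, hr0, hdphi, -, -⟩ := far hphi (phi z1) isOpen_univ
      fun _ _ _ => mem_univ _
    have hm1 : z1 ∈ ann d := Pool.Agent.TBirG.mem_sphere_ann hd hs1
    have hm2 : z1⁻¹ ∈ ann d := Pool.Agent.TBirG.mem_sphere_ann hd hs2
    have hf : DifferentiableOn ℂ (fun w => phi w - phi z1) (ann d) :=
      hdphi.sub (differentiableOn_const _)
    obtain ⟨g, hg, fac, g1, g2⟩ := quot hf hne (Or.inr (sub_self _))
      (Or.inr (by simp only [hev1, sub_self]))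
    have hd1' : ∀ a ∈ ann d, deriv (fun w => phi w - phi z1) a = deriv phi a := fun a ha => by
      rw [deriv_sub_const]
    have k1 := g1 hm1
    have k2 := g2 hm2
    rw [hd1' _ hm1] at k1
    rw [hd1' _ hm2] at k2
    have hsub1 : z1 - z1⁻¹ ≠ 0 := sub_ne_zero.2 hne
    have hsub2 : z1⁻¹ - z1 ≠ 0 := sub_ne_zero.2 hne.symm
    have hg0 : ∀ z ∈ sphere (0 : ℂ) 1, g z ≠ 0 := by
      intro z hz h
      have h1 := fac z (Pool.Agent.TBirG.mem_sphere_ann hd hz)
      rw [h, zero_mul] at h1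
      rcases hex z hz (sub_eq_zero.1 h1) with h2 | h2
      · rw [h2, k1] at h
        exact div_ne_zero hder hsub1 h
      · rw [h2, k2] at h
        exact div_ne_zero hder2' hsub2 h
    have hrel : g z1⁻¹ = z1 ^ 2 * g z1 := by
      rw [k2, k1, hder2]
      have h3 : z1⁻¹ - z1 = -(z1 - z1⁻¹) := by ring
      rw [h3, neg_div_neg_eq, mul_div_assoc]
    have hginv : ∀ z ∈ sphere (0 : ℂ) 1, g z⁻¹ = z ^ 2 * g z := by
      intro z hz
      have hz0 := ev_ne hz
      by_cases c1 : z = z1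
      · rw [c1]
        exact hrel
      by_cases c2 : z = z1⁻¹
      · rw [c2, inv_inv, hrel, ← mul_assoc, ← mul_pow, inv_mul_cancel₀ h10, one_pow, one_mul]
      have f1 := fac z (Pool.Agent.TBirG.mem_sphere_ann hd hz)
      have f2 := fac z⁻¹ (Pool.Agent.TBirG.mem_sphere_ann hd (ev_inv hz))
      simp only [hev z hz] at f2
      rw [f1] at f2
      have n1 : (z - z1) * (z - z1⁻¹) ≠ 0 := mul_ne_zero (sub_ne_zero.2 c1) (sub_ne_zero.2 c2)
      have n2 : z ^ 2 * ((z⁻¹ - z1) * (z⁻¹ - z1⁻¹)) = (z - z1) * (z - z1⁻¹) := by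
        have h3 : z * z⁻¹ = 1 := mul_inv_cancel₀ hz0
        linear_combination (1 + z * z⁻¹ - z * z1 - z * z1⁻¹) * h3 + (z ^ 2 - 1) * hmul
      refine mul_right_cancel₀ n1 ?_
      have f3 : z ^ 2 * (g z * ((z - z1) * (z - z1⁻¹))) =
          g z⁻¹ * (z ^ 2 * ((z⁻¹ - z1) * (z⁻¹ - z1⁻¹))) := by
        rw [f2]
        ring
      rw [n2] at f3
      linear_combination -f3
    have hga := Pool.Agent.TBirG.analyticOnNhd_sphere hd hg
    have hw := ev_wind hga hg0 hginv
    have e1 := (Pool.Agent.TBirG.wind_dil hga hg0).filter_mono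
      (nhdsWithin_le_nhds (s := Iio (1 : ℝ)))
    have e2 : ∀ᶠ r : ℝ in 𝓝[<] 1, r < 1 := self_mem_nhdsWithin
    have e3 : ∀ᶠ r : ℝ in 𝓝[<] 1, 0 < r := nhdsWithin_le_nhds (Ioi_mem_nhds one_pos)
    have e4 : ∀ᶠ r : ℝ in 𝓝[<] 1, 1 - d < r := nhdsWithin_le_nhds (Ioi_mem_nhds (by linarith))
    filter_upwards [e1, e2, e3, e4] with r a1 a2 a3 a4
    obtain ⟨b1, b2, b3⟩ := a1
    have hn : ∀ z ∈ sphere (0 : ℂ) 1, ‖(r : ℂ) * z‖ = r := by
      intro z hz
      rw [mem_sphere_zero_iff_norm] at hz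
      rw [norm_mul, hz, mul_one, Complex.norm_real, Real.norm_eq_abs, abs_of_pos a3]
    have l1 : (wind fun w => phi (r * w) - phi z1) =
        wind fun w => g (r * w) * ((r * w - z1) * (r * w - z1⁻¹)) := by
      refine wind_congr fun z hz => ?_
      have hc : Continuous fun w : ℂ => (r : ℂ) * w := by fun_prop
      have hmem : (r : ℂ) * z ∈ ann d := by
        refine ⟨?_, ?_⟩ <;> rw [hn z hz] <;> linarith
      filter_upwards [hc.continuousAt.preimage_mem_nhds ((isOpen_ann d).mem_nhds hmem)] with w hw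
      exact fac _ hw
    have hlin : ∀ c : ℂ, AnalyticOnNhd ℂ (fun w : ℂ => (r : ℂ) * w - c) (sphere 0 1) :=
      fun c z _ => (analyticAt_const.mul analyticAt_id).sub analyticAt_const
    have hne' : ∀ c : ℂ, ‖c‖ = 1 → ∀ z ∈ sphere (0 : ℂ) 1, (r : ℂ) * z - c ≠ 0 := by
      intro c hc z hz h
      have := hn z hz
      rw [sub_eq_zero.1 h, hc] at this
      linarith
    have l4 : ∀ c : ℂ, ‖c‖ = 1 → (wind fun w => (r : ℂ) * w - c) = 0 := by
      intro c hc
      rw [Pool.Agent.TBirG.wind_lin a3 (by rw [hc]; exact a2.ne'), if_neg (by rw [hc]; linarith)]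
    rw [l1, wind_mul b1 ((hlin _).mul (hlin _)) b2
      (fun z hz => mul_ne_zero (hne' z1 hn1 z hz) (hne' z1⁻¹ hn2 z hz)),
      wind_mul (hlin _) (hlin _) (hne' z1 hn1) (hne' z1⁻¹ hn2), l4 z1 hn1, l4 z1⁻¹ hn2, b3, hw]
    ring
  have hpass : Pass phi (phi z1) := by
    refine ⟨z1, hs1, z1⁻¹, hs2, hne, rfl, hev1, hex, hder, hder2', ?_, hinner⟩
    intro a ha h
    rw [htan] at h
    have h1 : ((a : ℂ) + 1) * (z1 * deriv phi z1) = 0 := by linear_combination -h
    rcases mul_eq_zero.1 h1 with h2 | h2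
    · have h3 := congrArg Complex.re h2
      simp at h3
      linarith
    · exact mul_ne_zero h10 hder h2
  -- the spectrum is the curve
  have hwd : ∀ l, l ∉ J phi → wd phi l = 0 := by
    intro l hl
    have ha : AnalyticOnNhd ℂ (fun z => phi z - l) (sphere 0 1) := hphi.sub fun z _ =>
      analyticAt_const
    have h1 := wind_inv ha
    have ha' : AnalyticOnNhd ℂ (fun z => phi z⁻¹ - l) (sphere 0 1) := fun z hz =>
      AnalyticAt.fun_comp (ha _ (ev_inv hz)) (analyticAt_id.inv (ev_ne hz))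
    have h2 : (wind fun z => phi z⁻¹ - l) = wind fun z => phi z - l := by
      refine wind_near ha' ha fun z hz => ?_
      simp only [hev z hz]
      rw [sub_self, norm_zero, norm_pos_iff]
      intro h3
      exact hl ⟨z, hz, sub_eq_zero.1 h3⟩
    rw [h2] at h1
    have h3 : (wind fun z => phi z - l) = 0 := by
      linear_combination (1 / 2 : ℂ) * h1
    exact h3
  have hSg : ∀ l ∈ Sg phi, l ∈ J phi := by
    intro l hl
    rcases hl with h1 | h1
    · exact h1
    · by_contra h2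
      exact h1 (hwd l h2)
  -- the two arcs
  obtain ⟨SA, hSA⟩ : ∃ SA : Set ℂ, SA = {z : ℂ | ‖z‖ = 1 ∧ 0 ≤ z.im ∧ z1.re ≤ z.re} := ⟨_, rfl⟩
  obtain ⟨SB, hSB⟩ : ∃ SB : Set ℂ, SB = {z : ℂ | ‖z‖ = 1 ∧ 0 ≤ z.im ∧ z.re ≤ z1.re} := ⟨_, rfl⟩
  have hcpt : ∀ S : Set ℂ, IsClosed S → (∀ z ∈ S, ‖z‖ = 1) → IsClosed (phi '' S) := by
    intro S hS h
    have h1 : S ⊆ sphere (0 : ℂ) 1 := fun z hz => mem_sphere_zero_iff_norm.2 (h z hz)
    have h2 : IsCompact S := (isCompact_sphere (0 : ℂ) 1).of_isClosed_subset hS h1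
    exact (h2.image_of_continuousOn (hphi.continuousOn.mono h1)).isClosed
  have cA : IsClosed (phi '' SA) := by
    refine hcpt SA ?_ fun z hz => by rw [hSA] at hz; exact hz.1
    rw [hSA]
    exact (isClosed_eq continuous_norm continuous_const).inter
      ((isClosed_le continuous_const Complex.continuous_im).inter
        (isClosed_le continuous_const Complex.continuous_re))
  have cB : IsClosed (phi '' SB) := by
    refine hcpt SB ?_ fun z hz => by rw [hSB] at hz; exact hz.1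
    rw [hSB]
    exact (isClosed_eq continuous_norm continuous_const).inter
      ((isClosed_le continuous_const Complex.continuous_im).inter
        (isClosed_le Complex.continuous_re continuous_const))
  have hAB : ∀ l, l ∈ phi '' SA → l ∈ phi '' SB → l = phi z1 := by
    rintro l ⟨z, hz, hzl⟩ ⟨w, hw, hwl⟩
    rw [hSA] at hz
    rw [hSB] at hw
    obtain ⟨z_n, z_i, z_r⟩ := hz
    obtain ⟨w_n, w_i, w_r⟩ := hw
    have h1 : z = w := hinj ⟨z_n, z_i⟩ ⟨w_n, w_i⟩ (hzl.trans hwl.symm)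
    rw [← h1] at w_r
    have h2 : z.re = z1.re := le_antisymm w_r z_r
    have h3 : z.im = z1.im := by
      have h4 : z.re * z.re + z.im * z.im = 1 := by
        rw [← Complex.normSq_apply, Complex.normSq_eq_norm_sq, z_n, one_pow]
      have h5 : z1.re * z1.re + z1.im * z1.im = 1 := by
        rw [← Complex.normSq_apply, Complex.normSq_eq_norm_sq, hn1, one_pow]
      rw [h2] at h4
      have h6 : (z.im - z1.im) * (z.im + z1.im) = 0 := by linear_combination h4 - h5
      rcases mul_eq_zero.1 h6 with h7 | h7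
      · linarith
      · linarith
    rw [← hzl, Complex.ext h2 h3]
  have hJ : ∀ l ∈ J phi, l ∈ phi '' SA ∨ l ∈ phi '' SB := by
    rintro l ⟨z, hz, rfl⟩
    have key : ∀ w ∈ sphere (0 : ℂ) 1, 0 ≤ w.im → phi w ∈ phi '' SA ∨ phi w ∈ phi '' SB := by
      intro w hw h1
      rcases le_total z1.re w.re with h2 | h2
      · left
        refine ⟨w, ?_, rfl⟩
        rw [hSA]
        exact ⟨mem_sphere_zero_iff_norm.1 hw, h1, h2⟩
      · right
        refine ⟨w, ?_, rfl⟩
        rw [hSB]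
        exact ⟨mem_sphere_zero_iff_norm.1 hw, h1, h2⟩
    rcases le_or_gt 0 z.im with h1 | h1
    · exact key z hz h1
    · rw [← hev z hz]
      refine key _ (ev_inv hz) ?_
      rw [ev_conj hz, Complex.conj_im]
      linarith
  have hre : -1 ≤ z1.re ∧ z1.re ≤ 1 := by
    have h1 := Complex.abs_re_le_norm z1
    rw [hn1] at h1
    exact abs_le.1 h1
  have m1 : phi 1 ∈ phi '' SA := ⟨1, by rw [hSA]; exact ⟨by simp, by simp, by simpa using hre.2⟩, rfl⟩
  have m2 : phi (-1) ∈ phi '' SB :=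
    ⟨-1, by rw [hSB]; exact ⟨by simp, by simp, by simpa using hre.1⟩, rfl⟩
  have q1 : phi 1 ≠ phi z1 := by
    intro h
    have h1 := hinj (show (1 : ℂ) ∈ _ from ⟨by simp, by simp⟩) ⟨hn1, him.le⟩ h
    rw [← h1] at him
    simp at him
  have q2 : phi (-1) ≠ phi z1 := by
    intro h
    have h1 := hinj (show (-1 : ℂ) ∈ _ from ⟨by simp, by simp⟩) ⟨hn1, him.le⟩ h
    rw [← h1] at him
    simp at him
  have neA : (phi '' SA).Nonempty := ⟨_, m1⟩
  have neB : (phi '' SB).Nonempty := ⟨_, m2⟩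
  have hUA : ∀ l, l ∈ phi '' SA → l ≠ phi z1 →
      infDist l (phi '' SA) < infDist l (phi '' SB) := by
    intro l h1 h2
    rw [infDist_zero_of_mem h1]
    exact (cB.notMem_iff_infDist_pos neB).1 fun h3 => h2 (hAB l h1 h3)
  have hUB : ∀ l, l ∈ phi '' SB → l ≠ phi z1 →
      infDist l (phi '' SB) < infDist l (phi '' SA) := by
    intro l h1 h2
    rw [infDist_zero_of_mem h1]
    exact (cA.notMem_iff_infDist_pos neA).1 fun h3 => h2 (hAB l h3 h1)
  refine (main_split hphi (Q := {phi z1}) (finite_singleton _)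
    (fun q hq => by rw [mem_singleton_iff.1 hq]; exact hpass)
    (U1 := {l | infDist l (phi '' SA) < infDist l (phi '' SB)})
    (U2 := {l | infDist l (phi '' SB) < infDist l (phi '' SA)})
    (isOpen_lt (continuous_infDist_pt _) (continuous_infDist_pt _))
    (isOpen_lt (continuous_infDist_pt _) (continuous_infDist_pt _))
    (Set.disjoint_left.2 fun l h1 h2 =>
      lt_asymm (show infDist l (phi '' SA) < infDist l (phi '' SB) from h1) h2) ?_
    ⟨phi 1, hUA _ m1 q1, Or.inl ⟨1, by simp, rfl⟩, q1⟩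
    ⟨phi (-1), hUB _ m2 q2, Or.inl ⟨-1, by simp, rfl⟩, q2⟩).2
  rintro l ⟨hl, hlq⟩
  rcases hJ l (hSg l hl) with h1 | h1
  · exact Or.inl (hUA l h1 hlq)
  · exact Or.inr (hUB l h1 hlq)

end Pool.Agent.TBirS
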