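import Pool.Agent.TBirS.BkB

/-!
# Symbols with `phi (1/z) = phi z`

The winding numbers off the curve vanish, so `back_not_bir` applies at every value which is taken
exactly twice, at two noncritical points.
-/

set_option autoImplicit false

open MeasureTheory Complex Set Filter Topology Metric AddCircle
open scoped ComplexConjugate InnerProductSpace ENNReal

namespace Pool.Agent.TBirS

open Pool.Agent.TBir

theorem wind_inv {g : ℂ → ℂ} (hg : AnalyticOnNhd ℂ g (sphere 0 1)) :
    (wind fun z => g z⁻¹) = -wind g := by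
  obtain ⟨F, hF⟩ : ∃ F : ℝ → ℂ, F = fun t => deriv (circleMap 0 1) t •
      (deriv g (circleMap 0 1 t) / g (circleMap 0 1 t)) := ⟨_, rfl⟩
  have hper : Function.Periodic F (2 * Real.pi) := by
    intro t
    rw [hF]
    simp only [deriv_circleMap, periodic_circleMap 0 1 t]
  have h1 : ∀ t : ℝ, deriv (circleMap 0 1) t •
      (deriv (fun z => g z⁻¹) (circleMap 0 1 t) / g (circleMap 0 1 t)⁻¹) = -F (-t) := by
    intro t
    have hinv : (circleMap 0 1 t)⁻¹ = circleMap 0 1 (-t) := by
      simp [circleMap, ← Complex.exp_neg]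
    have hne : circleMap 0 1 t ≠ 0 := circleMap_ne_center one_ne_zero
    have hmem : circleMap 0 1 (-t) ∈ sphere (0 : ℂ) 1 := circleMap_mem_sphere 0 zero_le_one _
    have hd1 : HasDerivAt g (deriv g (circleMap 0 1 (-t))) (circleMap 0 1 t)⁻¹ := by
      rw [hinv]
      exact (hg _ hmem).differentiableAt.hasDerivAt
    have hd2 := hd1.comp (circleMap 0 1 t) (hasDerivAt_inv hne)
    have hd3 : deriv (fun z => g z⁻¹) (circleMap 0 1 t) =
        deriv g (circleMap 0 1 (-t)) * -(circleMap 0 1 t ^ 2)⁻¹ := hd2.deriv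
    rw [hd3, hF]
    simp only [deriv_circleMap, smul_eq_mul]
    rw [hinv, ← hinv]
    field_simp
  have h2 : (∮ w in C(0, 1), deriv (fun z => g z⁻¹) w / g w⁻¹) =
      -∮ w in C(0, 1), deriv g w / g w := by
    have h3 : (∮ w in C(0, 1), deriv g w / g w) = ∫ t in (0 : ℝ)..2 * Real.pi, F t := by
      rw [hF]
      rfl
    have h4 : (∮ w in C(0, 1), deriv (fun z => g z⁻¹) w / g w⁻¹) =
        ∫ t in (0 : ℝ)..2 * Real.pi, -F (-t) :=
      intervalIntegral.integral_congr fun t _ => h1 t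
    rw [h3, h4, intervalIntegral.integral_neg, intervalIntegral.integral_comp_neg]
    have h5 := hper.intervalIntegral_add_eq (-(2 * Real.pi)) 0
    rw [neg_add_cancel, zero_add] at h5
    rw [neg_zero, h5]
  unfold wind
  rw [h2]
  ring

theorem wd_even {phi : ℂ → ℂ} (hphi : AnalyticOnNhd ℂ phi (sphere 0 1))
    (hev : ∀ z ∈ sphere (0 : ℂ) 1, phi z⁻¹ = phi z) {l : ℂ} (hl : l ∉ J phi) : wd phi l = 0 := by
  have hf : AnalyticOnNhd ℂ (fun z => phi z - l) (sphere 0 1) := fun z hz =>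
    (hphi z hz).sub analyticAt_const
  have h1 := wind_inv hf
  have hinv : ∀ z ∈ sphere (0 : ℂ) 1, z⁻¹ ∈ sphere (0 : ℂ) 1 := by
    intro z hz
    rw [mem_sphere_zero_iff_norm] at hz ⊢
    rw [norm_inv, hz, inv_one]
  have hf' : AnalyticOnNhd ℂ (fun z => phi z⁻¹ - l) (sphere 0 1) := by
    intro z hz
    have hz0 : z ≠ 0 := by
      intro h
      rw [h, mem_sphere_zero_iff_norm, norm_zero] at hz
      exact zero_ne_one hz
    exact (AnalyticAt.fun_comp (hphi z⁻¹ (hinv z hz)) (analyticAt_id.inv hz0)).sub analyticAt_const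
  have h2 : (wind fun z => phi z⁻¹ - l) = wind fun z => phi z - l := by
    refine wind_near hf' hf fun z hz => ?_
    rw [hev z hz, sub_self, norm_zero, norm_pos_iff]
    exact fun h => hl ⟨z, hz, sub_eq_zero.1 h⟩
  rw [h2] at h1
  unfold wd
  linear_combination (1 / 2) * h1

theorem even_not_bir {phi : ℂ → ℂ} (hphi : AnalyticOnNhd ℂ phi (sphere 0 1))
    (hev : ∀ z ∈ sphere (0 : ℂ) 1, phi z⁻¹ = phi z) {t : ℂ} (ht : t ∈ sphere (0 : ℂ) 1)
    (hne : t ≠ t⁻¹) (hd : deriv phi t ≠ 0)
    (hex : ∀ z ∈ sphere (0 : ℂ) 1, phi z = phi t → z = t ∨ z = t⁻¹) :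
    ¬ BIR H2 (IsToeplitz phi) := by
  have ht1 : ‖t‖ = 1 := by simpa using ht
  have ht0 : t ≠ 0 := by
    intro h
    rw [h, norm_zero] at ht1
    exact zero_ne_one ht1
  have ht' : t⁻¹ ∈ sphere (0 : ℂ) 1 := by
    rw [mem_sphere_zero_iff_norm, norm_inv, ht1, inv_one]
  have hd' : deriv phi t⁻¹ ≠ 0 := by
    have e1 : HasDerivAt (fun s : ℝ => t * Complex.exp (s * I)) (t * I) 0 := by
      have h1 : HasDerivAt (fun s : ℝ => (s : ℂ) * I) (1 * I) 0 :=
        (Complex.ofRealCLM.hasDerivAt (x := (0 : ℝ))).mul_const I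
      have h2 := (h1.cexp).const_mul t
      simpa using h2
    have e2 : HasDerivAt (fun s : ℝ => (t * Complex.exp (s * I))⁻¹) (-(t * I) / t ^ 2) 0 := by
      have h3 := e1.fun_inv (by simpa using ht0)
      have h0 : Complex.exp (((0 : ℝ) : ℂ) * I) = 1 := by simp
      rw [h0, mul_one] at h3
      exact h3
    have f1 : HasDerivAt (fun s : ℝ => phi (t * Complex.exp (s * I))) (deriv phi t * (t * I)) 0 := by
      have h4 : HasDerivAt phi (deriv phi t) (t * Complex.exp (((0 : ℝ) : ℂ) * I)) := by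
        simpa using (hphi t ht).differentiableAt.hasDerivAt
      exact h4.comp_of_eq (0 : ℝ) e1 rfl
    have f2 : HasDerivAt (fun s : ℝ => phi (t * Complex.exp (s * I))⁻¹)
        (deriv phi t⁻¹ * (-(t * I) / t ^ 2)) 0 := by
      have h4 : HasDerivAt phi (deriv phi t⁻¹) (t * Complex.exp (((0 : ℝ) : ℂ) * I))⁻¹ := by
        simpa using (hphi t⁻¹ ht').differentiableAt.hasDerivAt
      exact h4.comp_of_eq (0 : ℝ) e2 rfl
    have h5 : (fun s : ℝ => phi (t * Complex.exp (s * I))⁻¹) =
        fun s : ℝ => phi (t * Complex.exp (s * I)) := by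
      funext s
      refine hev _ ?_
      rw [mem_sphere_zero_iff_norm, norm_mul, ht1, one_mul, Complex.norm_exp_ofReal_mul_I]
    rw [h5] at f2
    have h6 := f1.unique f2
    intro h0
    rw [h0, zero_mul] at h6
    exact mul_ne_zero hd (mul_ne_zero ht0 I_ne_zero) h6
  exact back_not_bir hphi ht ht' hne rfl (hev t ht) hex hd hd'
    (Eventually.of_forall fun l hl => wd_even hphi hev hl)

end Pool.Agent.TBirS
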