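import Pool.Agent.TBirS.Ex
import Pool.Agent.TBirG.Qs

/-!
# Two teardrops touching at the origin: the symbol and the touching point

`tear (e^{it}) = cos t sin^2 t + i sin t` since `(z - 1/z) / 2 = i sin t` and
`(z^2 - 1/z^2) / 4 = i sin (2t) / 2 = i sin t cos t` for `z = e^{it}`, `1/z = e^{-it}`.

Inner winding number: `tear z = (z^2 - 1)(1 + 4 z^2 - z^4)/(8 z^3)`, and with `c^2 - c^{-2} = 4`, `c > 1`,
`z^4 - 4 z^2 - 1 = (z - c)(z + c)(z - i/c)(z + i/c)`.
-/

set_option autoImplicit false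

open MeasureTheory Complex Set Filter Topology Metric AddCircle
open scoped ComplexConjugate InnerProductSpace ENNReal

namespace Pool.Agent.TBirS

open Pool.Agent.TBir

/-- The symbol `cos t sin^2 t + i sin t`. -/
noncomputable def tear (z : ℂ) : ℂ := (z - z⁻¹) / 2 * (1 - (z ^ 2 - (z ^ 2)⁻¹) / 4)

private theorem ne_zero_of_sphere {z : ℂ} (hz : z ∈ sphere (0 : ℂ) 1) : z ≠ 0 := by
  intro h
  rw [h, mem_sphere_zero_iff_norm, norm_zero] at hz
  exact zero_ne_one hz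

theorem tear_ana : AnalyticOnNhd ℂ tear (sphere 0 1) := by
  intro z hz
  have h0 := ne_zero_of_sphere hz
  have h1 : AnalyticAt ℂ (fun z : ℂ => z) z := analyticAt_id
  have h2 : AnalyticAt ℂ (fun z : ℂ => z⁻¹) z := h1.inv h0
  have h3 : AnalyticAt ℂ (fun z : ℂ => (z ^ 2)⁻¹) z := (h1.pow 2).inv (pow_ne_zero 2 h0)
  have h4 : AnalyticAt ℂ (fun z : ℂ => (z - z⁻¹) / 2) z :=
    (h1.sub h2).div analyticAt_const two_ne_zero
  have h5 : AnalyticAt ℂ (fun z : ℂ => (z ^ 2 - (z ^ 2)⁻¹) / 4) z :=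
    ((h1.pow 2).sub h3).div analyticAt_const (by norm_num)
  exact h4.mul (analyticAt_const.sub h5)

theorem tear_circle (t : ℝ) : tear (Complex.exp (t * I)) =
    ((Real.cos t * Real.sin t ^ 2 : ℝ) : ℂ) + ((Real.sin t : ℝ) : ℂ) * I := by
  have h1 : Complex.exp (t * I) = Complex.cos t + Complex.sin t * I := Complex.exp_mul_I t
  have h2 : (Complex.exp (t * I))⁻¹ = Complex.cos t - Complex.sin t * I := by
    rw [← Complex.exp_neg, ← neg_mul, Complex.exp_mul_I, Complex.cos_neg, Complex.sin_neg]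
    ring
  unfold tear
  rw [← inv_pow, h2, h1]
  push_cast
  ring_nf
  simp only [Complex.I_sq]
  ring

private def W (f : ℂ → ℂ) (n : ℂ) : Prop :=
  AnalyticOnNhd ℂ f (sphere 0 1) ∧ (∀ z ∈ sphere (0 : ℂ) 1, f z ≠ 0) ∧ wind f = n

private theorem W.mul {f g : ℂ → ℂ} {m n : ℂ} (hf : W f m) (hg : W g n) :
    W (fun w => f w * g w) (m + n) :=
  ⟨fun z hz => (hf.1 z hz).mul (hg.1 z hz), fun z hz => mul_ne_zero (hf.2.1 z hz) (hg.2.1 z hz), by
    rw [wind_mul hf.1 hg.1 hf.2.1 hg.2.1, hf.2.2, hg.2.2]⟩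

private theorem W.const {a : ℂ} (ha : a ≠ 0) : W (fun _ => a) 0 :=
  ⟨fun _ _ => analyticAt_const, fun _ _ => ha, by unfold wind; simp [circleIntegral]⟩

private theorem W.inv {f : ℂ → ℂ} {m : ℂ} (hf : W f m) : W (fun w => (f w)⁻¹) (-m) := by
  have h1 : AnalyticOnNhd ℂ (fun w => (f w)⁻¹) (sphere 0 1) :=
    fun z hz => (hf.1 z hz).inv (hf.2.1 z hz)
  have h2 : ∀ z ∈ sphere (0 : ℂ) 1, (f z)⁻¹ ≠ 0 := fun z hz => inv_ne_zero (hf.2.1 z hz)
  refine ⟨h1, h2, ?_⟩
  have h3 := wind_mul hf.1 h1 hf.2.1 h2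
  have h4 : wind (fun w => f w * (f w)⁻¹) = wind fun _ => (1 : ℂ) := by
    refine wind_congr fun z hz => ?_
    filter_upwards [(hf.1 z hz).continuousAt.eventually_ne (hf.2.1 z hz)] with w hw
    exact mul_inv_cancel₀ hw
  rw [h4, (W.const one_ne_zero).2.2, hf.2.2] at h3
  exact (neg_eq_of_add_eq_zero_right h3.symm).symm

private theorem W.lin {r : ℝ} (hr0 : 0 < r) {a : ℂ} (ha : ‖a‖ < r) :
    W (fun w => (r : ℂ) * w - a) 1 := by
  refine ⟨fun _ _ => (analyticAt_const.mul analyticAt_id).sub analyticAt_const, fun z hz h => ?_, ?_⟩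
  · rw [mem_sphere_zero_iff_norm] at hz
    have h1 : (r : ℂ) * z = a := sub_eq_zero.1 h
    rw [← h1, norm_mul, Complex.norm_real, Real.norm_eq_abs, abs_of_pos hr0, hz, mul_one] at ha
    exact lt_irrefl _ ha
  · rw [Pool.Agent.TBirG.wind_lin hr0 ha.ne, if_pos ha]

private theorem W.lin' {r : ℝ} (hr0 : 0 < r) {a : ℂ} (ha : r < ‖a‖) :
    W (fun w => (r : ℂ) * w - a) 0 := by
  refine ⟨fun _ _ => (analyticAt_const.mul analyticAt_id).sub analyticAt_const, fun z hz h => ?_, ?_⟩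
  · rw [mem_sphere_zero_iff_norm] at hz
    have h1 : (r : ℂ) * z = a := sub_eq_zero.1 h
    rw [← h1, norm_mul, Complex.norm_real, Real.norm_eq_abs, abs_of_pos hr0, hz, mul_one] at ha
    exact lt_irrefl _ ha
  · rw [Pool.Agent.TBirG.wind_lin hr0 ha.ne', if_neg ha.not_gt]

private theorem exists_c : ∃ c : ℝ, 1 < c ∧ c ^ 2 - (c ^ 2)⁻¹ = 4 := by
  refine ⟨√(2 + √5), ?_, ?_⟩
  · rw [Real.lt_sqrt zero_le_one]
    have := Real.sqrt_nonneg 5
    linarith
  · have h1 : (0 : ℝ) ≤ 2 + √5 := by positivity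
    rw [Real.sq_sqrt h1]
    have h2 : √5 * √5 = 5 := Real.mul_self_sqrt (by norm_num)
    have h3 : (2 + √5 : ℝ) ≠ 0 := by positivity
    have h4 : (2 + √5)⁻¹ = √5 - 2 := by
      rw [inv_eq_iff_eq_inv, eq_comm, inv_eq_iff_eq_inv]
      apply eq_inv_of_mul_eq_one_left
      linear_combination h2
    rw [h4]
    ring

private theorem tear_fac {c : ℝ} (hc : 1 < c) (h4 : c ^ 2 - (c ^ 2)⁻¹ = 4) (z : ℂ) :
    tear z = (-8)⁻¹ * ((z - 1) * ((z - (-1)) * ((z - c) * ((z - (-c)) *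
      ((z - I / c) * (z - (-(I / c)))))))) * ((z - 0)⁻¹ * ((z - 0)⁻¹ * (z - 0)⁻¹)) := by
  have hc0 : (c : ℂ) ≠ 0 := by
    have : c ≠ 0 := by linarith
    exact_mod_cast this
  have h5 : (c : ℂ) ^ 2 - ((c : ℂ) ^ 2)⁻¹ = 4 := by exact_mod_cast h4
  have h6 : (z - c) * ((z - (-c)) * ((z - I / c) * (z - (-(I / c))))) = z ^ 4 - 4 * z ^ 2 - 1 := by
    have h7 : (z - c) * ((z - (-c)) * ((z - I / c) * (z - (-(I / c))))) =
        (z ^ 2 - c ^ 2) * (z ^ 2 - I ^ 2 * ((c : ℂ) ^ 2)⁻¹) := by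
      field_simp
      ring
    rw [h7, I_sq]
    have h8 : (c : ℂ) ^ 2 * ((c : ℂ) ^ 2)⁻¹ = 1 := mul_inv_cancel₀ (pow_ne_zero 2 hc0)
    linear_combination (-(z ^ 2)) * h5 - h8
  rw [h6]
  unfold tear
  rcases eq_or_ne z 0 with rfl | hz
  · simp
  · rw [sub_zero]
    field_simp
    ring

theorem tear_pass : Pass tear 0 := by
  have hd : ∀ z : ℂ, z = 1 ∨ z = -1 → deriv tear z = 1 := by
    intro z hz
    have h0 : z ≠ 0 := by
      rcases hz with rfl | rfl
      · exact one_ne_zero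
      · exact neg_ne_zero.2 one_ne_zero
    have h2 : z ^ 2 = 1 := by
      rcases hz with rfl | rfl <;> norm_num
    have e1 : HasDerivAt (fun z : ℂ => (z - z⁻¹) / 2) ((1 - -(z ^ 2)⁻¹) / 2) z :=
      ((hasDerivAt_id z).sub (hasDerivAt_inv h0)).div_const 2
    have e2 : HasDerivAt (fun z : ℂ => (z ^ 2 - (z ^ 2)⁻¹) / 4)
        ((2 * z - -(2 * z) / (z ^ 2) ^ 2) / 4) z := by
      have e3 : HasDerivAt (fun z : ℂ => z ^ 2) (2 * z) z := by
        simpa using hasDerivAt_pow 2 z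
      exact (e3.sub (e3.fun_inv (pow_ne_zero 2 h0))).div_const 4
    have e4 := e1.mul (e2.const_sub 1)
    have e5 : deriv tear z = _ := e4.deriv
    rw [e5]
    have h3 : z⁻¹ = z := by
      rw [inv_eq_iff_eq_inv, eq_comm]
      apply inv_eq_of_mul_eq_one_left
      rw [← sq, h2]
    rw [h2, h3]
    simp
  refine ⟨1, by simp, -1, by simp, ?_, ?_, ?_, ?_, ?_, ?_, ?_, ?_⟩
  · norm_num
  · simp [tear]
  · unfold tear
    norm_num
  · intro z hz h
    have h0 := ne_zero_of_sphere hz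
    unfold tear at h
    rcases mul_eq_zero.1 h with h | h
    · have h1 : z = z⁻¹ := by
        have h2 := (div_eq_zero_iff.1 h).resolve_right two_ne_zero
        exact sub_eq_zero.1 h2
      have h2 : z * z = 1 := by
        nth_rw 2 [h1]
        exact mul_inv_cancel₀ h0
      exact mul_self_eq_one_iff.1 h2
    · exfalso
      rw [mem_sphere_zero_iff_norm] at hz
      have h1 : z ^ 2 - (z ^ 2)⁻¹ = 4 := by
        have h2 := sub_eq_zero.1 h
        field_simp at h2 ⊢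
        linear_combination -h2
      have h2 : ‖z ^ 2 - (z ^ 2)⁻¹‖ ≤ 2 := by
        refine (norm_sub_le _ _).trans ?_
        rw [norm_inv, norm_pow, hz]
        norm_num
      rw [h1] at h2
      norm_num at h2
  · rw [hd 1 (Or.inl rfl)]
    exact one_ne_zero
  · rw [hd (-1) (Or.inr rfl)]
    exact one_ne_zero
  · intro a ha h
    rw [hd 1 (Or.inl rfl), hd (-1) (Or.inr rfl)] at h
    have h1 := congrArg Complex.re h
    simp at h1
    linarith
  · obtain ⟨c, hc, h4⟩ := exists_c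
    have hc1 : c⁻¹ < 1 := inv_lt_one_of_one_lt₀ hc
    have hc0 : 0 < c := by linarith
    filter_upwards [Ioo_mem_nhdsLT hc1] with r hr
    have hr0 : 0 < r := (inv_pos.2 hc0).trans hr.1
    have hr1 : r < 1 := hr.2
    have n1 : ‖(I / c : ℂ)‖ < r := by
      rw [norm_div, Complex.norm_I, Complex.norm_real, Real.norm_eq_abs, abs_of_pos hc0, one_div]
      exact hr.1
    have n2 : r < ‖(c : ℂ)‖ := by
      rw [Complex.norm_real, Real.norm_eq_abs, abs_of_pos hc0]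
      linarith
    have key : W (fun w => tear (r * w) - 0) (0 + (0 + (0 + (0 + (0 + (1 + 1))))) +
        (-1 + (-1 + -1))) := by
      have h8 : (-8 : ℂ)⁻¹ ≠ 0 := by norm_num
      have k0 : W (fun w => (r : ℂ) * w - 0) 1 := W.lin hr0 (by rw [norm_zero]; exact hr0)
      have k1 : W (fun w => (r : ℂ) * w - 1) 0 := W.lin' hr0 (by rw [norm_one]; exact hr1)
      have k2 : W (fun w => (r : ℂ) * w - -1) 0 :=
        W.lin' hr0 (by rw [norm_neg, norm_one]; exact hr1)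
      have k3 : W (fun w => (r : ℂ) * w - c) 0 := W.lin' hr0 n2
      have k4 : W (fun w => (r : ℂ) * w - -c) 0 := W.lin' hr0 (by rw [norm_neg]; exact n2)
      have k5 : W (fun w => (r : ℂ) * w - I / c) 1 := W.lin hr0 n1
      have k6 : W (fun w => (r : ℂ) * w - -(I / c)) 1 := W.lin hr0 (by rw [norm_neg]; exact n1)
      have k7 := ((W.const h8).mul (k1.mul (k2.mul (k3.mul (k4.mul (k5.mul k6)))))).mul
        (k0.inv.mul (k0.inv.mul k0.inv))
      have k8 : (fun w : ℂ => tear (r * w) - 0) = _ := funext fun w => by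
        rw [sub_zero, tear_fac hc h4 (r * w)]
      rw [k8]
      exact k7
    rw [key.2.2]
    norm_num

end Pool.Agent.TBirS
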