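import Pool.Agent.TBirS.ExaA
import Pool.Agent.TBirS.Cut

/-!
# Two teardrops touching at the origin: the winding numbers

MODULE. Proof. By `tear_circle`, `J tear` is the set of the zeros of
`F (x + i y) = x^2 - (1 - y^2) y^4` (`exb_mem`).

(1) `wd tear` is constant along paths in `(J tear)ᶜ` (`exb_path`).
(2) If `F l > 0` then `wd tear l = 0`: one of the horizontal half lines `{l + s, s ≥ 0}`, `{l - s, s ≥ 0}`
(the one going away from `x = 0`) is in `(J tear)ᶜ`, and `wd = 0` far away (`wd_large`).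
(3) `wd tear (± i / 2) = 1`: on the circle, `w = e^{it}`, `tear w - w = - cos^3 t` and
`|w ∓ i/2|^2 = cos^2 t + (sin t ∓ 1/2)^2 > cos^6 t` (`wind_near`, `wind_sub_const`).
(4) If `F l < 0` then `wd tear l = 1`: a horizontal path to `i y`, a vertical path to `± i/2`.
-/

set_option autoImplicit false

open MeasureTheory Complex Set Filter Topology Metric AddCircle
open scoped ComplexConjugate InnerProductSpace ENNReal

namespace Pool.Agent.TBirS

open Pool.Agent.TBir

private theorem exb_path {phi : ℂ → ℂ} (hphi : AnalyticOnNhd ℂ phi (sphere 0 1)) {g : ℝ → ℂ}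
    (hg : Continuous g) {a b : ℝ} (hab : a ≤ b) (h : ∀ s ∈ Icc a b, g s ∉ J phi) :
    wd phi (g a) = wd phi (g b) := by
  haveI : PreconnectedSpace (Icc a b) := isPreconnected_iff_preconnectedSpace.1 isPreconnected_Icc
  have h1 : IsLocallyConstant (fun s : Icc a b => wd phi (g s)) := by
    rw [IsLocallyConstant.iff_eventually_eq]
    intro x
    have h2 := wd_loc hphi (h x x.2)
    have h3 : Tendsto (fun s : Icc a b => g s) (𝓝 x) (𝓝 (g x)) :=
      (hg.comp continuous_subtype_val).continuousAt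
    filter_upwards [h3.eventually h2] with s hs
    exact hs.2
  exact h1.apply_eq_of_preconnectedSpace ⟨a, left_mem_Icc.2 hab⟩ ⟨b, right_mem_Icc.2 hab⟩

private theorem exb_mem {l : ℂ} : l ∈ J tear ↔ l.re ^ 2 = (1 - l.im ^ 2) * l.im ^ 4 := by
  have hJ : l ∈ J tear ↔ ∃ t : ℝ, l.re = Real.cos t * Real.sin t ^ 2 ∧ l.im = Real.sin t := by
    constructor
    · rintro ⟨z, hz, rfl⟩
      have h1 : ‖z‖ = 1 := by simpa using hz
      have h2 : z = Complex.exp (Complex.arg z * I) := by
        conv_lhs => rw [← Complex.norm_mul_exp_arg_mul_I z, h1]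
        simp
      refine ⟨Complex.arg z, ?_, ?_⟩
      · rw [h2, tear_circle, ← h2]
        simp only [Complex.add_re, Complex.mul_re, Complex.ofReal_re, Complex.ofReal_im, Complex.I_re, Complex.I_im, mul_zero,
          mul_one, sub_self, add_zero, zero_mul]
      · rw [h2, tear_circle, ← h2]
        simp only [Complex.add_im, Complex.mul_im, Complex.ofReal_re, Complex.ofReal_im, Complex.I_re, Complex.I_im, mul_zero,
          mul_one, add_zero, zero_add]
    · rintro ⟨t, h1, h2⟩
      refine ⟨Complex.exp (t * I), by simp [Complex.norm_exp_ofReal_mul_I], ?_⟩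
      rw [tear_circle, ← h1, ← h2]
      exact Complex.re_add_im l
  rw [hJ]
  constructor
  · rintro ⟨t, h1, h2⟩
    rw [h1, h2]
    have := Real.sin_sq_add_cos_sq t
    have e : Real.cos t ^ 2 = 1 - Real.sin t ^ 2 := by linarith
    rw [mul_pow, e]
    ring
  · intro h
    have h1 : l.im ^ 2 ≤ 1 := by
      by_contra hc
      have hc' := not_le.1 hc
      have h2 : (1 - l.im ^ 2) * l.im ^ 4 < 0 := by
        refine mul_neg_of_neg_of_pos (by linarith) ?_
        have : l.im ^ 4 = (l.im ^ 2) ^ 2 := by ring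
        rw [this]
        positivity
      have := sq_nonneg l.re
      linarith
    have h2 : -1 ≤ l.im ∧ l.im ≤ 1 := abs_le.1 ((sq_le_one_iff_abs_le_one _).1 h1)
    have h3 := Real.sin_arcsin h2.1 h2.2
    have h4 : Real.cos (Real.arcsin l.im) ^ 2 = 1 - l.im ^ 2 := by
      have := Real.sin_sq_add_cos_sq (Real.arcsin l.im)
      rw [h3] at this
      linarith
    have h5 : (l.re) ^ 2 = (Real.cos (Real.arcsin l.im) * l.im ^ 2) ^ 2 := by
      rw [h, mul_pow, h4]
      ring
    rcases sq_eq_sq_iff_eq_or_eq_neg.1 h5 with h6 | h6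
    · exact ⟨Real.arcsin l.im, by rw [h3]; exact h6, h3.symm⟩
    · refine ⟨Real.pi - Real.arcsin l.im, ?_, ?_⟩
      · rw [Real.cos_pi_sub, Real.sin_pi_sub, h3]
        rw [h6]
        ring
      · rw [Real.sin_pi_sub, h3]

private theorem exb_out {l : ℂ} (h : (1 - l.im ^ 2) * l.im ^ 4 < l.re ^ 2) : wd tear l = 0 := by
  obtain ⟨R, hR⟩ := wd_large tear_ana
  obtain ⟨e, he, hel⟩ : ∃ e : ℝ, e ^ 2 = 1 ∧ 0 ≤ e * l.re := by
    rcases le_total 0 l.re with h1 | h1
    · exact ⟨1, by norm_num, by simpa using h1⟩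
    · exact ⟨-1, by norm_num, by simpa using h1⟩
  set g : ℝ → ℂ := fun s => l + ((e * s : ℝ) : ℂ) with hg
  have gc : Continuous g := by
    rw [hg]
    fun_prop
  have gre : ∀ s, (g s).re = l.re + e * s := fun s => by simp [hg]
  have gim : ∀ s, (g s).im = l.im := fun s => by simp [hg]
  set b : ℝ := |R| + ‖l‖ + 1 with hb
  have hb0 : 0 ≤ b := by positivity
  have k1 : ∀ s ∈ Icc 0 b, g s ∉ J tear := by
    intro s hs hJ
    rw [exb_mem, gre, gim] at hJ
    have h2 : l.re ^ 2 ≤ (l.re + e * s) ^ 2 := by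
      have h3 : 0 ≤ e * l.re * s := mul_nonneg hel hs.1
      nlinarith [sq_nonneg (e * s)]
    linarith
  have k2 := exb_path tear_ana gc hb0 k1
  have k3 : g 0 = l := by simp [hg]
  have k4 : R < ‖g b‖ := by
    have h2 : ‖((e * b : ℝ) : ℂ)‖ = b := by
      rw [Complex.norm_real, Real.norm_eq_abs, abs_mul, abs_of_nonneg hb0]
      have : |e| = 1 := by
        have h3 := (sq_eq_sq_iff_abs_eq_abs e 1).1 (by rw [he]; norm_num)
        simpa using h3
      rw [this, one_mul]
    have h3 : ‖((e * b : ℝ) : ℂ)‖ ≤ ‖g b‖ + ‖l‖ := by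
      have h4 : ((e * b : ℝ) : ℂ) = g b - l := by simp [hg]
      rw [h4]
      exact norm_sub_le _ _
    have := le_abs_self R
    rw [h2] at h3
    linarith
  rw [k3] at k2
  rw [k2]
  exact (hR _ k4).2

private theorem exb_half {e : ℝ} (he : e ^ 2 = 1) : wd tear (((e / 2 : ℝ) : ℂ) * I) = 1 := by
  set l : ℂ := ((e / 2 : ℝ) : ℂ) * I with hl
  have hn : ‖l‖ = 1 / 2 := by
    rw [hl, norm_mul, Complex.norm_I, mul_one, Complex.norm_real, Real.norm_eq_abs, abs_div]
    have : |e| = 1 := by
      have h3 := (sq_eq_sq_iff_abs_eq_abs e 1).1 (by rw [he]; norm_num)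
      simpa using h3
    rw [this, abs_of_pos (by norm_num : (0 : ℝ) < 2)]
  have h1 : wind (fun w => w - l) = 1 := by
    rw [wind_sub_const (by rw [hn]; norm_num), if_pos (by rw [hn]; norm_num)]
  unfold wd
  rw [← h1]
  refine wind_near (tear_ana.sub fun _ _ => analyticAt_const)
    ((fun _ _ => analyticAt_id.sub analyticAt_const)) fun z hz => ?_
  have h2 : ‖z‖ = 1 := by simpa using hz
  have h3 : z = Complex.exp (Complex.arg z * I) := by
    conv_lhs => rw [← Complex.norm_mul_exp_arg_mul_I z, h2]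
    simp
  set t := Complex.arg z with ht
  have hs := Real.sin_sq_add_cos_sq t
  have e1 : z = ((Real.cos t : ℝ) : ℂ) + ((Real.sin t : ℝ) : ℂ) * I := by
    rw [h3, Complex.exp_mul_I]
    push_cast
    rfl
  have e2 : tear z = ((Real.cos t * Real.sin t ^ 2 : ℝ) : ℂ) + ((Real.sin t : ℝ) : ℂ) * I := by
    conv_lhs => rw [h3]
    exact tear_circle t
  have e3 : tear z - l - (z - l) = ((-(Real.cos t ^ 3) : ℝ) : ℂ) := by
    have : tear z - l - (z - l) = tear z - z := by ring
    rw [this, e2]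
    conv_lhs => rw [e1]
    have e4 : (Real.cos t * Real.sin t ^ 2 : ℝ) = Real.cos t - Real.cos t ^ 3 := by
      have : Real.sin t ^ 2 = 1 - Real.cos t ^ 2 := by linarith
      rw [this]
      ring
    rw [e4]
    push_cast
    ring
  have e5 : z - l = ((Real.cos t : ℝ) : ℂ) + ((Real.sin t - e / 2 : ℝ) : ℂ) * I := by
    conv_lhs => rw [e1]
    rw [hl]
    push_cast
    ring
  show ‖tear z - l - (z - l)‖ < ‖z - l‖
  rw [e3, e5]
  have n1 : ‖((-(Real.cos t ^ 3) : ℝ) : ℂ)‖ ^ 2 = Real.cos t ^ 6 := by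
    rw [Complex.norm_real, Real.norm_eq_abs, sq_abs]
    ring
  have n2 : ‖((Real.cos t : ℝ) : ℂ) + ((Real.sin t - e / 2 : ℝ) : ℂ) * I‖ ^ 2 =
      Real.cos t ^ 2 + (Real.sin t - e / 2) ^ 2 := by
    rw [← Complex.normSq_eq_norm_sq, Complex.normSq_add_mul_I]
  refine lt_of_pow_lt_pow_left₀ 2 (norm_nonneg _) ?_
  rw [n1, n2]
  have n3 : Real.cos t ^ 2 + (Real.sin t - e / 2) ^ 2 - Real.cos t ^ 6 =
      Real.cos t ^ 2 * Real.sin t ^ 2 * (1 + Real.cos t ^ 2) + (Real.sin t - e / 2) ^ 2 := by
    have : Real.sin t ^ 2 = 1 - Real.cos t ^ 2 := by linarith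
    rw [this]
    ring
  have n4 : 0 ≤ Real.cos t ^ 2 * Real.sin t ^ 2 * (1 + Real.cos t ^ 2) := by positivity
  have n5 := sq_nonneg (Real.sin t - e / 2)
  by_contra hc
  have n6 : (Real.sin t - e / 2) ^ 2 = 0 := by linarith
  have n7 : Real.cos t ^ 2 * Real.sin t ^ 2 * (1 + Real.cos t ^ 2) = 0 := by linarith
  have n8 : Real.sin t = e / 2 := by
    have := pow_eq_zero_iff (two_ne_zero) |>.1 n6
    linarith
  have n9 : Real.sin t ^ 2 = 1 / 4 := by
    rw [n8, div_pow, he]
    norm_num
  have n10 : Real.cos t ^ 2 = 3 / 4 := by linarith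
  rw [n9, n10] at n7
  norm_num at n7

private theorem exb_in {l : ℂ} (h : l.re ^ 2 < (1 - l.im ^ 2) * l.im ^ 4) : wd tear l = 1 := by
  have h0 : 0 < (1 - l.im ^ 2) * l.im ^ 4 := lt_of_le_of_lt (sq_nonneg _) h
  have hy0 : l.im ≠ 0 := by
    intro hh
    rw [hh] at h0
    norm_num at h0
  have h4 : 0 < l.im ^ 4 := by positivity
  have hy1 : l.im ^ 2 < 1 := by
    by_contra hc
    have := mul_nonpos_of_nonpos_of_nonneg (show 1 - l.im ^ 2 ≤ 0 by linarith) h4.le
    linarith
  -- the horizontal path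
  have k1 : wd tear l = wd tear (((l.im : ℝ) : ℂ) * I) := by
    set g : ℝ → ℂ := fun s => (((1 - s) * l.re : ℝ) : ℂ) + ((l.im : ℝ) : ℂ) * I with hg
    have gc : Continuous g := by
      rw [hg]
      fun_prop
    have gre : ∀ s, (g s).re = (1 - s) * l.re := fun s => by simp [hg]
    have gim : ∀ s, (g s).im = l.im := fun s => by simp [hg]
    have k2 := exb_path tear_ana gc zero_le_one fun s hs hJ => by
      rw [exb_mem, gre, gim] at hJ
      have h2 : ((1 - s) * l.re) ^ 2 ≤ l.re ^ 2 := by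
        rw [mul_pow]
        have h3 : (1 - s) ^ 2 ≤ 1 := by
          have := hs.1
          have := hs.2
          nlinarith
        have := mul_le_mul_of_nonneg_right h3 (sq_nonneg l.re)
        linarith
      linarith
    have e0 : g 0 = l := by
      simp only [hg, sub_zero, one_mul]
      exact Complex.re_add_im l
    have e1 : g 1 = ((l.im : ℝ) : ℂ) * I := by simp [hg]
    rw [e0, e1] at k2
    exact k2
  rw [k1]
  -- the vertical path
  obtain ⟨e, he, hel⟩ : ∃ e : ℝ, e ^ 2 = 1 ∧ 0 < e * l.im := by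
    rcases lt_or_gt_of_ne hy0 with h1 | h1
    · exact ⟨-1, by norm_num, by linarith⟩
    · exact ⟨1, by norm_num, by linarith⟩
  set g : ℝ → ℂ := fun s => (((1 - s) * l.im + s * (e / 2) : ℝ) : ℂ) * I with hg
  have gc : Continuous g := by
    rw [hg]
    fun_prop
  have gre : ∀ s, (g s).re = 0 := fun s => by simp [hg]
  have gim : ∀ s, (g s).im = (1 - s) * l.im + s * (e / 2) := fun s => by simp [hg]
  have k2 := exb_path tear_ana gc zero_le_one fun s hs hJ => by
    rw [exb_mem, gre, gim] at hJ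
    set y := (1 - s) * l.im + s * (e / 2) with hy
    have a0 : 0 < e * y := by
      have a1 : e * y = (1 - s) * (e * l.im) + s / 2 := by
        rw [hy]
        linear_combination (s / 2) * he
      rw [a1]
      rcases lt_or_ge s 1 with a2 | a2
      · have := mul_pos (sub_pos.2 a2) hel
        have := hs.1
        linarith
      · have a3 : s = 1 := le_antisymm hs.2 a2
        rw [a3]
        norm_num
    have a1 : e * l.im < 1 := by
      have a2 : (e * l.im) ^ 2 < 1 := by rw [mul_pow, he, one_mul]; exact hy1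
      nlinarith
    have a3 : e * y < 1 := by
      have a4 : e * y = (1 - s) * (e * l.im) + s / 2 := by
        rw [hy]
        linear_combination (s / 2) * he
      rw [a4]
      have := hs.1
      have := hs.2
      nlinarith
    have a5 : y ^ 2 < 1 := by
      have a6 : (e * y) ^ 2 < 1 := by nlinarith
      rw [mul_pow, he, one_mul] at a6
      exact a6
    have a7 : y ≠ 0 := by
      intro hh
      rw [hh, mul_zero] at a0
      exact lt_irrefl _ a0
    have a8 : 0 < (1 - y ^ 2) * y ^ 4 := mul_pos (by linarith) (by positivity)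
    rw [← hJ] at a8
    norm_num at a8
  have e0 : g 0 = ((l.im : ℝ) : ℂ) * I := by simp [hg]
  have e1 : g 1 = ((e / 2 : ℝ) : ℂ) * I := by simp [hg]
  rw [e0, e1] at k2
  rw [k2]
  exact exb_half he

/-- The winding number takes only the values `0` and `1`. -/
theorem tear_wd {l : ℂ} (hl : l ∉ J tear) : wd tear l = 0 ∨ wd tear l = 1 := by
  rw [exb_mem] at hl
  rcases lt_or_gt_of_ne hl with h | h
  · exact Or.inr (exb_in h)
  · exact Or.inl (exb_out h)

theorem tear_half {l : ℂ} (hl : l = I / 2 ∨ l = -(I / 2)) : l ∉ J tear ∧ wd tear l = 1 := by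
  obtain ⟨e, he, h1⟩ : ∃ e : ℝ, e ^ 2 = 1 ∧ l = ((e / 2 : ℝ) : ℂ) * I := by
    rcases hl with h | h
    · exact ⟨1, by norm_num, by rw [h]; push_cast; ring⟩
    · exact ⟨-1, by norm_num, by rw [h]; push_cast; ring⟩
  refine ⟨?_, by rw [h1]; exact exb_half he⟩
  rw [exb_mem, h1]
  simp only [Complex.mul_re, Complex.ofReal_re, Complex.I_re, mul_zero, Complex.ofReal_im, Complex.I_im, mul_one, sub_self,
    Complex.mul_im, zero_mul, add_zero, div_pow, he]
  have h2 : e ^ 4 = 1 := by
    have : e ^ 4 = (e ^ 2) ^ 2 := by ring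
    rw [this, he]
    norm_num
  rw [h2]
  norm_num

/-- The real line meets the spectrum only at the origin. -/
theorem tear_cov : Sg tear \ {0} ⊆ {l : ℂ | 0 < l.im} ∪ {l : ℂ | l.im < 0} := by
  rintro l ⟨hl, h0⟩
  rcases lt_trichotomy 0 l.im with h | h | h
  · exact Or.inl h
  · exfalso
    have h1 : l.re ≠ 0 := by
      intro hh
      exact h0 (Complex.ext hh h.symm)
    have h2 : (1 - l.im ^ 2) * l.im ^ 4 < l.re ^ 2 := by
      rw [← h]
      norm_num
      positivity
    rcases hl with h3 | h3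
    · rw [exb_mem] at h3
      exact h2.ne' h3
    · exact h3 (exb_out h2)
  · exact Or.inr h

end Pool.Agent.TBirS
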