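import Pool.Agent.TBirS.Main
import Pool.Agent.TBirS.ExaB
import Pool.Agent.TBirS.EvenG

/-!
# Splitting at passable points: final forms
-/

set_option autoImplicit false

open MeasureTheory Complex Set Filter Topology Metric AddCircle
open scoped ComplexConjugate InnerProductSpace ENNReal

namespace Pool.Agent.TBirS

open Pool.Agent.TBir

theorem exists_sep {S : Set ℂ} (h : ¬ IsPreconnected S) : ∃ U1 U2 : Set ℂ, IsOpen U1 ∧ IsOpen U2 ∧
    Disjoint U1 U2 ∧ S ⊆ U1 ∪ U2 ∧ (∃ l ∈ U1, l ∈ S) ∧ ∃ l ∈ U2, l ∈ S := by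
  rw [IsPreconnected] at h
  push Not at h
  obtain ⟨u, v, hu, hv, hS, hSu, hSv, he⟩ := h
  have hd1 : Disjoint (closure (S ∩ u)) (S ∩ v) := by
    rw [Set.disjoint_left]
    intro x hx hx'
    obtain ⟨y, hy, hy'⟩ := mem_closure_iff.1 hx v hv hx'.2
    have : y ∈ S ∩ (u ∩ v) := ⟨hy'.1, hy'.2, hy⟩
    rw [he] at this
    exact this
  have hd2 : Disjoint (S ∩ u) (closure (S ∩ v)) := by
    rw [Set.disjoint_right]
    intro x hx hx'
    obtain ⟨y, hy, hy'⟩ := mem_closure_iff.1 hx u hu hx'.2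
    have : y ∈ S ∩ (u ∩ v) := ⟨hy'.1, hy, hy'.2⟩
    rw [he] at this
    exact this
  obtain ⟨U1, U2, o1, o2, h1, h2, h3⟩ := separatedNhds_iff_disjoint.2
    (CompletelyNormalSpace.completely_normal hd1 hd2)
  refine ⟨U1, U2, o1, o2, h3, fun x hx => ?_, ?_, ?_⟩
  · rcases hS hx with h | h
    · exact Or.inl (h1 ⟨hx, h⟩)
    · exact Or.inr (h2 ⟨hx, h⟩)
  · obtain ⟨x, hx⟩ := hSu
    exact ⟨x, h1 hx, hx.1⟩
  · obtain ⟨x, hx⟩ := hSv
    exact ⟨x, h2 hx, hx.1⟩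

theorem main_conn {phi : ℂ → ℂ} (hphi : AnalyticOnNhd ℂ phi (sphere 0 1)) {Q : Set ℂ}
    (hQ : Q.Finite) (hP : ∀ q ∈ Q, Pass phi q)
    (hS : ¬ IsPreconnected (Sg phi \ Q)) : ¬ BIR H2 (IsToeplitz phi) := by
  obtain ⟨U1, U2, o1, o2, hd, hc, ⟨l1, h1, h1'⟩, ⟨l2, h2, h2'⟩⟩ := exists_sep hS
  exact (main_split hphi hQ hP o1 o2 hd hc ⟨l1, h1, h1'.1, h1'.2⟩ ⟨l2, h2, h2'.1, h2'.2⟩).2

theorem exists_toeplitz {phi : ℂ → ℂ} (hphi : AnalyticOnNhd ℂ phi (sphere 0 1)) :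
    ∀ f ∈ H2, ∃! g, IsToeplitz phi f g := by
  have hc : Continuous fun x : UnitAddCircle => phi (e x) := by
    refine hphi.continuousOn.comp_continuous continuous_e fun x => ?_
    rw [mem_sphere_zero_iff_norm]
    exact norm_e x
  obtain ⟨Phi, hPhi⟩ : ∃ Phi : CT, ∀ x, Phi x = phi (e x) := ⟨⟨_, hc⟩, fun _ => rfl⟩
  intro f hf
  obtain ⟨f', rfl⟩ := exists_incl hf
  exact ⟨_, isToeplitz_incl hPhi f', fun g hg => isToeplitz_unique hg (isToeplitz_incl hPhi f')⟩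

theorem tear_main : (∀ l, l ∉ tear '' sphere 0 1 → (wind fun w => tear w - l) = 0 ∨
    (wind fun w => tear w - l) = 1) ∧ ¬ BIR H2 (IsToeplitz tear) := by
  refine ⟨fun l hl => tear_wd hl, ?_⟩
  refine (main_split tear_ana (Set.finite_singleton 0) ?_ (U1 := {l : ℂ | 0 < l.im})
    (U2 := {l : ℂ | l.im < 0}) (isOpen_lt continuous_const Complex.continuous_im)
    (isOpen_lt Complex.continuous_im continuous_const) ?_ tear_cov ?_ ?_).2
  · rintro q rfl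
    exact tear_pass
  · rw [Set.disjoint_left]
    intro l h1 h2
    exact lt_asymm (show (0 : ℝ) < l.im from h1) h2
  · refine ⟨I / 2, by simp, Or.inr ?_, ?_⟩
    · rw [(tear_half (Or.inl rfl)).2]
      exact one_ne_zero
    · intro h
      simp at h
  · refine ⟨-(I / 2), by simp, Or.inr ?_, ?_⟩
    · rw [(tear_half (Or.inr rfl)).2]
      exact one_ne_zero
    · intro h
      simp at h

end Pool.Agent.TBirS
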