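import Pool.Agent.TBirS.Loc

/-!
# Local data from local inverses

The construction of Pool/Agent/TBir/MkLD.lean for the data `LS`, with the winding number of the
quotient from the inner winding number.
-/

set_option autoImplicit false

open MeasureTheory Complex Set Filter Topology Metric AddCircle
open scoped ComplexConjugate InnerProductSpace ENNReal

namespace Pool.Agent.TBirS

open Pool.Agent.TBir

private theorem mkld_ann_open (d : ℝ) : IsOpen (ann d) :=
  (isOpen_lt continuous_const continuous_norm).inter (isOpen_lt continuous_norm continuous_const)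

private theorem mkld_ann_mono {d d' : ℝ} (h : d' ≤ d) : ann d' ⊆ ann d := by
  rintro w ⟨h1, h2⟩
  exact ⟨by linarith, by linarith⟩

private theorem mkld_e_norm (t : UnitAddCircle) : ‖e t‖ = 1 := by
  unfold e
  exact Circle.norm_coe _

private theorem mkld_e_cont : Continuous e := by
  unfold e
  exact (continuous_subtype_val (p := fun z : ℂ => z ∈ Submonoid.unitSphere ℂ)).comp AddCircle.continuous_toCircle

private theorem mkld_e_surj {z : ℂ} (hz : z ∈ sphere (0 : ℂ) 1) : ∃ t, e t = z := by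
  have hz' : ‖z‖ = 1 := by simpa using hz
  let c : Circle := ⟨z, by simpa [Submonoid.unitSphere] using hz'⟩
  refine ⟨(AddCircle.homeomorphCircle (T := (1 : ℝ)) one_ne_zero).symm c, ?_⟩
  unfold e
  have h := (AddCircle.homeomorphCircle (T := (1 : ℝ)) one_ne_zero).apply_symm_apply c
  rw [AddCircle.homeomorphCircle_apply] at h
  rw [h]

private theorem mkld_e_ann {d : ℝ} (hd : 0 < d) (t : UnitAddCircle) : e t ∈ ann d := by
  show 1 - d < ‖e t‖ ∧ ‖e t‖ < 1 + d
  rw [mkld_e_norm]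
  exact ⟨by linarith, by linarith⟩

private theorem mkld_sphere_ann {d : ℝ} (hd : 0 < d) : sphere (0 : ℂ) 1 ⊆ ann d := by
  intro z hz
  have hz' : ‖z‖ = 1 := by simpa using hz
  show 1 - d < ‖z‖ ∧ ‖z‖ < 1 + d
  rw [hz']
  exact ⟨by linarith, by linarith⟩

/-- shrink the ball so that the zero stays near the circle -/
private theorem mkld_zcase {phi z : ℂ → ℂ} {l0 c : ℂ} {r0 δ : ℝ} {U : Set ℂ} (hr0 : 0 < r0)
    (hδ : 0 < δ) (h : DifferentiableOn ℂ z (ball l0 r0))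
    (hc : (‖z l0‖ = 1 ∧ ∀ l ∈ ball l0 r0, z l ∈ U ∧ phi (z l) = l) ∨ (U = ∅ ∧ ∀ l, z l = c)) :
    ∃ ρ : ℝ, 0 < ρ ∧ ρ ≤ r0 ∧
      ((‖z l0‖ = 1 ∧ ∀ l ∈ ball l0 ρ, z l ∈ ann δ ∧ z l ∈ U ∧ phi (z l) = l) ∨
        (U = ∅ ∧ ∀ l, z l = c)) := by
  rcases hc with ⟨hn, hc⟩ | hc
  · have hcont : ContinuousAt z l0 :=
      (h.differentiableAt (isOpen_ball.mem_nhds (mem_ball_self hr0))).continuousAt
    have hmem : z l0 ∈ ann δ := by
      show 1 - δ < ‖z l0‖ ∧ ‖z l0‖ < 1 + δ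
      rw [hn]
      exact ⟨by linarith, by linarith⟩
    have hnhds := hcont.preimage_mem_nhds ((mkld_ann_open δ).mem_nhds hmem)
    obtain ⟨ρ, hρ, hsub⟩ := Metric.mem_nhds_iff.1 hnhds
    refine ⟨min ρ r0, lt_min hρ hr0, min_le_right _ _, Or.inl ⟨hn, fun l hl => ?_⟩⟩
    have h1 := hsub (ball_subset_ball (min_le_left ρ r0) hl)
    have h2 := hc l (ball_subset_ball (min_le_right ρ r0) hl)
    exact ⟨h1, h2.1, h2.2⟩
  · exact ⟨r0, hr0, le_rfl, Or.inr hc⟩

/-- distance of the zeros from the two circles -/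
private theorem mkld_dist {d' : ℝ} (hd' : 0 < d') (hd1 : d' < 1 / 2) {w a : ℂ}
    (hw : ‖w‖ = 1 - d' ∨ ‖w‖ = 1 + d') (ha : a ∈ ann (d' / 2) ∨ (5 ≤ ‖a‖ ∧ ‖a‖ ≤ 7)) :
    d' / 2 ≤ ‖w - a‖ ∧ ‖w - a‖ ≤ 9 := by
  have h1 : ‖w‖ ≤ 2 := by rcases hw with h | h <;> linarith
  have h2 := norm_sub_norm_le w a
  have h3 := norm_sub_norm_le a w
  rw [norm_sub_rev] at h3
  have h4 := norm_sub_le w a
  rcases ha with ⟨ha1, ha2⟩ | ⟨ha1, ha2⟩
  · constructor
    · rcases hw with h | h <;> linarith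
    · linarith
  · constructor <;> linarith

private theorem mkld_deriv {phi z : ℂ → ℂ} {l0 l : ℂ} {r d : ℝ}
    (hz : DifferentiableOn ℂ z (ball l0 r)) (hphi : DifferentiableOn ℂ phi (ann d))
    (hl : l ∈ ball l0 r) (hzl : z l ∈ ann d) (heq : ∀ l ∈ ball l0 r, phi (z l) = l) :
    deriv phi (z l) ≠ 0 := by
  have h1 := (hphi.differentiableAt ((mkld_ann_open d).mem_nhds hzl)).hasDerivAt
  have h2 := (hz.differentiableAt (isOpen_ball.mem_nhds hl)).hasDerivAt
  have h3 := h1.comp l h2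
  have h4 : HasDerivAt (phi ∘ z) 1 l := by
    refine (hasDerivAt_id l).congr_of_eventuallyEq ?_
    filter_upwards [isOpen_ball.mem_nhds hl] with l' hl'
    exact heq l' hl'
  have h5 := h3.unique h4
  intro h0
  rw [h0, zero_mul] at h5
  exact zero_ne_one h5

/-- The winding number of the quotient from the inner winding number. -/
theorem inner_wind {phi g : ℂ → ℂ} {d : ℝ} (hd : 0 < d) {l a b : ℂ}
    (hg : DifferentiableOn ℂ g (ann d)) (hg0 : ∀ w ∈ sphere (0 : ℂ) 1, g w ≠ 0)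
    (fac : ∀ w ∈ ann d, phi w - l = g w * ((w - a) * (w - b))) (ha : ‖a‖ = 1) (hb : ‖b‖ = 1)
    (hin : ∀ᶠ r : ℝ in 𝓝[<] 1, (wind fun w => phi (r * w) - l) = -1) : wind g = -1 := by
  have hga : AnalyticOnNhd ℂ g (sphere 0 1) := Pool.Agent.TBirG.analyticOnNhd_sphere hd hg
  have h1 := (Pool.Agent.TBirG.wind_dil hga hg0).filter_mono
    (nhdsWithin_le_nhds (s := Iio (1 : ℝ)))
  have h2 : ∀ᶠ r : ℝ in 𝓝[<] 1, r < 1 := self_mem_nhdsWithin
  have h3 : ∀ᶠ r : ℝ in 𝓝[<] 1, 0 < r := nhdsWithin_le_nhds (Ioi_mem_nhds one_pos)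
  have h4 : ∀ᶠ r : ℝ in 𝓝[<] 1, 1 - d < r := nhdsWithin_le_nhds (Ioi_mem_nhds (by linarith))
  obtain ⟨r, hr⟩ := (hin.and (h1.and (h2.and (h3.and h4)))).exists
  obtain ⟨r1, ⟨r2, r3, r4⟩, r5, r6, r7⟩ := hr
  have hn : ∀ z ∈ sphere (0 : ℂ) 1, ‖(r : ℂ) * z‖ = r := by
    intro z hz
    rw [mem_sphere_zero_iff_norm] at hz
    rw [norm_mul, hz, mul_one, Complex.norm_real, Real.norm_eq_abs, abs_of_pos r6]
  have e1 : (wind fun w => phi (r * w) - l) =
      wind fun w => g (r * w) * ((r * w - a) * (r * w - b)) := by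
    refine wind_congr fun z hz => ?_
    have hc : Continuous fun w : ℂ => (r : ℂ) * w := by fun_prop
    have hmem : (r : ℂ) * z ∈ ann d := by
      refine ⟨?_, ?_⟩ <;> rw [hn z hz] <;> linarith
    filter_upwards [hc.continuousAt.preimage_mem_nhds ((isOpen_ann d).mem_nhds hmem)] with w hw
    exact fac _ hw
  have hlin : ∀ c : ℂ, AnalyticOnNhd ℂ (fun w : ℂ => (r : ℂ) * w - c) (sphere 0 1) := fun c z _ =>
    (analyticAt_const.mul analyticAt_id).sub analyticAt_const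
  have hne : ∀ c : ℂ, ‖c‖ = 1 → ∀ z ∈ sphere (0 : ℂ) 1, (r : ℂ) * z - c ≠ 0 := by
    intro c hc z hz h
    have := hn z hz
    rw [sub_eq_zero.1 h, hc] at this
    linarith
  have e2 : (wind fun w => g (r * w) * ((r * w - a) * (r * w - b))) =
      (wind fun w => g (r * w)) + wind fun w => (r * w - a) * (r * w - b) :=
    wind_mul r2 ((hlin a).mul (hlin b)) r3 fun z hz => mul_ne_zero (hne a ha z hz) (hne b hb z hz)
  have e3 : (wind fun w => ((r : ℂ) * w - a) * (r * w - b)) =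
      (wind fun w => (r : ℂ) * w - a) + wind fun w => (r : ℂ) * w - b :=
    wind_mul (hlin a) (hlin b) (hne a ha) (hne b hb)
  have e4 : ∀ c : ℂ, ‖c‖ = 1 → (wind fun w => (r : ℂ) * w - c) = 0 := by
    intro c hc
    rw [Pool.Agent.TBirG.wind_lin r6 (by rw [hc]; exact r5.ne'), if_neg (by rw [hc]; linarith)]
  rw [e1, e2, e3, e4 a ha, e4 b hb, r4, add_zero, add_zero] at r1
  exact r1

theorem mkLS {phi : ℂ → ℂ} (hphi : AnalyticOnNhd ℂ phi (sphere 0 1)) {l0 : ℂ} {r0 B : ℝ}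
    (hr0 : 0 < r0) {z1 z2 : ℂ → ℂ} {U1 U2 : Set ℂ} {k1 k2 : ℂ} (hU1 : IsOpen U1) (hU2 : IsOpen U2)
    (hdisj : Disjoint U1 U2)
    (h1 : DifferentiableOn ℂ z1 (ball l0 r0)) (h2 : DifferentiableOn ℂ z2 (ball l0 r0))
    (s1 : ‖z1 l0‖ = 1 ∧ ∀ l ∈ ball l0 r0, z1 l ∈ U1 ∧ phi (z1 l) = l)
    (s2 : ‖z2 l0‖ = 1 ∧ ∀ l ∈ ball l0 r0, z2 l ∈ U2 ∧ phi (z2 l) = l)
    (inv1 : ∀ w ∈ U1, phi w ∈ ball l0 r0 → z1 (phi w) = w)
    (inv2 : ∀ w ∈ U2, phi w ∈ ball l0 r0 → z2 (phi w) = w)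
    (exp1 : k1 ≠ 0 ∧
      ∀ l ∈ ball l0 r0, |‖z1 l‖ ^ 2 - 1 - 2 * (k1 * (l - l0)).re| ≤ B * ‖l - l0‖ ^ 2)
    (exp2 : k2 ≠ 0 ∧
      ∀ l ∈ ball l0 r0, |‖z2 l‖ ^ 2 - 1 - 2 * (k2 * (l - l0)).re| ≤ B * ‖l - l0‖ ^ 2)
    (opp : ∀ a : ℝ, 0 < a → k2 ≠ a * k1)
    (cover : ∀ t ∈ sphere (0 : ℂ) 1, phi t = l0 → t ∈ U1 ∪ U2)
    (hin : ∀ᶠ r : ℝ in 𝓝[<] 1, (wind fun w => phi (r * w) - l0) = -1) :
    Nonempty (LS phi l0) := by
  have c1 : (‖z1 l0‖ = 1 ∧ ∀ l ∈ ball l0 r0, z1 l ∈ U1 ∧ phi (z1 l) = l) ∨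
      (U1 = ∅ ∧ ∀ l, z1 l = 5) := Or.inl s1
  have c2 : (‖z2 l0‖ = 1 ∧ ∀ l ∈ ball l0 r0, z2 l ∈ U2 ∧ phi (z2 l) = l) ∨
      (U2 = ∅ ∧ ∀ l, z2 l = 7) := Or.inl s2
  obtain ⟨d, r1, M1, hd0, hd1, hr1, hdphi, hfar, hM1⟩ := far hphi l0 (hU1.union hU2) cover
  set d' : ℝ := d / 2 with hd'def
  have hd'0 : 0 < d' := by positivity
  have hd'1 : d' < 1 / 2 := by rw [hd'def]; linarith
  have hd'd : d' < d := by rw [hd'def]; linarith
  obtain ⟨ρ1, hρ1, hρ1r, c1'⟩ := mkld_zcase hr0 (half_pos hd'0) h1 c1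
  obtain ⟨ρ2, hρ2, hρ2r, c2'⟩ := mkld_zcase hr0 (half_pos hd'0) h2 c2
  have h5n : ‖(5 : ℂ)‖ = 5 := by simp
  have h7n : ‖(7 : ℂ)‖ = 7 := by simp
  have h5a : (5 : ℂ) ∉ ann d := by
    rintro ⟨_, h⟩
    rw [h5n] at h; linarith
  have h7a : (7 : ℂ) ∉ ann d := by
    rintro ⟨_, h⟩
    rw [h7n] at h; linarith
  -- claim A
  have hA : ∀ w ∈ ann d, ∀ l ∈ ball l0 r0, l ∈ ball l0 r1 → phi w = l → w = z1 l ∨ w = z2 l := by
    intro w hw l hl0 hl1 hwl
    have hU : w ∈ U1 ∪ U2 := by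
      by_contra hno
      have h3 := hfar w hw hno
      rw [hwl] at h3
      rw [mem_ball_iff_norm] at hl1
      linarith
    rcases hU with hU | hU
    · left
      rw [← inv1 w hU (by rw [hwl]; exact hl0), hwl]
    · right
      rw [← inv2 w hU (by rw [hwl]; exact hl0), hwl]
  -- the two circles
  set K : Set ℂ := {w | ‖w‖ = 1 - d' ∨ ‖w‖ = 1 + d'} with hK
  have hKann : K ⊆ ann d := by
    rintro w (h | h)
    · exact ⟨by rw [h]; linarith, by rw [h]; linarith⟩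
    · exact ⟨by rw [h]; linarith, by rw [h]; linarith⟩
  have hKc : IsCompact K := by
    refine Metric.isCompact_of_isClosed_isBounded ?_ ?_
    · exact (isClosed_eq continuous_norm continuous_const).union
        (isClosed_eq continuous_norm continuous_const)
    · refine (Metric.isBounded_closedBall (x := (0 : ℂ)) (r := 2)).subset ?_
      rintro w (h | h) <;> rw [mem_closedBall_zero_iff, h] <;> linarith
  have hKpos : ∀ w ∈ K, 0 < ‖phi w - l0‖ := by
    intro w hw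
    rw [norm_pos_iff, sub_ne_zero]
    intro heq
    have hwn : ‖w‖ ≠ 1 ∧ ‖w‖ < 2 := by
      rcases hw with h | h
      · exact ⟨by rw [h]; linarith, by rw [h]; linarith⟩
      · exact ⟨by rw [h]; linarith, by rw [h]; linarith⟩
    rcases hA w (hKann hw) l0 (mem_ball_self hr0) (mem_ball_self hr1) heq with h | h
    · rcases c1 with c | c
      · exact hwn.1 (by rw [h]; exact c.1)
      · have := hwn.2
        rw [h, c.2, h5n] at this
        linarith
    · rcases c2 with c | c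
      · exact hwn.1 (by rw [h]; exact c.1)
      · have := hwn.2
        rw [h, c.2, h7n] at this
        linarith
  obtain ⟨cc, hcc, hKlow⟩ := hKc.exists_forall_le' (f := fun w => ‖phi w - l0‖)
    ((hdphi.continuousOn.mono hKann).sub continuousOn_const).norm hKpos
  set c0 : ℝ := cc / 2 with hc0
  have hc0p : 0 < c0 := half_pos hcc
  -- the radius
  obtain ⟨r, hr, hrr0, hrr1, hrρ1, hrρ2, hrc0, hr1'⟩ : ∃ r : ℝ, 0 < r ∧ r ≤ r0 ∧ r ≤ r1 ∧ r ≤ ρ1 ∧
      r ≤ ρ2 ∧ r ≤ c0 ∧ r ≤ 1 := by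
    refine ⟨min r0 (min r1 (min ρ1 (min ρ2 (min c0 1)))), ?_, ?_, ?_, ?_, ?_, ?_, ?_⟩
    · exact lt_min hr0 (lt_min hr1 (lt_min hρ1 (lt_min hρ2 (lt_min hc0p one_pos))))
    · exact min_le_left _ _
    · exact (min_le_right _ _).trans (min_le_left _ _)
    · exact (min_le_right _ _).trans ((min_le_right _ _).trans (min_le_left _ _))
    · exact (min_le_right _ _).trans ((min_le_right _ _).trans
        ((min_le_right _ _).trans (min_le_left _ _)))
    · exact (min_le_right _ _).trans ((min_le_right _ _).trans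
        ((min_le_right _ _).trans ((min_le_right _ _).trans (min_le_left _ _))))
    · exact (min_le_right _ _).trans ((min_le_right _ _).trans
        ((min_le_right _ _).trans ((min_le_right _ _).trans (min_le_right _ _))))
  have hb0 : ball l0 r ⊆ ball l0 r0 := ball_subset_ball hrr0
  have hb1 : ball l0 r ⊆ ball l0 r1 := ball_subset_ball hrr1
  have e1 : (‖z1 l0‖ = 1 ∧ ∀ l ∈ ball l0 r, z1 l ∈ ann (d' / 2) ∧ z1 l ∈ U1 ∧ phi (z1 l) = l) ∨
      (U1 = ∅ ∧ ∀ l, z1 l = 5) := by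
    rcases c1' with c | c
    · exact Or.inl ⟨c.1, fun l hl => c.2 l (ball_subset_ball hrρ1 hl)⟩
    · exact Or.inr c
  have e2 : (‖z2 l0‖ = 1 ∧ ∀ l ∈ ball l0 r, z2 l ∈ ann (d' / 2) ∧ z2 l ∈ U2 ∧ phi (z2 l) = l) ∨
      (U2 = ∅ ∧ ∀ l, z2 l = 7) := by
    rcases c2' with c | c
    · exact Or.inl ⟨c.1, fun l hl => c.2 l (ball_subset_ball hrρ2 hl)⟩
    · exact Or.inr c
  have hhalf : ann (d' / 2) ⊆ ann d' := mkld_ann_mono (by linarith)
  have hann : ann d' ⊆ ann d := mkld_ann_mono hd'd.le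
  have hne : ∀ l ∈ ball l0 r, z1 l ≠ z2 l := by
    intro l hl heq
    rcases e1 with a | a <;> rcases e2 with b | b
    · have h3 := (a.2 l hl).2.1
      have h4 := (b.2 l hl).2.1
      rw [heq] at h3
      exact Set.disjoint_left.1 hdisj h3 h4
    · have h3 := hann (hhalf (a.2 l hl).1)
      rw [heq, b.2] at h3
      exact h7a h3
    · have h3 := hann (hhalf (b.2 l hl).1)
      rw [← heq, a.2] at h3
      exact h5a h3
    · rw [a.2, b.2] at heq
      norm_num at heq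
  have q1 : (∀ l ∈ ball l0 r, z1 l ∈ ann d ∧ phi (z1 l) = l) ∨ (∀ l ∈ ball l0 r, z1 l ∉ ann d) := by
    rcases e1 with a | a
    · exact Or.inl fun l hl => ⟨hann (hhalf (a.2 l hl).1), (a.2 l hl).2.2⟩
    · exact Or.inr fun l _ => by rw [a.2]; exact h5a
  have q2 : (∀ l ∈ ball l0 r, z2 l ∈ ann d ∧ phi (z2 l) = l) ∨ (∀ l ∈ ball l0 r, z2 l ∉ ann d) := by
    rcases e2 with a | a
    · exact Or.inl fun l hl => ⟨hann (hhalf (a.2 l hl).1), (a.2 l hl).2.2⟩
    · exact Or.inr fun l _ => by rw [a.2]; exact h7a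
  have hz1d : DifferentiableOn ℂ z1 (ball l0 r) := h1.mono hb0
  have hz2d : DifferentiableOn ℂ z2 (ball l0 r) := h2.mono hb0
  -- the quotient
  have hq : ∀ l ∈ ball l0 r, ∃ g : ℂ → ℂ, DifferentiableOn ℂ g (ann d) ∧
      (∀ w ∈ ann d, phi w - l = g w * ((w - z1 l) * (w - z2 l))) ∧ ∀ w ∈ ann d, g w ≠ 0 := by
    intro l hl
    obtain ⟨g, hg1, hg2, hg3, hg4⟩ := quot (f := fun w => phi w - l)
      (hdphi.sub (differentiableOn_const l)) (hne l hl)
      (by
        rcases q1 with a | a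
        · exact Or.inr (by show phi (z1 l) - l = 0; rw [(a l hl).2, sub_self])
        · exact Or.inl (a l hl))
      (by
        rcases q2 with a | a
        · exact Or.inr (by show phi (z2 l) - l = 0; rw [(a l hl).2, sub_self])
        · exact Or.inl (a l hl))
    refine ⟨g, hg1, hg2, fun w hw hgw => ?_⟩
    have hwl : phi w = l := by
      have h3 := hg2 w hw
      rw [hgw, zero_mul, sub_eq_zero] at h3
      exact h3
    have hder : ∀ a, deriv (fun w => phi w - l) a = deriv phi a := fun a => deriv_sub_const l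
    rcases hA w hw l (hb0 hl) (hb1 hl) hwl with h | h
    · rcases q1 with a | a
      · have h3 := hg3 (a l hl).1
        rw [← h, hgw, hder] at h3
        have h4 : deriv phi w = 0 := by
          rcases div_eq_zero_iff.1 h3.symm with h5 | h5
          · exact h5
          · exfalso
            rw [sub_eq_zero] at h5
            exact hne l hl (by rw [← h]; exact h5)
        rw [h] at h4
        exact mkld_deriv hz1d hdphi hl (a l hl).1 (fun l hl => (a l hl).2) h4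
      · rw [h] at hw
        exact a l hl hw
    · rcases q2 with a | a
      · have h3 := hg4 (a l hl).1
        rw [← h, hgw, hder] at h3
        have h4 : deriv phi w = 0 := by
          rcases div_eq_zero_iff.1 h3.symm with h5 | h5
          · exact h5
          · exfalso
            rw [sub_eq_zero] at h5
            exact hne l hl (by rw [← h]; exact h5.symm)
        rw [h] at h4
        exact mkld_deriv hz2d hdphi hl (a l hl).1 (fun l hl => (a l hl).2) h4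
      · rw [h] at hw
        exact a l hl hw
  choose! psi hpsi1 hpsi2 hpsi3 using hq
  -- bounds
  have hdist1 : ∀ l ∈ ball l0 r, ∀ w ∈ K, d' / 2 ≤ ‖w - z1 l‖ ∧ ‖w - z1 l‖ ≤ 9 := by
    intro l hl w hw
    refine mkld_dist hd'0 hd'1 hw ?_
    rcases e1 with a | a
    · exact Or.inl (a.2 l hl).1
    · right; rw [a.2, h5n]; constructor <;> norm_num
  have hdist2 : ∀ l ∈ ball l0 r, ∀ w ∈ K, d' / 2 ≤ ‖w - z2 l‖ ∧ ‖w - z2 l‖ ≤ 9 := by
    intro l hl w hw
    refine mkld_dist hd'0 hd'1 hw ?_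
    rcases e2 with a | a
    · exact Or.inl (a.2 l hl).1
    · right; rw [a.2, h7n]; constructor <;> norm_num
  have hd'2 : 0 < d' / 2 := half_pos hd'0
  have hKub : ∀ l ∈ ball l0 r, ∀ w ∈ K, ‖psi l w‖ ≤ (M1 + ‖l0‖ + 1) / (d' / 2) ^ 2 := by
    intro l hl w hw
    have h3 := hpsi2 l hl w (hKann hw)
    have h4 := hdist1 l hl w hw
    have h5 := hdist2 l hl w hw
    have h6 : ‖phi w - l‖ ≤ M1 + ‖l0‖ + 1 := by
      have a1 := norm_sub_le (phi w) l
      have a2 := hM1 w (hKann hw)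
      have a3 : ‖l‖ ≤ ‖l0‖ + 1 := by
        have a4 := norm_sub_norm_le l l0
        have a5 := mem_ball_iff_norm.1 hl
        linarith
      linarith
    rw [h3, norm_mul, norm_mul] at h6
    rw [le_div_iff₀ (by positivity)]
    refine le_trans ?_ h6
    refine mul_le_mul_of_nonneg_left ?_ (norm_nonneg _)
    rw [sq]
    exact mul_le_mul h4.1 h5.1 hd'2.le (norm_nonneg _)
  have hKlb : ∀ l ∈ ball l0 r, ∀ w ∈ K, c0 / 81 ≤ ‖psi l w‖ := by
    intro l hl w hw
    have h3 := hpsi2 l hl w (hKann hw)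
    have h4 := hdist1 l hl w hw
    have h5 := hdist2 l hl w hw
    have h6 : c0 ≤ ‖phi w - l‖ := by
      have a1 : ‖phi w - l0‖ ≤ ‖phi w - l‖ + ‖l - l0‖ := norm_sub_le_norm_sub_add_norm_sub _ _ _
      have a2 := hKlow w hw
      have a3 := mem_ball_iff_norm.1 hl
      have a4 : c0 = cc / 2 := hc0
      linarith
    rw [h3, norm_mul, norm_mul] at h6
    rw [div_le_iff₀ (by norm_num)]
    refine h6.trans ?_
    refine mul_le_mul_of_nonneg_left ?_ (norm_nonneg _)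
    calc ‖w - z1 l‖ * ‖w - z2 l‖ ≤ 9 * 9 :=
          mul_le_mul h4.2 h5.2 (norm_nonneg _) (by norm_num)
      _ = 81 := by norm_num
  have hub : ∀ l ∈ ball l0 r, ∀ w ∈ ann d', ‖psi l w‖ ≤ (M1 + ‖l0‖ + 1) / (d' / 2) ^ 2 :=
    fun l hl => norm_le_ann hd'0 hd'd hd1 (hpsi1 l hl) fun w hw => hKub l hl w hw
  have hmp : 0 < c0 / 81 := by positivity
  have hlb : ∀ l ∈ ball l0 r, ∀ w ∈ ann d', c0 / 81 ≤ ‖psi l w‖ := by
    intro l hl w hw
    have h3 := norm_le_ann hd'0 hd'd hd1 (g := fun w => (psi l w)⁻¹)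
      ((hpsi1 l hl).inv (hpsi3 l hl)) (M := (c0 / 81)⁻¹) (fun w hw => by
        rw [norm_inv]
        exact inv_anti₀ hmp (hKlb l hl w hw)) w hw
    rw [norm_inv] at h3
    have h4 : 0 < ‖psi l w‖ := norm_pos_iff.2 (hpsi3 l hl w (hann hw))
    exact (inv_le_inv₀ h4 hmp).1 h3
  -- the continuous functions
  have hF : ∀ l ∈ ball l0 r, ∃ F : CT, ∀ t, F t = psi l (e t) := by
    intro l hl
    refine ⟨⟨fun t => psi l (e t), ?_⟩, fun t => rfl⟩
    exact (hpsi1 l hl).continuousOn.comp_continuous mkld_e_cont fun t => mkld_e_ann hd0 t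
  choose! Psi hPsi using hF
  have hPsid : DifferentiableOn ℂ Psi (ball l0 r) := by
    refine sepAn (M := (M1 + ‖l0‖ + 1) / (d' / 2) ^ 2) (fun l hl x => ?_) (fun x => ?_)
    · rw [hPsi l hl x]
      exact hub l hl _ (mkld_e_ann hd'0 x)
    · refine (quot_diff hz1d hz2d hne q1 q2 hdphi hpsi1 hpsi2 (e x) (mkld_e_ann hd0 x)).congr ?_
      intro l hl
      exact hPsi l hl x
  -- winding number
  have han : ∀ l ∈ ball l0 r, AnalyticOnNhd ℂ (psi l) (sphere 0 1) := fun l hl =>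
    ((hpsi1 l hl).analyticOnNhd (mkld_ann_open d)).mono (mkld_sphere_ann hd0)
  have hloc : ∀ l1 ∈ ball l0 r, ∀ᶠ l in 𝓝 l1, wind (psi l) = wind (psi l1) := by
    intro l1 hl1
    have hc : ContinuousAt Psi l1 :=
      (hPsid.differentiableAt (isOpen_ball.mem_nhds hl1)).continuousAt
    have h3 : ∀ᶠ l in 𝓝 l1, dist (Psi l) (Psi l1) < c0 / 81 :=
      hc (Metric.ball_mem_nhds _ hmp)
    filter_upwards [h3, isOpen_ball.mem_nhds hl1] with l hl hlb'
    refine wind_near (han l hlb') (han l1 hl1) fun z hz => ?_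
    obtain ⟨t, rfl⟩ := mkld_e_surj hz
    refine lt_of_lt_of_le ?_ (hlb l1 hl1 (e t) (mkld_e_ann hd'0 t))
    rw [dist_eq_norm] at hl
    have h4 := ContinuousMap.norm_coe_le_norm (Psi l - Psi l1) t
    rw [ContinuousMap.sub_apply, hPsi l hlb' t, hPsi l1 hl1 t] at h4
    exact lt_of_le_of_lt h4 hl
  have hconst : ∀ l ∈ ball l0 r, wind (psi l) = wind (psi l0) := by
    intro l hl
    have hder : ∀ l1 ∈ ball l0 r, HasDerivAt (fun l => wind (psi l)) 0 l1 := by
      intro l1 hl1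
      exact (hasDerivAt_const l1 (wind (psi l1))).congr_of_eventuallyEq (hloc l1 hl1)
    exact isOpen_ball.is_const_of_deriv_eq_zero (convex_ball l0 r).isPreconnected
      (fun l1 hl1 => (hder l1 hl1).differentiableAt.differentiableWithinAt)
      (fun l1 hl1 => (hder l1 hl1).deriv) hl (mem_ball_self hr)
  have hx : wind (psi l0) = -1 := inner_wind hd0 (hpsi1 l0 (mem_ball_self hr))
    (fun z hz => hpsi3 l0 (mem_ball_self hr) z (mkld_sphere_ann hd0 hz))
    (hpsi2 l0 (mem_ball_self hr)) s1.1 s2.1 hin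
  exact ⟨{
    r := r
    del := d'
    m := c0 / 81
    M := (M1 + ‖l0‖ + 1) / (d' / 2) ^ 2
    B := B
    z1 := z1
    z2 := z2
    k1 := k1
    k2 := k2
    psi := psi
    Psi := Psi
    r_pos := hr
    del_pos := hd'0
    del_lt := by linarith
    m_pos := hmp
    z1_diff := hz1d
    z2_diff := hz2d
    z_ne := hne
    z1_one := s1.1
    z2_one := s2.1
    z1_sol := by
      rcases e1 with a | a
      · exact fun l hl => ⟨hhalf (a.2 l hl).1, (a.2 l hl).2.2⟩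
      · have := s1.1
        rw [a.2, h5n] at this
        norm_num at this
    z2_sol := by
      rcases e2 with a | a
      · exact fun l hl => ⟨hhalf (a.2 l hl).1, (a.2 l hl).2.2⟩
      · have := s2.1
        rw [a.2, h7n] at this
        norm_num at this
    k1_ne := exp1.1
    k2_ne := exp2.1
    z1_exp := fun l hl => exp1.2 l (hb0 hl)
    z2_exp := fun l hl => exp2.2 l (hb0 hl)
    opp := opp
    psi_diff := fun l hl => (hpsi1 l hl).mono hann
    fac := fun l hl w hw => hpsi2 l hl w (hann hw)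
    psi_lb := hlb
    psi_ub := hub
    Psi_eq := hPsi
    Psi_diff := hPsid
    wind_eq := fun l hl => (hconst l hl).trans (by rw [hx]; norm_num) }⟩

end Pool.Agent.TBirS
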