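import Pool.Agent.TBirS.EigB

/-!
# The growth of the resolvent at a double point
-/

set_option autoImplicit false

open MeasureTheory Complex Set Filter Topology Metric AddCircle
open scoped ComplexConjugate InnerProductSpace ENNReal
open Pool.Lib (dbar)

namespace Pool.Agent.TBirS

open Pool.Agent.TBir

theorem norm_le_of_inner {A : Hardy →L[ℂ] Hardy} {C : ℝ} (hC : 0 ≤ C)
    (h : ∀ f g : Hardy, ‖inner ℂ g (A f)‖ ≤ C * ‖f‖ * ‖g‖) : ‖A‖ ≤ C := by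
  refine ContinuousLinearMap.opNorm_le_bound _ hC fun f => ?_
  have h3 := h f (A f)
  generalize A f = y at h3 ⊢
  rw [inner_self_eq_norm_sq_to_K] at h3
  have h4 : ‖((‖y‖ : ℂ)) ^ 2‖ = ‖y‖ ^ 2 := by
    rw [norm_pow, Complex.norm_real, norm_norm]
  have h5 : ‖y‖ ^ 2 ≤ C * ‖f‖ * ‖y‖ := by
    rw [← h4]
    exact h3
  rcases (norm_nonneg y).eq_or_lt with h6 | h6
  · rw [← h6]
    positivity
  · rw [sq] at h5
    exact le_of_mul_le_mul_right h5 h6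

theorem FF_le (f : Hardy) {t : ℝ} (h0 : 0 ≤ t) (h1 : t < 1) : FF f t ≤ ‖f‖ * (1 - t)⁻¹ := by
  unfold FF
  rw [← tsum_geometric_of_lt_one h0 h1, ← tsum_mul_left]
  have hs : Summable fun n : ℕ => ‖f‖ * t ^ n := (summable_geometric_of_lt_one h0 h1).mul_left _
  have hle : ∀ n : ℕ, ‖co f n‖ * t ^ n ≤ ‖f‖ * t ^ n := fun n =>
    mul_le_mul_of_nonneg_right (norm_co_le f n) (by positivity)
  exact (Summable.of_nonneg_of_le (fun n => by positivity) hle hs).tsum_le_tsum hle hs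

theorem resolvent_apply {Phi : CT} {l : ℂ} (h : l ∈ resolventSet ℂ Phi) (x : UnitAddCircle) :
    resolvent Phi l x = (l - Phi x)⁻¹ := by
  have hu : IsUnit (algebraMap ℂ CT l - Phi) := h
  have h2 : resolvent Phi l * (algebraMap ℂ CT l - Phi) = 1 := Ring.inverse_mul_cancel _ hu
  have h3 := congrArg (fun f : CT => f x) h2
  simp only [ContinuousMap.mul_apply, ContinuousMap.sub_apply, ContinuousMap.one_apply] at h3
  have h4 : (algebraMap ℂ CT l) x = l := rfl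
  rw [h4] at h3
  exact eq_inv_of_mul_eq_one_left h3

theorem res_loc {phi : ℂ → ℂ} (hphi : AnalyticOnNhd ℂ phi (sphere 0 1)) {Phi : CT}
    (hPhi : ∀ x, Phi x = phi (e x)) {q : ℂ} (D : LS phi q) {c : ℝ} (hc : 0 < c) :
    ∃ C s : ℝ, 0 < C ∧ 0 < s ∧ ∀ l ∈ ball q s, l ≠ q →
      ‖D.z1 l‖ ≤ 1 - c * ‖l - q‖ → 1 + c * ‖l - q‖ ≤ ‖D.z2 l‖ →
      l ∈ resolventSet ℂ (T Phi) ∧ ‖resolvent (T Phi) l‖ ≤ C / ‖l - q‖ ^ 2 := by
  obtain ⟨C, s, hC, hs, h⟩ := PBd_loc1 hPhi D hc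
  have hm := D.m_pos
  refine ⟨C * (9 / c ^ 2) + (D.m * c ^ 2)⁻¹, min s (min D.r (1 / c)), by positivity,
    lt_min hs (lt_min D.r_pos (by positivity)), fun l hl hlq hz1 hz2 => ?_⟩
  have hl1 : l ∈ ball q s := ball_subset_ball (min_le_left _ _) hl
  have hl2 : l ∈ ball q D.r := ball_subset_ball ((min_le_right _ _).trans (min_le_left _ _)) hl
  have hl3 : ‖l - q‖ < 1 / c := by
    have := mem_ball_iff_norm.1 hl
    exact this.trans_le ((min_le_right _ _).trans (min_le_right _ _))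
  have ht : 0 < ‖l - q‖ := norm_pos_iff.2 (sub_ne_zero.2 hlq)
  have hct : c * ‖l - q‖ ≤ 1 := by
    rw [lt_div_iff₀ hc] at hl3
    linarith
  have h1 := h l hl1 hlq hct hz1 hz2
  have hS : l ∉ Sg phi := by
    rw [D.mem_Sg_iff hl2, not_le]
    have : 0 < c * ‖l - q‖ := by positivity
    exact mul_neg_of_neg_of_pos (by linarith) (by linarith)
  have hr1 := PBd_rT hphi hPhi l hS
  have hr2 := PBd_rS hphi hPhi l hS
  refine ⟨hr1, ?_⟩
  have hE : ‖resolvent (T Phi) l - T (resolvent Phi l)‖ ≤ C * (9 / c ^ 2) / ‖l - q‖ ^ 2 := by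
    refine norm_le_of_inner (by positivity) fun f g => (h1 f g).trans ?_
    have hFF : ∀ u : Hardy, FF u (1 - c / 2 * ‖l - q‖) + ‖u‖ ≤ ‖u‖ * (3 / (c * ‖l - q‖)) := by
      intro u
      have h2 := FF_le u (t := 1 - c / 2 * ‖l - q‖) (by nlinarith) (by nlinarith [mul_pos hc ht])
      have h3 : (1 - (1 - c / 2 * ‖l - q‖))⁻¹ = 2 / (c * ‖l - q‖) := by
        field_simp
        ring
      rw [h3] at h2
      have h4 : 1 ≤ 1 / (c * ‖l - q‖) := by
        rw [le_div_iff₀ (by positivity)]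
        linarith
      have h5 : ‖u‖ * (3 / (c * ‖l - q‖)) = ‖u‖ * (2 / (c * ‖l - q‖)) +
          ‖u‖ * (1 / (c * ‖l - q‖)) := by ring
      have h6 : ‖u‖ ≤ ‖u‖ * (1 / (c * ‖l - q‖)) := le_mul_of_one_le_right (norm_nonneg _) h4
      linarith
    have hF0 : ∀ u : Hardy, 0 ≤ FF u (1 - c / 2 * ‖l - q‖) := fun u => FF_nonneg u (by nlinarith)
    have h7 : (FF f (1 - c / 2 * ‖l - q‖) + ‖f‖) * (FF g (1 - c / 2 * ‖l - q‖) + ‖g‖) ≤
        (‖f‖ * (3 / (c * ‖l - q‖))) * (‖g‖ * (3 / (c * ‖l - q‖))) :=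
      mul_le_mul (hFF f) (hFF g) (add_nonneg (hF0 g) (norm_nonneg _)) (by positivity)
    calc C * ((FF f (1 - c / 2 * ‖l - q‖) + ‖f‖) * (FF g (1 - c / 2 * ‖l - q‖) + ‖g‖)) ≤
        C * ((‖f‖ * (3 / (c * ‖l - q‖))) * (‖g‖ * (3 / (c * ‖l - q‖)))) :=
          mul_le_mul_of_nonneg_left h7 hC.le
      _ = C * (9 / c ^ 2) / ‖l - q‖ ^ 2 * ‖f‖ * ‖g‖ := by
          field_simp
          ring
  have hT : ‖T (resolvent Phi l)‖ ≤ (D.m * c ^ 2)⁻¹ / ‖l - q‖ ^ 2 := by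
    refine (norm_T_le _).trans ?_
    rw [ContinuousMap.norm_le _ (by positivity)]
    intro x
    rw [resolvent_apply hr2, norm_inv, hPhi, norm_sub_rev]
    have hx : e x ∈ ann D.del := e_mem_ann D.del_pos x
    rw [D.fac l hl2 _ hx, norm_mul, norm_mul]
    have a1 : c * ‖l - q‖ ≤ ‖e x - D.z1 l‖ := by
      have := norm_sub_norm_le (e x) (D.z1 l)
      rw [norm_e] at this
      linarith
    have a2 : c * ‖l - q‖ ≤ ‖e x - D.z2 l‖ := by
      have := norm_sub_norm_le (D.z2 l) (e x)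
      rw [norm_e, norm_sub_rev] at this
      linarith
    have a3 := D.psi_lb l hl2 _ hx
    have a4 : D.m * (c * ‖l - q‖ * (c * ‖l - q‖)) ≤
        ‖D.psi l (e x)‖ * (‖e x - D.z1 l‖ * ‖e x - D.z2 l‖) := by
      refine mul_le_mul a3 (mul_le_mul a1 a2 (by positivity) (by positivity)) (by positivity)
        (norm_nonneg _)
    have a5 : (D.m * c ^ 2)⁻¹ / ‖l - q‖ ^ 2 = (D.m * (c * ‖l - q‖ * (c * ‖l - q‖)))⁻¹ := by
      field_simp
    rw [a5]
    exact inv_anti₀ (by positivity) a4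
  calc ‖resolvent (T Phi) l‖ = ‖(resolvent (T Phi) l - T (resolvent Phi l)) +
        T (resolvent Phi l)‖ := by rw [sub_add_cancel]
    _ ≤ C * (9 / c ^ 2) / ‖l - q‖ ^ 2 + (D.m * c ^ 2)⁻¹ / ‖l - q‖ ^ 2 :=
        (norm_add_le _ _).trans (add_le_add hE hT)
    _ = (C * (9 / c ^ 2) + (D.m * c ^ 2)⁻¹) / ‖l - q‖ ^ 2 := by ring

end Pool.Agent.TBirS
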