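import Pool.Agent.TBirS.Loc

/-!
# The two parts of the spectrum at a double point

Write `ζ = t + i s = (l - q) / u`, `f ζ = ‖z1 l‖ ^ 2 - 1`, `g ζ = ‖z2 l‖ ^ 2 - 1`. By `LS.mem_Sg_iff` a point
`l` of `ball q D.r` is in `Sg phi` iff `0 ≤ f ζ * g ζ`; `((l - q) * conj u).im` is a positive multiple of `s`.

`strict` : `f` has at `0` a strict derivative over the reals, with value `2 Re (k1 u) > 0` at `1`; the value
of the derivative of `g` at `1` is negative.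
`graph` : so for small `s` the function `t ↦ f (t + i s)` is increasing on `[-ρ/2, ρ/2]` and has there one zero
`T1 s`, `T1` Lipschitz; in the same way `T2` for `-g`.
`box` : `0 ≤ f * g` means `t` between `T1 s` and `T2 s`: for `0 < s < σ` the set is the image of
`(0, σ) × [0, 1]` under a continuous map, so it is preconnected.
`sector` : it is contained in `Sg phi \ Q ⊆ U1 ∪ U2`, so in `U1` or in `U2`.
-/

set_option autoImplicit false

open MeasureTheory Complex Set Filter Topology Metric AddCircle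
open scoped ComplexConjugate InnerProductSpace ENNReal

namespace Pool.Agent.TBirS

open Pool.Agent.TBir

/-- one increasing function in a box: zeros on the horizontal lines, a Lipschitz graph -/
private theorem graph {f : ℂ → ℝ} {f' : ℂ →L[ℝ] ℝ} {ρ m : ℝ} (hm : 0 < m) (hm1 : 2 * m ≤ f' 1)
    (hρ : 0 < ρ) (h0 : f 0 = 0)
    (hf : ∀ x ∈ ball (0 : ℂ) ρ, ∀ y ∈ ball (0 : ℂ) ρ, |f x - f y - f' (x - y)| ≤ m * ‖x - y‖) :
    ∃ σ : ℝ, 0 < σ ∧ σ ≤ ρ / 2 ∧ ∃ T : ℝ → ℝ, ContinuousOn T (Icc (-σ) σ) ∧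
      ∀ s ∈ Icc (-σ) σ, |T s| ≤ ρ / 2 ∧ ∀ t : ℝ, |t| ≤ ρ / 2 →
        (0 ≤ f (t + s * I) ↔ T s ≤ t) ∧ (f (t + s * I) ≤ 0 ↔ t ≤ T s) := by
  have hbox : ∀ t s : ℝ, |t| ≤ ρ / 2 → |s| ≤ ρ / 2 → (t + s * I : ℂ) ∈ ball (0 : ℂ) ρ := by
    intro t s ht hs
    rw [mem_ball_zero_iff]
    have h1 : ‖(t + s * I : ℂ)‖ ^ 2 = t ^ 2 + s ^ 2 := by
      rw [← Complex.normSq_eq_norm_sq, Complex.normSq_add_mul_I]
    have h2 : t ^ 2 ≤ (ρ / 2) ^ 2 := by rw [← sq_abs]; gcongr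
    have h3 : s ^ 2 ≤ (ρ / 2) ^ 2 := by rw [← sq_abs]; gcongr
    have h4 : ‖(t + s * I : ℂ)‖ ^ 2 < ρ ^ 2 := by rw [h1]; nlinarith
    exact lt_of_pow_lt_pow_left₀ 2 hρ.le h4
  -- increasing along horizontal lines
  have hinc : ∀ t t' s : ℝ, |t| ≤ ρ / 2 → |t'| ≤ ρ / 2 → |s| ≤ ρ / 2 → t ≤ t' →
      f (t + s * I) + m * (t' - t) ≤ f (t' + s * I) := by
    intro t t' s ht ht' hs hle
    have h1 := hf _ (hbox t' s ht' hs) _ (hbox t s ht hs)
    have e1 : (t' + s * I - (t + s * I) : ℂ) = (t' - t) • (1 : ℂ) := by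
      rw [Complex.real_smul]
      push_cast
      ring
    rw [e1, map_smul, smul_eq_mul, norm_smul, norm_one, mul_one, Real.norm_eq_abs,
      abs_of_nonneg (by linarith : 0 ≤ t' - t)] at h1
    have h2 := (abs_le.1 h1).1
    nlinarith
  set K : ℝ := |f' I| + m with hK
  have hK0 : 0 ≤ K := by positivity
  -- the values on the vertical line
  have hver : ∀ s : ℝ, |s| ≤ ρ / 2 → |f ((0 : ℝ) + s * I)| ≤ K * |s| := by
    intro s hs
    have h1 := hf _ (hbox 0 s (by rw [abs_zero]; linarith) hs) 0 (mem_ball_self hρ)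
    have e1 : (((0 : ℝ) : ℂ) + s * I - 0 : ℂ) = s • I := by
      rw [Complex.real_smul]
      push_cast
      ring
    rw [h0, e1, map_smul, smul_eq_mul, norm_smul, Complex.norm_I, mul_one, Real.norm_eq_abs,
      sub_zero] at h1
    calc |f ((0 : ℝ) + s * I)| = |(f ((0 : ℝ) + s * I) - s * f' I) + s * f' I| := by ring_nf
      _ ≤ |f ((0 : ℝ) + s * I) - s * f' I| + |s * f' I| := abs_add_le _ _
      _ ≤ m * |s| + |s| * |f' I| := by rw [abs_mul]; linarith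
      _ = K * |s| := by rw [hK]; ring
  set σ : ℝ := min (ρ / 2) (m * ρ / (4 * (K + 1))) with hσ
  have hσ0 : 0 < σ := lt_min (by linarith) (by positivity)
  have hσ1 : σ ≤ ρ / 2 := min_le_left _ _
  have hσ2 : K * σ < m * (ρ / 2) := by
    have h1 : σ ≤ m * ρ / (4 * (K + 1)) := min_le_right _ _
    have h2 : (K + 1) * σ ≤ m * ρ / 4 := by
      calc (K + 1) * σ ≤ (K + 1) * (m * ρ / (4 * (K + 1))) := by gcongr
        _ = m * ρ / 4 := by field_simp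
    nlinarith [mul_pos hm hρ]
  have habs : ∀ s ∈ Icc (-σ) σ, |s| ≤ σ := fun s hs => abs_le.2 hs
  have hcont : ∀ s : ℝ, |s| ≤ ρ / 2 → ContinuousOn (fun t : ℝ => f (t + s * I))
      (Icc (-(ρ / 2)) (ρ / 2)) := by
    intro s hs
    refine LipschitzOnWith.continuousOn (K := Real.toNNReal (|f' 1| + m)) ?_
    refine LipschitzOnWith.of_dist_le_mul fun x hx y hy => ?_
    have h1 := hf _ (hbox x s (abs_le.2 hx) hs) _ (hbox y s (abs_le.2 hy) hs)
    have e1 : (x + s * I - (y + s * I) : ℂ) = (x - y) • (1 : ℂ) := by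
      rw [Complex.real_smul]
      push_cast
      ring
    rw [e1, map_smul, smul_eq_mul, norm_smul, norm_one, mul_one, Real.norm_eq_abs] at h1
    rw [Real.dist_eq, Real.dist_eq, Real.coe_toNNReal _ (by positivity)]
    calc |f (x + s * I) - f (y + s * I)| =
        |(f (x + s * I) - f (y + s * I) - (x - y) * f' 1) + (x - y) * f' 1| := by ring_nf
      _ ≤ |f (x + s * I) - f (y + s * I) - (x - y) * f' 1| + |(x - y) * f' 1| := abs_add_le _ _
      _ ≤ m * |x - y| + |x - y| * |f' 1| := by rw [abs_mul]; linarith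
      _ = (|f' 1| + m) * |x - y| := by ring
  have hex : ∀ s ∈ Icc (-σ) σ, ∃ t ∈ Icc (-(ρ / 2)) (ρ / 2), f (t + s * I) = 0 := by
    intro s hs
    have hs' : |s| ≤ ρ / 2 := (habs s hs).trans hσ1
    have h1 := hver s hs'
    have h2 : K * |s| ≤ K * σ := mul_le_mul_of_nonneg_left (habs s hs) hK0
    have h3 := abs_le.1 h1
    have z0 : |(0 : ℝ)| ≤ ρ / 2 := by rw [abs_zero]; linarith
    have zp : |ρ / 2| ≤ ρ / 2 := by rw [abs_of_pos (by linarith)]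
    have zm : |-(ρ / 2)| ≤ ρ / 2 := by rw [abs_neg, abs_of_pos (by linarith)]
    have h4 := hinc 0 (ρ / 2) s z0 zp hs' (by linarith)
    have h5 := hinc (-(ρ / 2)) 0 s zm z0 hs' (by linarith)
    have h6 := intermediate_value_Icc (by linarith : -(ρ / 2) ≤ ρ / 2) (hcont s hs')
    have h7 : (0 : ℝ) ∈ Icc (f ((-(ρ / 2) : ℝ) + s * I)) (f ((ρ / 2 : ℝ) + s * I)) :=
      ⟨by linarith, by linarith⟩
    exact h6 h7
  choose! T hT1 hT2 using hex
  have hT1' : ∀ s ∈ Icc (-σ) σ, |T s| ≤ ρ / 2 := fun s hs => abs_le.2 (hT1 s hs)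
  refine ⟨σ, hσ0, hσ1, T, ?_, fun s hs => ⟨hT1' s hs, fun t ht => ?_⟩⟩
  · refine LipschitzOnWith.continuousOn (K := Real.toNNReal (K / m)) ?_
    refine LipschitzOnWith.of_dist_le_mul fun x hx y hy => ?_
    rw [Real.dist_eq, Real.dist_eq, Real.coe_toNNReal _ (by positivity)]
    have h1 := hf _ (hbox (T x) x (hT1' x hx) ((habs x hx).trans hσ1)) _
      (hbox (T y) y (hT1' y hy) ((habs y hy).trans hσ1))
    have e1 : (T x + x * I - (T y + y * I) : ℂ) = (T x - T y) • (1 : ℂ) + (x - y) • I := by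
      rw [Complex.real_smul, Complex.real_smul]
      push_cast
      ring
    have h2 : ‖(T x - T y) • (1 : ℂ) + (x - y) • I‖ ≤ |T x - T y| + |x - y| := by
      refine (norm_add_le _ _).trans (le_of_eq ?_)
      rw [norm_smul, norm_smul, norm_one, Complex.norm_I, mul_one, mul_one, Real.norm_eq_abs,
        Real.norm_eq_abs]
    rw [hT2 x hx, hT2 y hy, e1, map_add, map_smul, map_smul, smul_eq_mul, smul_eq_mul, sub_zero,
      zero_sub, abs_neg] at h1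
    have h3 : |(T x - T y) * f' 1| ≤ |(T x - T y) * f' 1 + (x - y) * f' I| +
        |(x - y) * f' I| := by
      calc |(T x - T y) * f' 1| =
          |((T x - T y) * f' 1 + (x - y) * f' I) - (x - y) * f' I| := by ring_nf
        _ ≤ _ := abs_sub _ _
    rw [abs_mul, abs_of_pos (by linarith : 0 < f' 1), abs_mul (x - y)] at h3
    have h4 : |T x - T y| * (2 * m) ≤ |T x - T y| * f' 1 :=
      mul_le_mul_of_nonneg_left hm1 (abs_nonneg _)
    have h5 : m * ‖(T x - T y) • (1 : ℂ) + (x - y) • I‖ ≤ m * (|T x - T y| + |x - y|) :=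
      mul_le_mul_of_nonneg_left h2 hm.le
    rw [div_mul_eq_mul_div, le_div_iff₀ hm, hK]
    nlinarith
  · have hs' : |s| ≤ ρ / 2 := (habs s hs).trans hσ1
    have h0 := hT2 s hs
    refine ⟨⟨fun h => ?_, fun h => ?_⟩, ⟨fun h => ?_, fun h => ?_⟩⟩
    · by_contra hlt
      rw [not_le] at hlt
      have := hinc t (T s) s ht (hT1' s hs) hs' hlt.le
      nlinarith
    · have := hinc (T s) t s (hT1' s hs) ht hs' h
      nlinarith
    · by_contra hlt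
      rw [not_le] at hlt
      have := hinc (T s) t s (hT1' s hs) ht hs' hlt.le
      nlinarith
    · have := hinc t (T s) s ht (hT1' s hs) hs' h
      nlinarith

/-- an increasing and a decreasing function: the points of a half box at which they have the same
sign form a preconnected set -/
private theorem box {f g : ℂ → ℝ} {f' g' : ℂ →L[ℝ] ℝ} (hf : HasStrictFDerivAt f f' 0)
    (hg : HasStrictFDerivAt g g' 0) (hf0 : f 0 = 0) (hg0 : g 0 = 0) (hf1 : 0 < f' 1)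
    (hg1 : g' 1 < 0) {ρ0 : ℝ} (hρ0 : 0 < ρ0) : ∃ δ σ : ℝ, 0 < σ ∧ σ ≤ δ ∧ δ ≤ ρ0 ∧
      IsPreconnected {ζ : ℂ | |ζ.re| ≤ δ ∧ 0 < ζ.im ∧ ζ.im < σ ∧ 0 ≤ f ζ * g ζ} := by
  set m : ℝ := min (f' 1) (-g' 1) / 2 with hm
  have hm0 : 0 < m := by
    have : 0 < min (f' 1) (-g' 1) := lt_min hf1 (by linarith)
    linarith
  have hmf : 2 * m ≤ f' 1 := by
    have : min (f' 1) (-g' 1) ≤ f' 1 := min_le_left _ _
    linarith
  have hmg : 2 * m ≤ (-g') 1 := by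
    have : min (f' 1) (-g' 1) ≤ -g' 1 := min_le_right _ _
    rw [neg_apply]
    linarith
  have key : ∀ {h : ℂ → ℝ} {h' : ℂ →L[ℝ] ℝ}, HasStrictFDerivAt h h' 0 → ∀ᶠ ρ : ℝ in 𝓝[>] 0,
      ∀ x ∈ ball (0 : ℂ) ρ, ∀ y ∈ ball (0 : ℂ) ρ, |h x - h y - h' (x - y)| ≤ m * ‖x - y‖ := by
    intro h h' hh
    have h1 := hh.isLittleO.def hm0
    rw [nhds_prod_eq] at h1
    obtain ⟨r, hr, h2⟩ := (Metric.nhds_basis_ball.prod_self.eventually_iff).1 h1
    filter_upwards [Ioo_mem_nhdsGT hr] with ρ hρ x hx y hy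
    have h3 := h2 (show (x, y) ∈ ball (0 : ℂ) r ×ˢ ball (0 : ℂ) r from
      ⟨ball_subset_ball hρ.2.le hx, ball_subset_ball hρ.2.le hy⟩)
    exact h3
  obtain ⟨ρ, h1, h2, h3⟩ := ((key hf).and ((key hg).and (Ioo_mem_nhdsGT
    (show (0 : ℝ) < 2 * ρ0 by linarith)))).exists
  obtain ⟨hρ, hρ1⟩ := h3
  obtain ⟨σ1, a1, a2, T1, a3, a4⟩ := graph hm0 hmf hρ hf0 h1
  obtain ⟨σ2, b1, b2, T2, b3, b4⟩ := graph (f := fun ζ => -g ζ) (f' := -g') hm0 hmg hρ
    (by simp [hg0]) (by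
      intro x hx y hy
      have h4 := h2 x hx y hy
      rw [← abs_neg] at h4
      convert h4 using 2
      rw [neg_apply]
      ring)
  set σ : ℝ := min σ1 σ2 with hσ
  have hσ0 : 0 < σ := lt_min a1 b1
  have hsub1 : Ioo 0 σ ⊆ Icc (-σ1) σ1 := fun s hs =>
    ⟨by linarith [hs.1], hs.2.le.trans (min_le_left _ _)⟩
  have hsub2 : Ioo 0 σ ⊆ Icc (-σ2) σ2 := fun s hs =>
    ⟨by linarith [hs.1], hs.2.le.trans (min_le_right _ _)⟩
  refine ⟨ρ / 2, σ, hσ0, (min_le_left _ _).trans a2, by linarith, ?_⟩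
  have key2 : ∀ s ∈ Ioo 0 σ, ∀ t : ℝ, |t| ≤ ρ / 2 →
      (0 ≤ f (t + s * I) * g (t + s * I) ↔ t ∈ uIcc (T1 s) (T2 s)) := by
    intro s hs t ht
    obtain ⟨c1, c2⟩ := (a4 s (hsub1 hs)).2 t ht
    obtain ⟨d1, d2⟩ := (b4 s (hsub2 hs)).2 t ht
    rw [mul_nonneg_iff, mem_uIcc, c1, c2, ← d1, ← d2]
    constructor
    · rintro (⟨e1, e2⟩ | ⟨e1, e2⟩)
      · exact Or.inl ⟨e1, by linarith⟩
      · exact Or.inr ⟨by linarith, e1⟩
    · rintro (⟨e1, e2⟩ | ⟨e1, e2⟩)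
      · exact Or.inl ⟨e1, by linarith⟩
      · exact Or.inr ⟨e2, by linarith⟩
  have hmid : ∀ s ∈ Ioo 0 σ, ∀ t ∈ uIcc (T1 s) (T2 s), |t| ≤ ρ / 2 := by
    intro s hs t ht
    have c1 := abs_le.1 (a4 s (hsub1 hs)).1
    have c2 := abs_le.1 (b4 s (hsub2 hs)).1
    rw [mem_uIcc] at ht
    rw [abs_le]
    rcases ht with ⟨e1, e2⟩ | ⟨e1, e2⟩ <;> constructor <;> linarith [c1.1, c1.2, c2.1, c2.2]
  let F : ℝ × ℝ → ℂ := fun x => (((1 - x.2) * T1 x.1 + x.2 * T2 x.1 : ℝ) : ℂ) + x.1 * I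
  have himage : {ζ : ℂ | |ζ.re| ≤ ρ / 2 ∧ 0 < ζ.im ∧ ζ.im < σ ∧ 0 ≤ f ζ * g ζ} =
      F '' (Ioo 0 σ ×ˢ Icc (0 : ℝ) 1) := by
    ext ζ
    constructor
    · rintro ⟨e1, e2, e3, e4⟩
      have e5 : ((ζ.re : ℂ) + ζ.im * I) = ζ := Complex.re_add_im ζ
      rw [← e5] at e4
      have e6 := (key2 ζ.im ⟨e2, e3⟩ ζ.re e1).1 e4
      rw [← segment_eq_uIcc, segment_eq_image] at e6
      obtain ⟨lam, e7, e8⟩ := e6
      refine ⟨(ζ.im, lam), ⟨⟨e2, e3⟩, e7⟩, ?_⟩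
      show (((1 - lam) * T1 ζ.im + lam * T2 ζ.im : ℝ) : ℂ) + ζ.im * I = ζ
      simp only [smul_eq_mul] at e8
      rw [e8, e5]
    · rintro ⟨⟨s, lam⟩, ⟨e1, e2⟩, rfl⟩
      have e3 : (1 - lam) * T1 s + lam * T2 s ∈ uIcc (T1 s) (T2 s) := by
        rw [← segment_eq_uIcc, segment_eq_image]
        exact ⟨lam, e2, rfl⟩
      have e4 := hmid s e1 _ e3
      have re : (F (s, lam)).re = (1 - lam) * T1 s + lam * T2 s := by
        show ((((1 - lam) * T1 s + lam * T2 s : ℝ) : ℂ) + s * I).re = _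
        simp
      have im : (F (s, lam)).im = s := by
        show ((((1 - lam) * T1 s + lam * T2 s : ℝ) : ℂ) + s * I).im = _
        simp
      refine ⟨by rw [re]; exact e4, by rw [im]; exact e1.1, by rw [im]; exact e1.2, ?_⟩
      exact (key2 s e1 _ e4).2 e3
  rw [himage]
  refine (isPreconnected_Ioo.prod isPreconnected_Icc).image F ?_
  have hT1 : ContinuousOn (fun x : ℝ × ℝ => T1 x.1) (Ioo 0 σ ×ˢ Icc (0 : ℝ) 1) :=
    (a3.mono hsub1).comp continuousOn_fst (fun x hx => hx.1)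
  have hT2 : ContinuousOn (fun x : ℝ × ℝ => T2 x.1) (Ioo 0 σ ×ˢ Icc (0 : ℝ) 1) :=
    (b3.mono hsub2).comp continuousOn_fst (fun x hx => hx.1)
  have hr : ContinuousOn (fun x : ℝ × ℝ => (1 - x.2) * T1 x.1 + x.2 * T2 x.1)
      (Ioo 0 σ ×ˢ Icc (0 : ℝ) 1) := by
    refine ContinuousOn.add (ContinuousOn.mul ?_ hT1) (ContinuousOn.mul continuousOn_snd hT2)
    exact continuousOn_const.sub continuousOn_snd
  exact (Complex.continuous_ofReal.comp_continuousOn hr).add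
    ((Complex.continuous_ofReal.comp_continuousOn continuousOn_fst).mul continuousOn_const)

/-- the derivative of the square of the modulus of a zero -/
private theorem strict {z : ℂ → ℂ} {q k : ℂ} {r B : ℝ} (hr : 0 < r)
    (hz : DifferentiableOn ℂ z (ball q r)) (hq : ‖z q‖ = 1)
    (hexp : ∀ l ∈ ball q r, |‖z l‖ ^ 2 - 1 - 2 * (k * (l - q)).re| ≤ B * ‖l - q‖ ^ 2) (u : ℂ) :
    ∃ f' : ℂ →L[ℝ] ℝ, HasStrictFDerivAt (fun ζ : ℂ => ‖z (q + u * ζ)‖ ^ 2 - 1) f' 0 ∧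
      f' 1 = 2 * (k * u).re := by
  have ha : AnalyticAt ℂ z q := hz.analyticAt (ball_mem_nhds q hr)
  have hc : ContDiffAt ℝ 1 z q := (ha.contDiffAt (n := 1)).restrict_scalars ℝ
  have hc2 : ContDiffAt ℝ 1 (fun l => ‖z l‖ ^ 2 - 1) q := (hc.norm_sq ℝ).sub contDiffAt_const
  have hs := hc2.hasStrictFDerivAt one_ne_zero
  let L : ℂ →L[ℝ] ℝ := (2 : ℝ) • (Complex.reCLM.comp (ContinuousLinearMap.mul ℝ ℂ k))
  have hL : ∀ v, L v = 2 * (k * v).re := fun v => rfl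
  have hd : HasFDerivAt (fun l => ‖z l‖ ^ 2 - 1) L q := by
    rw [hasFDerivAt_iff_isLittleO]
    have h1 : (fun l => ‖z l‖ ^ 2 - 1 - (‖z q‖ ^ 2 - 1) - L (l - q)) =O[𝓝 q]
        fun l => ‖l - q‖ ^ 2 := by
      refine Asymptotics.IsBigO.of_bound B ?_
      filter_upwards [ball_mem_nhds q hr] with l hl
      rw [hq, hL, Real.norm_eq_abs, Real.norm_eq_abs, abs_of_nonneg (by positivity :
        (0 : ℝ) ≤ ‖l - q‖ ^ 2)]
      have := hexp l hl
      rwa [one_pow, sub_self, sub_zero]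
    exact h1.trans_isLittleO (Asymptotics.isLittleO_pow_sub_sub q one_lt_two)
  have he : fderiv ℝ (fun l => ‖z l‖ ^ 2 - 1) q = L := hd.fderiv
  rw [he] at hs
  have hs' : HasStrictFDerivAt (fun l => ‖z l‖ ^ 2 - 1) L (q + u * 0) := by
    rw [mul_zero, add_zero]
    exact hs
  have h3 : HasStrictFDerivAt (fun ζ : ℂ => q + u * ζ) (ContinuousLinearMap.mul ℝ ℂ u) 0 :=
    (ContinuousLinearMap.mul ℝ ℂ u).hasStrictFDerivAt.const_add q
  refine ⟨L.comp (ContinuousLinearMap.mul ℝ ℂ u), hs'.comp 0 h3, ?_⟩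
  show L (u * 1) = _
  rw [hL, mul_one]

theorem sector {phi : ℂ → ℂ} (hana : AnalyticOnNhd ℂ phi (sphere 0 1)) {q : ℂ} (D : LS phi q)
    {u : ℂ} (hu1 : 0 < (D.k1 * u).re) (hu2 : (D.k2 * u).re < 0) {Q : Set ℂ} (hQ : Q.Finite)
    {U1 U2 : Set ℂ} (o1 : IsOpen U1) (o2 : IsOpen U2) (hdis : Disjoint U1 U2)
    (hcov : Sg phi \ Q ⊆ U1 ∪ U2) : ∃ R : ℝ, 0 < R ∧ R ≤ D.r ∧
      ((∀ l ∈ ball q R, l ∈ Sg phi → 0 < ((l - q) * conj u).im → l ∈ U1) ∨
        (∀ l ∈ ball q R, l ∈ Sg phi → 0 < ((l - q) * conj u).im → l ∈ U2)) := by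
  have hu0 : u ≠ 0 := by
    rintro rfl
    simp at hu1
  have hun : 0 < ‖u‖ := norm_pos_iff.2 hu0
  obtain ⟨f', hf, hf1⟩ := strict D.r_pos D.z1_diff D.z1_one D.z1_exp u
  obtain ⟨g', hg, hg1⟩ := strict D.r_pos D.z2_diff D.z2_one D.z2_exp u
  -- a radius without points of `Q`
  obtain ⟨r1, hr1, hr1Q⟩ : ∃ r1 : ℝ, 0 < r1 ∧ ∀ l ∈ ball q r1, l ∈ Q → l = q := by
    have h1 : (Q \ {q})ᶜ ∈ 𝓝 q := (hQ.subset sdiff_subset).isClosed.isOpen_compl.mem_nhds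
      (by simp)
    obtain ⟨r1, hr1, h2⟩ := Metric.mem_nhds_iff.1 h1
    refine ⟨r1, hr1, fun l hl hlQ => ?_⟩
    by_contra hne
    exact h2 hl ⟨hlQ, hne⟩
  set r2 : ℝ := min D.r r1 with hr2
  have hr2p : 0 < r2 := lt_min D.r_pos hr1
  have hρ0 : 0 < r2 / (2 * ‖u‖) := by positivity
  obtain ⟨δ, σ, hσ, hσδ, hδ, hpre⟩ := box hf hg (by simp [D.z1_one]) (by simp [D.z2_one])
    (by rw [hf1]; linarith) (by rw [hg1]; linarith) hρ0
  set S : Set ℂ := {ζ : ℂ | |ζ.re| ≤ δ ∧ 0 < ζ.im ∧ ζ.im < σ ∧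
    0 ≤ (‖D.z1 (q + u * ζ)‖ ^ 2 - 1) * (‖D.z2 (q + u * ζ)‖ ^ 2 - 1)} with hS
  have hpre' : IsPreconnected ((fun ζ : ℂ => q + u * ζ) '' S) :=
    hpre.image _ (by fun_prop)
  have hsign : ∀ l ∈ ball q D.r, (l ∈ Sg phi ↔
      0 ≤ (‖D.z1 l‖ ^ 2 - 1) * (‖D.z2 l‖ ^ 2 - 1)) := by
    intro l hl
    rw [D.mem_Sg_iff hl]
    have e : (‖D.z1 l‖ ^ 2 - 1) * (‖D.z2 l‖ ^ 2 - 1) = (‖D.z1 l‖ - 1) * (‖D.z2 l‖ - 1) *
        ((‖D.z1 l‖ + 1) * (‖D.z2 l‖ + 1)) := by ring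
    rw [e]
    exact (mul_nonneg_iff_of_pos_right (by positivity)).symm
  have hin : ∀ ζ : ℂ, |ζ.re| ≤ δ → 0 < ζ.im → ζ.im < σ → q + u * ζ ∈ ball q r2 := by
    intro ζ h1 h2 h3
    have h4 : ‖ζ‖ ≤ |ζ.re| + |ζ.im| := Complex.norm_le_abs_re_add_abs_im ζ
    rw [abs_of_pos h2] at h4
    rw [mem_ball, dist_eq_norm, add_sub_cancel_left, norm_mul]
    have h5 : ‖ζ‖ < 2 * (r2 / (2 * ‖u‖)) := by linarith
    calc ‖u‖ * ‖ζ‖ < ‖u‖ * (2 * (r2 / (2 * ‖u‖))) := mul_lt_mul_of_pos_left h5 hun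
      _ = r2 := by field_simp
  have hsub : (fun ζ : ℂ => q + u * ζ) '' S ⊆ U1 ∪ U2 := by
    rintro _ ⟨ζ, ⟨h1, h2, h3, h4⟩, rfl⟩
    have h5 := hin ζ h1 h2 h3
    refine hcov ⟨(hsign _ (ball_subset_ball (min_le_left _ _) h5)).2 h4, fun h6 => ?_⟩
    have h7 := hr1Q _ (ball_subset_ball (min_le_right _ _) h5) h6
    have h8 : ζ = 0 := by
      have : u * ζ = 0 := by linear_combination h7
      exact (mul_eq_zero.1 this).resolve_left hu0
    rw [h8] at h2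
    simp at h2
  -- the coordinates
  have hcoord : ∀ l ∈ ball q (min D.r (‖u‖ * σ)), l ∈ Sg phi → 0 < ((l - q) * conj u).im →
      l ∈ (fun ζ : ℂ => q + u * ζ) '' S := by
    intro l hl hlS hside
    have h1 : l ∈ ball q D.r := ball_subset_ball (min_le_left _ _) hl
    have h2 : l ∈ ball q (‖u‖ * σ) := ball_subset_ball (min_le_right _ _) hl
    have h3 : q + u * ((l - q) / u) = l := by
      rw [mul_div_cancel₀ _ hu0]
      ring
    have h4 : ‖(l - q) / u‖ < σ := by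
      rw [norm_div, div_lt_iff₀ hun, mul_comm]
      rwa [mem_ball, dist_eq_norm] at h2
    have h5 : ((l - q) / u).im = ((l - q) * conj u).im / ‖u‖ ^ 2 := by
      have : (l - q) / u = ((l - q) * conj u) / ((‖u‖ ^ 2 : ℝ) : ℂ) := by
        rw [← Complex.normSq_eq_norm_sq, ← Complex.mul_conj]
        have hcu : conj u ≠ 0 := (map_ne_zero _).2 hu0
        field_simp
      rw [this, Complex.div_ofReal_im]
    refine ⟨(l - q) / u, ⟨?_, ?_, ?_, ?_⟩, h3⟩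
    · exact (Complex.abs_re_le_norm _).trans (h4.le.trans hσδ)
    · rw [h5]
      positivity
    · exact (Complex.abs_im_le_norm _ |> le_trans (le_abs_self _)).trans_lt h4
    · rw [h3]
      exact (hsign l h1).1 hlS
  refine ⟨min D.r (‖u‖ * σ), lt_min D.r_pos (by positivity), min_le_left _ _, ?_⟩
  rcases hpre'.subset_or_subset o1 o2 hdis hsub with h | h
  · exact Or.inl fun l hl hlS hs => h (hcoord l hl hlS hs)
  · exact Or.inr fun l hl hlS hs => h (hcoord l hl hlS hs)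

end Pool.Agent.TBirS
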